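import Pool.Agent.P.MP_e0c037_lc.AR.Base
import Pool.Agent.P.MP_e0c037_lc.BD.AlgoB

/-! The polynomial-time algorithm for the sign on the two arcs. -/

namespace Pool.Agent.P.MP_e0c037_lc.AR

open Finset SG BD Pool.Agent.Lib.helper21

namespace Algo

/-- The exponents for all subsets of a small part. -/
def prf (κ : Inp × List ℕ → ℕ) (M : ℕ) (G : Inp) (A K : List ℕ) : List (ℕ × ℕ) :=
  (subs M K).map fun S => (κ (G, S) - κ (G, K),
    (S.filter fun x => memb x A).length * (M + 1) + (S.filter fun x => !memb x A).length)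

theorem prf_spec {κ : Inp × List ℕ → ℕ} {k : Inp → KF} (o : Orc κ k) {G : Inp} (hG : Valid G)
    {M : ℕ} {K : List ℕ} (A : List ℕ) (hK : K.Nodup) (hK' : ∀ i ∈ K, i < G.2.length)
    (hM : K.length ≤ M) (q a b : ℝ) :
    ((prf κ M G A K).length ≤ 2 ^ M ∧
      ∀ p ∈ prf κ M G A K, p.1 ≤ (M + 1) * (M + 1) ∧ p.2 ≤ (M + 1) * (M + 1)) ∧
    Zk q (k G) (fun x => if x ∈ A.toFinset then a else b) K.toFinset =
      q ^ k G K.toFinset * ((prf κ M G A K).map fun p =>
        q ^ p.1 * (a ^ (p.2 / (M + 1)) * b ^ (p.2 % (M + 1)))).sum := by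
  have h := o.isK G
  have h0 : κ (G, K) = k G K.toFinset := o.eq G hG K hK'
  have key : ∀ S ∈ subs M K, κ (G, S) = k G S.toFinset ∧ S.Nodup ∧
      S.length ≤ M ∧ S.toFinset ⊆ K.toFinset := fun S hS => by
    have hs := subs_sub M K S hS
    exact ⟨o.eq G hG S fun i hi => hK' i (hs.subset hi), hK.sublist hs, hs.length_le.trans hM,
      fun i hi => List.mem_toFinset.2 (hs.subset (List.mem_toFinset.1 hi))⟩
  refine ⟨⟨by simpa [prf] using subs_len M K, fun p hp => ?_⟩, ?_⟩
  · obtain ⟨S, hS, rfl⟩ := List.mem_map.1 hp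
    obtain ⟨a1, -, a3, -⟩ := key S hS
    have b1 := h.rank_le K.toFinset
    have b2 := h.anti (empty_subset S.toFinset)
    have b3 := List.toFinset_card_of_nodup hK
    have b4 := List.length_filter_le (fun x => memb x A) S
    have b5 := List.length_filter_le (fun x => !memb x A) S
    have b6 := Nat.mul_le_mul_right (M + 1) (b4.trans a3)
    have b7 : (M + 1) * (M + 1) = M * (M + 1) + (M + 1) := Nat.succ_mul _ _
    constructor <;> dsimp only <;> omega
  · unfold Zk prf
    rw [← subs_sum M K _ hK hM, List.map_map, ← List.sum_map_mul_left]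
    congr 1
    refine List.map_congr_left fun S hS => ?_
    obtain ⟨a1, a2, a3, a4⟩ := key S hS
    have b5 : (S.filter fun x => !memb x A).length < M + 1 :=
      Nat.lt_succ_of_le ((List.length_filter_le _ S).trans a3)
    rw [List.prod_toFinset _ a2, AlgoB.prod_two]
    simp only [Function.comp, a1, h0]
    obtain ⟨d, hd⟩ := Nat.exists_eq_add_of_le (h.anti a4)
    rw [hd, Nat.add_sub_cancel_left, add_comm (_ * (M + 1)),
      Nat.add_mul_div_right _ _ M.succ_pos, Nat.add_mul_mod_self_right, Nat.div_eq_of_lt b5,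
      Nat.mod_eq_of_lt b5, zero_add]
    ring

end Algo

open Algo

theorem p_Algo (h1 : S_Norm) (h2 : SG.S_Parts) : S_Algo := by
  intro Cl κ k q a hC o hk hq q0 a1 hP
  obtain ⟨M, hM⟩ := hP
  obtain ⟨C, A, B, pC, pA, pB, hN⟩ := h1 κ _ o
  have p3 := o.pt
  have o' : Orc (fun p => κ (p.1, p.2 ++ C p.1)) fun G => cn (k G) (C G).toFinset :=
    ⟨by fun_prop, fun G => AlgoB.isK_cn (o.isK G) _, fun G hG D hD => by
      rw [o.eq G hG _ fun i hi => (List.mem_append.1 hi).elim (hD i) ((hN G hG).2.1 i),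
        List.toFinset_append]; rfl⟩
  generalize (fun p : Inp × List ℕ => κ (p.1, p.2 ++ C p.1)) = κ' at o'
  obtain ⟨pts, p1, hp⟩ := h2 _ _ o'
  obtain ⟨g, hg1, hg2⟩ := pt_table
    (fun l => (SignType.sign (l.map fun p =>
      q ^ p.1 * ((-2) ^ (p.2 / (M + 1)) * (2 * a - 2) ^ (p.2 % (M + 1)))).sum : ℤ))
    (finite_short (2 ^ M) ((M + 1) * (M + 1)))
  have p2 := pt_subs M
  have p4 := o'.pt
  refine ⟨fun G => (-1 : ℤ) ^ (C G).length *
    ((pts (G, A G ++ B G)).map fun K => cond (decide (M ≤ K.length))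
      (1 * (-1 : ℤ) ^ (κ' (G, []) + κ' (G, K))) (g (prf κ' M G (A G) K))).prod, ?_,
    fun G hG => ?_⟩
  · unfold prf memb
    fun_prop
  obtain ⟨k1, -, ⟨c, k3⟩, k4⟩ := hN G hG
  have w0 : Sta.WF ⟨k G, range G.2.length, ∅, range G.2.length⟩ :=
    ⟨o.isK G, empty_subset _, Subset.rfl, disjoint_empty_left _⟩
  have w := k3.wf w0
  have gr := k3.mc hC w0 (hk G hG)
  have k2 : ∀ i ∈ A G ++ B G, i < G.2.length := fun i hi =>
    mem_range.1 (k3.sub (List.mem_toFinset.2 hi))
  obtain ⟨d1, d⟩ := hp G hG _ k1 k2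
  have z := k3.Z (v := fun _ => 2 * a - 2) hq a1 w0
    ⟨fun x hx => absurd hx (notMem_empty x), fun _ _ => rfl⟩
  refine Eq.trans ?_ (congrArg (fun x : ℝ => (SignType.sign x : ℤ)) z).symm
  dsimp only
  rw [sign_mul, sign_pow, sign_neg (ser_val hq a1).1, d.sign (o'.isK G) q0,
    SignType.coe_mul, SignType.coe_pow, cast_prod, List.map_map, List.map_map]
  refine congrArg₂ (· * ·) rfl (congrArg List.prod ?_)
  refine List.map_congr_left fun K hK => ?_
  obtain ⟨b0, a2, a4⟩ := d.part _ (List.mem_map_of_mem hK)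
  have a3 : ∀ i ∈ K, i < G.2.length := fun i hi =>
    k2 i (List.mem_toFinset.1 (b0 (List.mem_toFinset.2 hi)))
  have a5 : ∀ i ∈ K.toFinset, i ∈ (A G).toFinset ∨ i ∈ (B G).toFinset := fun i hi => by
    have := b0 hi
    rwa [List.toFinset_append, mem_union] at this
  simp only [Function.comp, Bool.cond_decide]
  split_ifs with hh
  · have w1 : Sta.WF ⟨cn (k G) (C G).toFinset, K.toFinset, (A G).toFinset ∩ K.toFinset,
        (B G).toFinset ∩ K.toFinset⟩ :=
      ⟨w.isK, inter_subset_right, inter_subset_right,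
        w.dj.mono inter_subset_left inter_subset_left⟩
    have b1 := hM ⟨cn (k G) (C G).toFinset, K.toFinset, (A G).toFinset ∩ K.toFinset,
        (B G).toFinset ∩ K.toFinset⟩ _ (hC.del _ _ _ gr b0) w1 a2
      ⟨k4.1.mono inter_subset_left, fun x hx y hy hxy p =>
        k4.2 x (mem_inter.1 hx).1 y (mem_inter.1 hy).1 hxy
          (AlgoB.ser_of_sp w.isK b0 a4 (mem_inter.1 hx).2 (mem_inter.1 hy).2 p)⟩
      (fun i hi => by simpa only [mem_union, mem_inter, hi, and_true] using a5 i hi)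
      ((wt_Wt (a := a) (v := fun _ => 2 * a - 2) w).mono inter_subset_left inter_subset_left)
      (by rwa [List.toFinset_card_of_nodup (d1 K hK)])
    have h0 : κ' (G, []) = cn (k G) (C G).toFinset ∅ := by
      simpa using o'.eq G hG [] (by simp)
    rw [o'.eq G hG K a3, h0]
    exact AlgoB.sign_of (ε := 1) (.inl ⟨rfl, rfl⟩) _ (b1.trans_eq (one_mul _).symm)
  · obtain ⟨b1, b2⟩ := prf_spec o' hG (A G) (d1 K hK) a3 (le_of_not_ge hh) q (-2) (2 * a - 2)
    rw [hg2 _ b1, Zk_congr (fun _ _ => rfl) fun e he => ?_, b2, sign_mul,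
      sign_pos (pow_pos q0 _), one_mul]
    unfold wt
    split_ifs <;> rfl

end Pool.Agent.P.MP_e0c037_lc.AR
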