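import Pool.Agent.P.MP_e0c037_lc.AR.Defs

/-! Basic lemmas shared by the parts. -/

namespace Pool.Agent.P.MP_e0c037_lc.AR

open Finset Function SG BD

variable {k : KF} {E S E1 : Finset ℕ} {e f g x y n c : ℕ} {s t : Sta}

theorem wf_can (w : s.WF) (hx : x ∈ s.A) (hy : y ∈ s.A) : (can s x y).WF :=
  ⟨w.isK, erase_subset_erase _ (erase_subset_erase _ w.sa), fun _ hz =>
    mem_erase.2 ⟨fun hh => disjoint_left.1 w.dj hx (hh ▸ hz),
      mem_erase.2 ⟨fun hh => disjoint_left.1 w.dj hy (hh ▸ hz), w.sb hz⟩⟩,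
    w.dj.mono_left ((erase_subset _ _).trans (erase_subset _ _))⟩

theorem Mr.wf (m : Mr s t n c) (w : s.WF) : t.WF := by
  induction m with
  | refl => exact w
  | can a b _ _ _ ih => exact ih (wf_can w a b)
  | ser a b d _ _ ih => exact ih (w.ser a d b)

theorem Mr.trans {u : Sta} {n' c' : ℕ} (m : Mr s t n c) (m' : Mr t u n' c') :
    Mr s u (n + n') (c + c') := by
  induction m with
  | refl => rwa [zero_add, zero_add]
  | can a b d p _ ih => rw [Nat.add_right_comm]; exact .can a b d p (ih m')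
  | ser a b d p _ ih => rw [Nat.add_right_comm]; exact .ser a b d p (ih m')

theorem Mr.sub (m : Mr s t n c) : t.E ⊆ s.E := by
  induction m with
  | refl => exact Subset.rfl
  | can _ _ _ _ _ ih => exact ih.trans ((erase_subset _ _).trans (erase_subset _ _))
  | ser _ _ _ _ _ ih => exact ih.trans (erase_subset _ _)

/-- The elements that are not special stay. -/
theorem Mr.ns (m : Mr s t n c) (z : ℕ) :
    (z ∈ t.E ∧ z ∉ t.A ∧ z ∉ t.B) ↔ (z ∈ s.E ∧ z ∉ s.A ∧ z ∉ s.B) := by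
  induction m with
  | refl => rfl
  | can a b _ _ _ ih => rw [ih]; simp only [AR.can, mem_erase]; grind
  | ser a b _ _ _ ih => rw [ih]; simp only [Sta.ser, mem_erase, mem_insert]; grind

theorem Mr.ns_eq (m : Mr s t n c) : t.E \ (t.A ∪ t.B) = s.E \ (s.A ∪ s.B) := by
  ext z
  simp only [mem_sdiff, mem_union, not_or]
  exact m.ns z

theorem Mr.mc {C : KF → Finset ℕ → Prop} (hM : Mc C) (m : Mr s t n c) (w : s.WF) (h : C s.k s.E) :
    C t.k t.E := by
  induction m with
  | refl => exact h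
  | can a b _ _ _ ih =>
    exact ih (wf_can w a b) (hM.del _ _ _ h ((erase_subset _ _).trans (erase_subset _ _)))
  | ser a b d _ _ ih => exact ih (w.ser a d b) (hM.con _ _ _ h (w.sb b))

theorem Mr.size (m : Mr s t n c) (w : s.WF) :
    t.B.card + 2 * n = s.B.card ∧ t.A.card + 2 * c = s.A.card + n ∧
      t.E.card + n + 2 * c = s.E.card ∧ t.k ∅ + n = s.k ∅ := by
  induction m with
  | refl => simp
  | @can s t n c x y a b d _ _ ih =>
    obtain ⟨i1, i2, i3, i4⟩ := ih (wf_can w a b)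
    have a1 := card_erase_add_one b
    have a2 := card_erase_add_one (mem_erase.2 ⟨d, a⟩)
    have a3 := card_erase_add_one (w.sa b)
    have a4 := card_erase_add_one (mem_erase.2 ⟨d, w.sa a⟩)
    simp only [AR.can] at i1 i2 i3 i4
    omega
  | @ser s t n c x y a b d p _ ih =>
    obtain ⟨i1, i2, i3, i4⟩ := ih (w.ser a d b)
    have a1 := card_erase_add_one b
    have a2 := card_erase_add_one (mem_erase.2 ⟨d, a⟩)
    have a3 := card_erase_add_one (w.sb b)
    have a4 := card_insert_of_notMem (disjoint_right.1 w.dj a)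
    have a5 := (p.facts w.isK (w.sb a) (w.sb b) d).2 ∅ (empty_subset _)
    simp only [Sta.ser, con] at i1 i2 i3 i4
    omega

/-- The count of the ground set cannot drop. -/
theorem Mr.mono (m : Mr s t n c) (w : s.WF) : s.k s.E ≤ t.k t.E := by
  induction m with
  | refl => exact le_rfl
  | can a b _ _ _ ih =>
    exact (w.isK.anti ((erase_subset _ _).trans (erase_subset _ _))).trans (ih (wf_can w a b))
  | ser a b d _ _ ih =>
    have := ih (w.ser a d b)
    simp only [Sta.ser, con] at this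
    rwa [insert_erase (w.sb b)] at this

theorem Mr.mono_erase (m : Mr s t n c) (w : s.WF) (hb : f ∉ s.B) :
    s.k (s.E.erase f) ≤ t.k (t.E.erase f) := by
  induction m with
  | refl => exact le_rfl
  | can a b _ _ _ ih =>
    exact (w.isK.anti (erase_subset_erase _ ((erase_subset _ _).trans (erase_subset _ _)))).trans
      (ih (wf_can w a b) hb)
  | @ser s t n c x y a b d _ _ ih =>
    have := ih (w.ser a d b) fun hh => hb (mem_of_mem_erase (mem_of_mem_erase hh))
    have hy : y ≠ f := fun hh => hb (hh ▸ b)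
    simp only [Sta.ser, con] at this
    rwa [erase_right_comm, insert_erase (mem_erase.2 ⟨hy, w.sb b⟩)] at this

theorem Good.after {u : Sta} {n' c' : ℕ} (m : Mr s t n c) (h : t.k t.E = s.k s.E)
    (gd : Good t u n' c') : Good s u (n + n') (c + c') :=
  ⟨m.trans gd.mr, gd.conn, gd.rd, gd.rk, gd.span.trans h⟩

theorem Good.three (gd : Good s t n c) (w : s.WF) : 3 ≤ t.E.card :=
  three_of_rank (gd.mr.wf w).isK gd.conn gd.rk

/-! ### New states -/

/-- The element `e` is no longer special. -/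
def free (s : Sta) (e : ℕ) : Sta := ⟨s.k, s.E, s.A.erase e, s.B.erase e⟩

/-- The state after a parallel merge of `g` into `e` that is not special. -/
def parS (s : Sta) (e g : ℕ) : Sta :=
  ⟨s.k, s.E.erase g, (s.A.erase g).erase e, (s.B.erase g).erase e⟩

/-- The state after a series merge of `g` into `e` that is not special. -/
def serS (s : Sta) (e g : ℕ) : Sta :=
  ⟨con s.k g, s.E.erase g, (s.A.erase g).erase e, (s.B.erase g).erase e⟩

/-- The state after a good contraction. -/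
def ctrS (s : Sta) (e : ℕ) (E1 : Finset ℕ) : Sta := ⟨con s.k e, E1, s.A ∩ E1, s.B⟩

/-- Two elements move from `A` to `B`. -/
def toB (s : Sta) (e g : ℕ) : Sta := ⟨s.k, s.E, (s.A.erase e).erase g, insert e (insert g s.B)⟩

theorem toB_wf (w : s.WF) (he : e ∈ s.A) (hg : g ∈ s.A) : (toB s e g).WF :=
  ⟨w.isK, ((erase_subset _ _).trans (erase_subset _ _)).trans w.sa,
    insert_subset (w.sa he) (insert_subset (w.sa hg) w.sb), disjoint_left.2 fun z hz hz' => by
      simp only [toB, mem_erase, mem_insert] at hz hz'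
      have := disjoint_left.1 w.dj hz.2.2
      tauto⟩

theorem toB_rd (w : s.WF) (r : s.Rd) (he : e ∈ s.A) (hg : g ∈ s.A) (h1 : NoSer s.k s.E e)
    (h2 : NoSer s.k s.E g) : (toB s e g).Rd := by
  refine ⟨r.1.mono ((erase_subset _ _).trans (erase_subset _ _)), fun x hx y hy hxy p => ?_⟩
  have xE := (toB_wf w he hg).sb hx
  have yE := (toB_wf w he hg).sb hy
  simp only [toB, mem_insert] at hx hy
  rcases hx with rfl | rfl | hx
  · exact h1 y yE hxy p
  · exact h2 y yE hxy p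
  rcases hy with rfl | rfl | hy
  · exact h1 x xE hxy.symm p.symm
  · exact h2 x xE hxy.symm p.symm
  · exact r.2 x hx y hy hxy p

theorem toB_card (w : s.WF) (he : e ∈ s.A) (hg : g ∈ s.A) (heg : e ≠ g) :
    (toB s e g).A.card + 2 = s.A.card ∧ (toB s e g).B.card = s.B.card + 2 := by
  have a1 := card_erase_add_one he
  have a2 := card_erase_add_one (mem_erase.2 ⟨heg.symm, hg⟩)
  have a3 := card_insert_of_notMem (disjoint_left.1 w.dj hg)
  have a4 := card_insert_of_notMem (s := insert g s.B) (a := e)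
    (by simp [heg, disjoint_left.1 w.dj he])
  simp only [toB]
  omega

theorem toB_ns (he : e ∈ s.A) (hg : g ∈ s.A) (z : ℕ) :
    (z ∉ (toB s e g).A ∧ z ∉ (toB s e g).B) ↔ (z ∉ s.A ∧ z ∉ s.B) := by
  simp only [toB, mem_erase, mem_insert]
  grind

/-- An element of a minimal two-separating set with three elements is in no series pair. -/
theorem no_ser {Y : Finset ℕ} (h : IsK k) (hY : Y ⊆ E) (h3 : 3 ≤ Y.card) (hl : lam k E Y ≤ 1)
    (m : MinY k E Y) (he : e ∈ Y) : NoSer k E e := by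
  intro x hx hxe p
  by_cases xY : x ∈ Y
  · have a1 := m {e, x} (insert_subset he (singleton_subset_iff.2 xY))
      (fun hh => by have := card_le_two (a := e) (b := x); rw [hh] at this; omega)
      (by rw [card_pair hxe])
    have e1 : E \ {e, x} = (E.erase x).erase e := by
      ext z; simp only [mem_insert, mem_sdiff, mem_erase, mem_singleton]; tauto
    have a2 := h.rank_le {e, x}
    have a3 := p.2.2
    rw [card_pair hxe] at a2
    unfold lam at a1
    rw [e1] at a1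
    omega
  · have a1 := m (Y.erase e) (erase_subset _ _) (erase_ne_self.2 he)
      (by rw [card_erase_of_mem he]; omega)
    have e1 : E \ Y.erase e = insert e (E \ Y) := sdiff_erase (hY he)
    have a2 := h.ge (E \ Y) e
    have a3 := (p.facts h (hY he) hx hxe).1 (Y.erase e) fun z hz =>
      mem_erase.2 ⟨ne_of_mem_erase hz, mem_erase.2
        ⟨fun hh => xY (hh ▸ mem_of_mem_erase hz), hY (mem_of_mem_erase hz)⟩⟩
    rw [insert_erase he] at a3
    unfold lam at a1 hl
    rw [e1] at a1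
    omega

theorem free_wf (w : s.WF) (e : ℕ) : (free s e).WF :=
  ⟨w.isK, (erase_subset _ _).trans w.sa, (erase_subset _ _).trans w.sb,
    w.dj.mono (erase_subset _ _) (erase_subset _ _)⟩

theorem free_rd (r : s.Rd) (e : ℕ) : (free s e).Rd :=
  ⟨r.1.mono (erase_subset _ _), r.2.mono (erase_subset _ _)⟩

theorem parS_wf (w : s.WF) (e g : ℕ) : (parS s e g).WF := free_wf (w.del g) e

theorem serS_wf (w : s.WF) (e g : ℕ) : (serS s e g).WF := free_wf (w.ctr g) e

/-- Deleting `g` parallel to an element `e` outside `B`. -/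
theorem del_rd (w : s.WF) (r : s.Rd) (he : e ∈ s.E) (heg : e ≠ g) (p : Par s.k e g)
    (hb : e ∉ s.B) : (s.del g).Rd :=
  ⟨r.1.mono (erase_subset _ _), fun x hx y hy hxy h =>
    r.2 x (mem_of_mem_erase hx) y (mem_of_mem_erase hy) hxy (ser_of_par_del w.isK p he heg
      (fun hh => hb (hh ▸ mem_of_mem_erase hx)) (fun hh => hb (hh ▸ mem_of_mem_erase hy)) h)⟩

theorem parS_rd (w : s.WF) (r : s.Rd) (he : e ∈ s.E) (heg : e ≠ g) (p : Par s.k e g) :
    (parS s e g).Rd :=
  ⟨r.1.mono ((erase_subset _ _).trans (erase_subset _ _)), fun x hx y hy hxy h =>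
    r.2 x (mem_of_mem_erase (mem_of_mem_erase hx)) y (mem_of_mem_erase (mem_of_mem_erase hy)) hxy
      (ser_of_par_del w.isK p he heg (ne_of_mem_erase hx) (ne_of_mem_erase hy) h)⟩

theorem serS_rd (w : s.WF) (r : s.Rd) (hc : Conn s.k s.E) (he : e ∈ s.E) (hg : g ∈ s.E)
    (heg : e ≠ g) (p : Ser s.k s.E e g) : (serS s e g).Rd :=
  ⟨red_ser w.isK hc he hg heg p.2.2 w.sa r.1, fun x hx y hy hxy h =>
    r.2 x (mem_of_mem_erase (mem_of_mem_erase hx)) y (mem_of_mem_erase (mem_of_mem_erase hy)) hxy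
      (ser_of_con hg (ne_of_mem_erase (mem_of_mem_erase hx))
        (ne_of_mem_erase (mem_of_mem_erase hy)) h)⟩

theorem ctrS_wf (w : s.WF) (h : Ctr s.k s.E s.A e E1) (hb : e ∉ s.B) : (ctrS s e E1).WF :=
  ⟨w.isK.con e, inter_subset_right, fun _ hz =>
    h.mem' (w.sb hz) (fun hh => hb (hh ▸ hz)) (disjoint_right.1 w.dj hz),
    w.dj.mono_left inter_subset_left⟩

theorem ctrS_rd {T : Finset ℕ} (r : RedS s.k s.E s.B) (h : Ctr s.k s.E s.A e E1)
    (hk : Kp s.k s.E T e E1) (hT : s.B ⊆ T) : (ctrS s e E1).Rd :=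
  ⟨h.red, fun x hx y hy hxy p => r x hx y hy hxy (hk x (hT hx) y (hT hy) p)⟩

theorem ctrS_rk (w : s.WF) (h : Ctr s.k s.E s.A e E1) :
    (ctrS s e E1).k (ctrS s e E1).E = s.k s.E ∧ s.k ∅ ≤ (ctrS s e E1).k ∅ + 1 ∧
      (ctrS s e E1).k (ctrS s e E1).E + 2 ≤ (ctrS s e E1).k ∅ := by
  have h1 := h.span
  have h2 := h.rk
  have h3 := w.isK.ge ∅ e
  simp only [ctrS, con]
  omega

theorem ctrS_ns (h : Ctr s.k s.E s.A e E1) (z : ℕ) :
    (z ∈ (ctrS s e E1).E ∧ z ∉ (ctrS s e E1).A ∧ z ∉ (ctrS s e E1).B) ↔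
      (z ≠ e ∧ z ∈ s.E ∧ z ∉ s.A ∧ z ∉ s.B) := by
  simp only [ctrS, mem_inter]
  constructor
  · rintro ⟨a, b, d⟩
    exact ⟨ne_of_mem_erase (h.subset a), mem_of_mem_erase (h.subset a), fun hh => b ⟨hh, a⟩, d⟩
  · rintro ⟨a, b, d, i⟩
    exact ⟨h.mem' b a d, fun hh => d hh.1, i⟩

/-! ### Weights -/

section weights

variable {q a ρ : ℝ} {v : ℕ → ℝ} {J : ℕ} {τ : ℕ → ℝ}

theorem wt_A (hx : x ∈ s.A) : wt a s v x = -2 := if_pos hx

theorem wt_B (w : s.WF) (hx : x ∈ s.B) : wt a s v x = 2 * a - 2 := by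
  unfold wt; rw [if_neg (disjoint_right.1 w.dj hx), if_pos hx]

theorem wt_N (ha : x ∉ s.A) (hb : x ∉ s.B) : wt a s v x = v x := by
  unfold wt; rw [if_neg ha, if_neg hb]

theorem wt_Wt (w : s.WF) : Wt a s (wt a s v) := ⟨fun _ h => wt_A h, fun _ h => wt_B w h⟩

theorem Wt.eq (h : Wt a s v) : wt a s v = v := by
  funext x
  unfold wt
  split_ifs with h1 h2
  exacts [(h.wa x h1).symm, (h.wb x h2).symm, rfl]

theorem Wt.mono (h : Wt a s v) (ha : t.A ⊆ s.A) (hb : t.B ⊆ s.B) : Wt a t v :=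
  ⟨fun x hx => h.wa x (ha hx), fun x hx => h.wb x (hb hx)⟩

theorem Wt.upd (h : Wt a s v) (ha : e ∉ s.A) (hb : e ∉ s.B) (w : ℝ) : Wt a s (update v e w) :=
  ⟨fun x hx => by rw [update_of_ne (fun hh : x = e => ha (hh ▸ hx))]; exact h.wa x hx,
    fun x hx => by rw [update_of_ne (fun hh : x = e => hb (hh ▸ hx))]; exact h.wb x hx⟩

theorem Wt.free (h : Wt a s v) (e : ℕ) (w : ℝ) : Wt a (free s e) (update v e w) :=
  (h.mono (t := AR.free s e) (erase_subset _ _) (erase_subset _ _)).upd (notMem_erase _ _)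
    (notMem_erase _ _) w

theorem Wt.parS (h : Wt a s v) (e g : ℕ) (w : ℝ) : Wt a (parS s e g) (update v e w) :=
  (h.mono (t := AR.parS s e g) ((erase_subset _ _).trans (erase_subset _ _))
    ((erase_subset _ _).trans (erase_subset _ _))).upd (notMem_erase _ _) (notMem_erase _ _) w

theorem Wt.serS (h : Wt a s v) (e g : ℕ) (w : ℝ) : Wt a (serS s e g) (update v e w) :=
  ⟨(h.parS e g w).wa, (h.parS e g w).wb⟩

theorem Wt.toB (h : Wt a s v) (e g : ℕ) :
    Wt a (toB s e g) (update (update v e (2 * a - 2)) g (2 * a - 2)) := by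
  refine ⟨fun x hx => ?_, fun x hx => ?_⟩
  · rw [update_of_ne (ne_of_mem_erase hx), update_of_ne (ne_of_mem_erase (mem_of_mem_erase hx))]
    exact h.wa x (mem_of_mem_erase (mem_of_mem_erase hx))
  · by_cases h1 : x = g
    · rw [h1, update_self]
    rw [update_of_ne h1]
    by_cases h2 : x = e
    · rw [h2, update_self]
    rw [update_of_ne h2]
    exact h.wb x ((mem_insert.1 ((mem_insert.1 hx).resolve_left h2)).resolve_left h1)

theorem Wt.del (h : Wt a s v) (e : ℕ) : Wt a (s.del e) v :=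
  h.mono (erase_subset _ _) (erase_subset _ _)

theorem Wt.ctrS (h : Wt a s v) (e : ℕ) (E1 : Finset ℕ) : Wt a (ctrS s e E1) v :=
  h.mono inter_subset_left Subset.rfl

theorem ser_val (hq : q = 2 * (1 - a ^ 2)) (a1 : a < 1) :
    q + (2 * a - 2) + (2 * a - 2) < 0 ∧
      (2 * a - 2) * (2 * a - 2) / (q + (2 * a - 2) + (2 * a - 2)) = -2 := by
  have e : q + (2 * a - 2) + (2 * a - 2) = -(2 * (1 - a) ^ 2) := by rw [hq]; ring
  have h : 0 < 2 * (1 - a) ^ 2 := mul_pos two_pos (pow_pos (by linarith) 2)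
  rw [e]
  refine ⟨by linarith, ?_⟩
  rw [div_eq_iff (by linarith)]
  ring

theorem wt_ser (hq : q = 2 * (1 - a ^ 2)) (a1 : a < 1) (w : s.WF) (hx : x ∈ s.B) (hy : y ∈ s.B)
    {z : ℕ} (hz : z ≠ y) :
    update (wt a s v) x (wt a s v x * wt a s v y / (q + wt a s v x + wt a s v y)) z =
      wt a (s.ser x y) v z := by
  rw [wt_B w hx, wt_B w hy, (ser_val hq a1).2]
  by_cases h : z = x
  · subst h
    simp only [update_self, wt, Sta.ser, mem_insert_self, if_true]
  · simp [wt, Sta.ser, h, hz]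

theorem wt_can {z : ℕ} (h1 : z ≠ x) (h2 : z ≠ y) : wt a s v z = wt a (can s x y) v z := by
  simp only [wt, can, mem_erase, ne_eq, h1, h2, not_false_eq_true, true_and]
  split_ifs <;> rfl

theorem Z_can {k1 : KF} {F : Finset ℕ} (hx : x ∈ s.A) (hy : y ∈ s.A) (hxy : x ≠ y) (xF : x ∈ F)
    (yF : y ∈ F) (h1 : ∀ D, k1 (insert y (insert x D)) = k1 (insert x D))
    (h2 : ∀ D, k1 (insert x (insert y D)) = k1 (insert y D)) :
    Zk q k1 (wt a s v) F = Zk q k1 (wt a (can s x y) v) ((F.erase y).erase x) := by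
  rw [Zk_cancel xF yF hxy h1 h2 (wt_A hx) (wt_A hy), erase_right_comm]
  exact Zk_congr (fun _ _ => rfl) fun z hz =>
    wt_can (ne_of_mem_erase hz) (ne_of_mem_erase (mem_of_mem_erase hz))

theorem Z_ser (hq : q = 2 * (1 - a ^ 2)) (a1 : a < 1) (w : s.WF) {k1 : KF} {F : Finset ℕ}
    (hx : x ∈ s.B) (hy : y ∈ s.B) (hxy : x ≠ y) (xF : x ∈ F) (yF : y ∈ F)
    (h1 : ∀ D ⊆ (F.erase y).erase x, k1 D = k1 (insert x D) + 1)
    (h2 : ∀ D ⊆ (F.erase y).erase x, k1 D = k1 (insert y D) + 1) :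
    Zk q k1 (wt a s v) F =
      (q + (2 * a - 2) + (2 * a - 2)) * Zk q (con k1 y) (wt a (s.ser x y) v) (F.erase y) := by
  rw [Zk_ser xF yF hxy h1 h2 (by rw [wt_B w hx, wt_B w hy]; exact (ser_val hq a1).1.ne)]
  congr 1
  · rw [wt_B w hx, wt_B w hy]
  · exact Zk_congr (fun _ _ => rfl) fun z hz => wt_ser hq a1 w hx hy (ne_of_mem_erase hz)

theorem Mr.Z' (hq : q = 2 * (1 - a ^ 2)) (a1 : a < 1) (m : Mr s t n c) (w : s.WF) :
    Zk q s.k (wt a s v) s.E = (q + (2 * a - 2) + (2 * a - 2)) ^ n * Zk q t.k (wt a t v) t.E := by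
  induction m with
  | refl => simp
  | can a b d p _ ih =>
    rw [← ih (wf_can w a b)]
    exact Z_can a b d (w.sa a) (w.sa b) (par_eq w.isK p.1 p.2.2)
      (par_eq w.isK p.symm.1 p.symm.2.2)
  | ser a b d p _ ih =>
    obtain ⟨p1, p2⟩ := p.facts w.isK (w.sb a) (w.sb b) d
    rw [pow_succ', mul_assoc, ← ih (w.ser a d b)]
    exact Z_ser hq a1 w a b d (w.sb a) (w.sb b) p1 p2

/-- The polynomial along special moves. -/
theorem Mr.Z (hq : q = 2 * (1 - a ^ 2)) (a1 : a < 1) (m : Mr s t n c) (w : s.WF) (h : Wt a s v) :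
    Zk q s.k v s.E = (q + (2 * a - 2) + (2 * a - 2)) ^ n * Zk q t.k (wt a t v) t.E := by
  rw [← m.Z' hq a1 w, h.eq]

theorem Mr.Zf (hq : q = 2 * (1 - a ^ 2)) (a1 : a < 1) (m : Mr s t n c) (w : s.WF) (hf : f ∈ s.E)
    (ha : f ∉ s.A) (hb : f ∉ s.B) :
    Zk q s.k (wt a s v) (s.E.erase f) =
        (q + (2 * a - 2) + (2 * a - 2)) ^ n * Zk q t.k (wt a t v) (t.E.erase f) ∧
      Zk q (con s.k f) (wt a s v) (s.E.erase f) =
        (q + (2 * a - 2) + (2 * a - 2)) ^ n * Zk q (con t.k f) (wt a t v) (t.E.erase f) := by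
  induction m with
  | refl => simp
  | @can s t n c x y a b d p _ ih =>
    have hx : x ≠ f := fun hh => ha (hh ▸ a)
    have hy : y ≠ f := fun hh => ha (hh ▸ b)
    obtain ⟨i1, i2⟩ := ih (wf_can w a b) (mem_erase.2 ⟨hx.symm, mem_erase.2 ⟨hy.symm, hf⟩⟩)
      (fun hh => ha (mem_of_mem_erase (mem_of_mem_erase hh))) hb
    have p1 := par_eq w.isK p.1 p.2.2
    have p2 := par_eq w.isK p.symm.1 p.symm.2.2
    have e1 : ((s.E.erase f).erase y).erase x = ((s.E.erase y).erase x).erase f := by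
      rw [erase_right_comm (a := f), erase_right_comm (a := f)]
    rw [← i1, ← i2, Z_can a b d (mem_erase.2 ⟨hx, w.sa a⟩) (mem_erase.2 ⟨hy, w.sa b⟩) p1 p2,
      Z_can (k1 := con s.k f) a b d (mem_erase.2 ⟨hx, w.sa a⟩) (mem_erase.2 ⟨hy, w.sa b⟩)
        (fun A => by unfold con; rw [Finset.insert_comm f y, Finset.insert_comm f x, p1])
        (fun A => by unfold con; rw [Finset.insert_comm f x, Finset.insert_comm f y, p2]), e1]
    exact ⟨rfl, rfl⟩
  | @ser s t n c x y a b d p _ ih =>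
    have hx : x ≠ f := fun hh => hb (hh ▸ a)
    have hy : y ≠ f := fun hh => hb (hh ▸ b)
    obtain ⟨i1, i2⟩ := ih (w.ser a d b) (mem_erase.2 ⟨hy.symm, hf⟩) (by simp [Sta.ser, hx.symm, ha])
      (fun hh => hb (mem_of_mem_erase (mem_of_mem_erase hh)))
    obtain ⟨p1, p2⟩ := p.facts w.isK (w.sb a) (w.sb b) d
    have j1 : ((s.E.erase f).erase y).erase x ⊆ (s.E.erase y).erase x :=
      erase_subset_erase _ (erase_subset_erase _ (erase_subset _ _))
    have j2 : ∀ A ⊆ ((s.E.erase f).erase y).erase x, insert f A ⊆ (s.E.erase y).erase x :=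
      fun A hA => insert_subset (by simp [hf, hx.symm, hy.symm]) (hA.trans j1)
    rw [pow_succ', mul_assoc, mul_assoc, ← i1, ← i2,
      Z_ser hq a1 w a b d (mem_erase.2 ⟨hx, w.sb a⟩) (mem_erase.2 ⟨hy, w.sb b⟩)
        (fun A hA => p1 A (hA.trans j1)) (fun A hA => p2 A (hA.trans j1)),
      Z_ser hq a1 w (k1 := con s.k f) a b d (mem_erase.2 ⟨hx, w.sb a⟩) (mem_erase.2 ⟨hy, w.sb b⟩)
        (fun A hA => by unfold con; rw [Finset.insert_comm f x]; exact p1 _ (j2 A hA))
        (fun A hA => by unfold con; rw [Finset.insert_comm f y]; exact p2 _ (j2 A hA)),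
      erase_right_comm, con_comm s.k f y]
    exact ⟨rfl, rfl⟩

/-- Along spanning special moves `al`, `ga` and the signed polynomial are scaled by the same
positive factor. -/
theorem Mr.scale (hq : q = 2 * (1 - a ^ 2)) (a1 : a < 1) (m : Mr s t n c) (w : s.WF)
    (hs : t.k t.E = s.k s.E) (h : Wt a s v) (hf : f ∈ s.E) (ha : f ∉ s.A) (hb : f ∉ s.B) :
    ∃ d : ℝ, 0 < d ∧ al q s.k v s.E f = d * al q t.k (wt a t v) t.E f ∧
      ga q s.k v s.E f = d * ga q t.k (wt a t v) t.E f ∧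
      sg s.k s.E * Zk q s.k v s.E = d * (sg t.k t.E * Zk q t.k (wt a t v) t.E) := by
  obtain ⟨z1, z2⟩ := m.Zf (v := v) hq a1 w hf ha hb
  have z0 := m.Z hq a1 w h
  rw [h.eq] at z1 z2
  have e1 : sg s.k s.E = (-1) ^ n * sg t.k t.E := by
    unfold sg
    rw [← (m.size w).2.2.2, hs, ← pow_add]
    congr 1
    omega
  refine ⟨(-(q + (2 * a - 2) + (2 * a - 2))) ^ n, pow_pos (neg_pos.2 (ser_val hq a1).1) n, ?_⟩
  unfold al ga
  rw [z0, z1, z2, e1, neg_pow (q + (2 * a - 2) + (2 * a - 2))]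
  refine ⟨?_, ?_, ?_⟩ <;> ring

/-- An element as a mixture of another weight and its deletion. -/
theorem al_mix (he : e ∈ E) (hef : e ≠ f) (h1 : k {e} + 1 = k ∅) (h2 : k (E.erase e) = k E)
    {w r : ℝ} (hv : v e = r * w) :
    al q k v E f = r * al q k (update v e w) E f + (1 - r) * al q k v (E.erase e) f ∧
    ga q k v E f = r * ga q k (update v e w) E f + (1 - r) * ga q k v (E.erase e) f := by
  obtain ⟨a1, a2⟩ := al_dc (q := q) (v := v) he hef h1 h2
  obtain ⟨b1, b2⟩ := al_rew (q := q) (v := v) he hef h1 h2 w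
  rw [hv] at a1 a2 b1 b2
  constructor
  · linear_combination (1 - r) * a1 + r * b1
  · linear_combination (1 - r) * a2 + r * b2

theorem sgZ_par (h : IsK k) (he : e ∈ E) (hg : g ∈ E) (heg : e ≠ g) (p : Par k e g) :
    sg k E * Zk q k v E = sg k (E.erase g) *
      Zk q k (update v e (v e + v g + v e * v g)) (E.erase g) := by
  rw [sg_del (par_erase h p he heg), Zk_par he hg heg (par_eq h p.1 p.2.2)
    (par_eq h p.symm.1 p.symm.2.2)]

/-- The two-element identity. -/
theorem Zk_two' (he : e ∈ E) (hg : g ∈ E) (heg : e ≠ g) (ve : v e = -2) (vg : v g = -2) (a : ℝ) :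
    Zk q k v E = Zk q k (update (update v e (2 * a - 2)) g (2 * a - 2)) E -
      2 * a * Zk q (con k e) (update v g (a - 2)) (E.erase e) -
      2 * a * Zk q (con k g) (update v e (a - 2)) (E.erase g) := by
  have hg' : g ∈ E.erase e := mem_erase.2 ⟨heg.symm, hg⟩
  have he' : e ∈ E.erase g := mem_erase.2 ⟨heg, he⟩
  have n1 : g ∉ (E.erase e).erase g := notMem_erase _ _
  have n2 : e ∉ (E.erase e).erase g := fun hh => notMem_erase e E (mem_of_mem_erase hh)
  rw [Zk_erase he, Zk_erase (v := update _ _ _) he, Zk_erase (k := k) hg',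
    Zk_erase (k := con k e) hg', Zk_erase (k := k) (v := update _ _ _) hg',
    Zk_erase (k := con k e) (v := update (update _ _ _) _ _) hg',
    Zk_erase (k := con k e) (v := update v _ _) hg', Zk_erase (k := con k g) he',
    erase_right_comm (a := g), con_comm k g e]
  simp only [Zk_update n1, Zk_update n2, update_self, update_of_ne heg, ve, vg]
  ring

theorem al_two' (he : e ∈ E) (hg : g ∈ E) (heg : e ≠ g) (hef : e ≠ f) (hgf : g ≠ f)
    (h1 : k {e} + 1 = k ∅) (h2 : k {g} + 1 = k ∅) (ve : v e = -2) (vg : v g = -2) (a : ℝ) :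
    al q k v E f = al q k (update (update v e (2 * a - 2)) g (2 * a - 2)) E f +
      2 * a * al q (con k e) (update v g (a - 2)) (E.erase e) f +
      2 * a * al q (con k g) (update v e (a - 2)) (E.erase g) f ∧
    ga q k v E f = ga q k (update (update v e (2 * a - 2)) g (2 * a - 2)) E f +
      2 * a * ga q (con k e) (update v g (a - 2)) (E.erase e) f +
      2 * a * ga q (con k g) (update v e (a - 2)) (E.erase g) f := by
  have he' : e ∈ E.erase f := mem_erase.2 ⟨hef, he⟩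
  have hg' : g ∈ E.erase f := mem_erase.2 ⟨hgf, hg⟩
  unfold al ga
  rw [sg_con he h1, sg_con hg h2, Zk_two' (k := k) he' hg' heg ve vg a,
    Zk_two' (k := con k f) he' hg' heg ve vg a, con_comm k f e, con_comm k f g,
    erase_right_comm (a := f), erase_right_comm (a := f)]
  constructor <;> ring

theorem sgZ_two' (he : e ∈ E) (hg : g ∈ E) (heg : e ≠ g) (h1 : k {e} + 1 = k ∅)
    (h2 : k {g} + 1 = k ∅) (ve : v e = -2) (vg : v g = -2) (a : ℝ) :
    sg k E * Zk q k v E = sg k E * Zk q k (update (update v e (2 * a - 2)) g (2 * a - 2)) E +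
      2 * a * (sg (con k e) (E.erase e) * Zk q (con k e) (update v g (a - 2)) (E.erase e)) +
      2 * a * (sg (con k g) (E.erase g) * Zk q (con k g) (update v e (a - 2)) (E.erase g)) := by
  rw [sg_con he h1, sg_con hg h2, Zk_two' he hg heg ve vg a]
  ring

theorem Sy.t0 (y : Sy q a ρ J τ) : 0 < τ 2 := by linarith [y.t2, y.a1]

theorem Sy.r0 (y : Sy q a ρ J τ) : 0 < ρ := y.t0.trans y.tr

theorem Sy.a0 (y : Sy q a ρ J τ) : 1 / 2 < a := by linarith [y.r0, y.rb]

theorem Sy.wa (y : Sy q a ρ J τ) : |1 + -a| ≤ τ 2 ∧ |1 + (a - 2)| ≤ τ 2 := by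
  have := y.t2
  have := y.a1
  constructor <;> rw [abs_le] <;> constructor <;> linarith

theorem Sy.r1 (y : Sy q a ρ J τ) : ρ < 1 := by linarith [y.rb, y.a1]

theorem Sy.neg (y : Sy q a ρ J τ) {u w : ℝ} (hu : u ≤ 2 * a - 2) (hw : w ≤ 2 * a - 2) :
    q + u + w < 0 := by linarith [(ser_val y.hq y.a1).1]

theorem Sy.rng (y : Sy q a ρ J τ) {u : ℝ} (hu : |1 + u| ≤ ρ) : -2 ≤ u ∧ u ≤ 2 * a - 2 := by
  obtain ⟨h1, h2⟩ := abs_le.1 hu
  constructor <;> linarith [y.r1, y.rb]

/-- The range of all weights. -/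
theorem Sy.all (y : Sy q a ρ J τ) (h : Wt a s v) (hx : x ∉ s.A → x ∉ s.B → |1 + v x| ≤ ρ) :
    -2 ≤ v x ∧ v x ≤ 2 * a - 2 := by
  have := y.r0
  have := y.rb
  by_cases h1 : x ∈ s.A
  · rw [h.wa x h1]; constructor <;> linarith
  by_cases h2 : x ∈ s.B
  · rw [h.wb x h2]; constructor <;> linarith
  exact y.rng (hx h1 h2)

/-- The mixture used when an element of `B` is deleted. -/
theorem Sy.mix (y : Sy q a ρ J τ) :
    2 * a - 2 = (2 - 2 * a) / (1 + ρ) * (-1 - ρ) ∧ 0 < (2 - 2 * a) / (1 + ρ) ∧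
      1 - (2 - 2 * a) / (1 + ρ) = (ρ + (2 * a - 1)) / (1 + ρ) ∧
      0 < (ρ + (2 * a - 1)) / (1 + ρ) ∧ |1 + (-1 - ρ)| ≤ ρ := by
  have h0 := y.r0
  have h1 := y.rb
  have h2 := y.a1
  have h3 : 0 < 1 + ρ := by linarith
  refine ⟨by field_simp; ring, div_pos (by linarith) h3, by field_simp; ring,
    div_pos (by linarith) h3, ?_⟩
  rw [abs_le]; constructor <;> linarith

end weights

theorem psi_mono {m m' : ℕ} (h : m ≤ m') : psi m ≤ psi m' := by
  unfold psi
  have : (2 * m) ^ 2 ≤ (2 * m') ^ 2 := Nat.pow_le_pow_left (by omega) 2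
  omega

/-- A three-connected member of the class with four elements has rank at least three. -/
theorem rank3 {C X : KF → Finset ℕ → Prop} (hL : SG.CL C X) (hC : C k E) (tc : Tc k E)
    (h4 : 4 ≤ E.card) : k E + 3 ≤ k ∅ := by
  obtain ⟨f, hf⟩ : E.Nonempty := card_pos.1 (by omega)
  rcases hL k E ∅ {f} hC tc h4 (empty_subset _) (by simpa) (by simp) (by simp) (by simp) with
    ⟨a, ha, -⟩ | ⟨⟨e, -, E1, h⟩, -⟩ | ⟨h, -⟩
  · simp at ha
  · exact h.rk
  · simp at h

/-- The class lemma from its parts. -/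
theorem cl_of (h1 : S_SerAll) (h2 : S_Claw) (h3 : S_Dich) {C X : KF → Finset ℕ → Prop}
    (hL : SG.CL C X) (hQ : ∀ k E, C k E → Tc k E → Quad k E) : CL C := by
  intro s f hC w tc h4 hf ha hb hn
  have r3 := rank3 hL hC tc h4
  rcases h3 s f w tc h4 (hQ _ _ hC tc) hf ha hb hn with ⟨e, he, h⟩ | h
  · have hef : e ≠ f := fun hh => hb (hh ▸ he)
    obtain ⟨t, n, gd⟩ := h1 (s.del e) (w.del e) (tc_both w.isK tc h4 (w.sb he)).1
      (by
        have := (tc.1.single w.isK (w.sb he) hf hef).2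
        simp only [Sta.del]
        omega) h
    exact ⟨e, he, t, n, 0, zero_le_one, gd⟩
  · obtain ⟨e, he, t, gd⟩ := h2 s f w tc r3 hf ha hb h
    exact ⟨e, he, t, 1, 1, le_rfl, gd⟩

end Pool.Agent.P.MP_e0c037_lc.AR
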