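import Pool.Agent.P.MP_e0c037_lc.AR.Base
import Pool.Agent.P.MP_e0c037_lc.SG.BoundR

/-! The bound for the negative part on the two arcs. -/

namespace Pool.Agent.P.MP_e0c037_lc.AR

open Finset Function SG BD

namespace BndAux

open SG.BoundRAux (sum_mono sum_merge' pow_max)

/-- The data of one instance of the bound. -/
structure Dat (C : KF → Finset ℕ → Prop) (a ρ : ℝ) (J : ℕ) (τ : ℕ → ℝ) (s : Sta) (f : ℕ)
    (v : ℕ → ℝ) (gr : ℕ → ℕ) : Prop where
  c : C s.k s.E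
  wf : s.WF
  conn : Conn s.k s.E
  rd : s.Rd
  mem : f ∈ s.E
  nA : f ∉ s.A
  nB : f ∉ s.B
  two : 2 ≤ s.E.card
  w : Wt a s v
  vf : |1 + v f| ≤ ρ
  gA : ∀ x ∈ s.A, gr x = 0
  gB : ∀ x ∈ s.B, gr x = 1
  lv : ∀ x ∈ s.E, x ≠ f → x ∉ s.A → x ∉ s.B → 2 ≤ gr x ∧ gr x ≤ J ∧ |1 + v x| ≤ τ (gr x)

/-- The levels, overwritten on the special elements. -/
def lvl (s : Sta) (gr : ℕ → ℕ) : ℕ → ℕ :=
  fun x => if x ∈ s.A then 0 else if x ∈ s.B then 1 else gr x

variable {C : KF → Finset ℕ → Prop} {q a ρ : ℝ} {J : ℕ} {τ : ℕ → ℝ} {s t : Sta}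
  {E1 : Finset ℕ} {e f g x n c : ℕ} {v : ℕ → ℝ} {gr : ℕ → ℕ}

theorem lvl_A (hx : x ∈ s.A) : lvl s gr x = 0 := if_pos hx

theorem lvl_B (w : s.WF) (hx : x ∈ s.B) : lvl s gr x = 1 := by
  unfold lvl; rw [if_neg (disjoint_right.1 w.dj hx), if_pos hx]

theorem lvl_N (ha : x ∉ s.A) (hb : x ∉ s.B) : lvl s gr x = gr x := by
  unfold lvl; rw [if_neg ha, if_neg hb]

theorem Dat.chg (d : Dat C a ρ J τ s f v gr) (c : C t.k t.E) (wf : t.WF) (hc : Conn t.k t.E)
    (rd : t.Rd) (hf : f ∈ t.E) (h2 : 2 ≤ t.E.card) (hA : t.A ⊆ s.A) (hB : t.B ⊆ s.B)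
    (hN : ∀ x ∈ t.E, x ∉ t.A → x ∉ t.B → x ∈ s.E ∧ x ∉ s.A ∧ x ∉ s.B) :
    Dat C a ρ J τ t f v gr :=
  ⟨c, wf, hc, rd, hf, fun h => d.nA (hA h), fun h => d.nB (hB h), h2, d.w.mono hA hB, d.vf,
    fun x hx => d.gA x (hA hx), fun x hx => d.gB x (hB hx), fun x hx hxf h1 h2 =>
      d.lv x (hN x hx h1 h2).1 hxf (hN x hx h1 h2).2.1 (hN x hx h1 h2).2.2⟩

theorem Dat.rew (d : Dat C a ρ J τ s f v gr) (hx : x ≠ f) {w : ℝ} (n1 : 2 ≤ n)
    (nJ : n ≤ J) (hw : |1 + w| ≤ τ n) :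
    Dat C a ρ J τ (free s x) f (update v x w) (update gr x n) := by
  refine ⟨d.c, free_wf d.wf x, d.conn, free_rd d.rd x, d.mem, fun h => d.nA (mem_of_mem_erase h),
    fun h => d.nB (mem_of_mem_erase h), d.two, d.w.free x w,
    by rw [update_of_ne hx.symm]; exact d.vf, fun y hy => ?_, fun y hy => ?_,
    fun y hy hyf h1 h2 => ?_⟩
  · rw [update_of_ne (ne_of_mem_erase hy)]
    exact d.gA y (mem_of_mem_erase hy)
  · rw [update_of_ne (ne_of_mem_erase hy)]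
    exact d.gB y (mem_of_mem_erase hy)
  · by_cases hyx : y = x
    · rw [hyx, update_self, update_self]; exact ⟨n1, nJ, hw⟩
    · rw [update_of_ne hyx, update_of_ne hyx]
      exact d.lv y hy hyf (fun h => h1 (mem_erase.2 ⟨hyx, h⟩)) fun h => h2 (mem_erase.2 ⟨hyx, h⟩)

theorem Dat.toB (d : Dat C a ρ J τ s f v gr) (he : e ∈ s.A) (hg : g ∈ s.A)
    (h1 : NoSer s.k s.E e) (h2 : NoSer s.k s.E g) :
    Dat C a ρ J τ (toB s e g) f (update (update v e (2 * a - 2)) g (2 * a - 2))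
      (update (update gr e 1) g 1) := by
  have n1 : ∀ x, x ∉ s.A → x ≠ e := fun x hx hh => hx (hh ▸ he)
  have n2 : ∀ x, x ∉ s.A → x ≠ g := fun x hx hh => hx (hh ▸ hg)
  obtain ⟨f1, f2⟩ := (toB_ns he hg f).2 ⟨d.nA, d.nB⟩
  refine ⟨d.c, toB_wf d.wf he hg, d.conn, toB_rd d.wf d.rd he hg h1 h2, d.mem, f1, f2, d.two,
    d.w.toB e g, by rw [update_of_ne (n2 f d.nA), update_of_ne (n1 f d.nA)]; exact d.vf,
    fun x hx => ?_, fun x hx => ?_, fun x hx hxf h1 h2 => ?_⟩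
  · rw [update_of_ne (ne_of_mem_erase hx), update_of_ne (ne_of_mem_erase (mem_of_mem_erase hx))]
    exact d.gA x (mem_of_mem_erase (mem_of_mem_erase hx))
  · by_cases h1 : x = g
    · rw [h1, update_self]
    rw [update_of_ne h1]
    by_cases h2 : x = e
    · rw [h2, update_self]
    rw [update_of_ne h2]
    exact d.gB x ((mem_insert.1 ((mem_insert.1 hx).resolve_left h2)).resolve_left h1)
  · obtain ⟨x1, x2⟩ := (toB_ns he hg x).1 ⟨h1, h2⟩
    rw [update_of_ne (n2 x x1), update_of_ne (n1 x x1), update_of_ne (n2 x x1),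
      update_of_ne (n1 x x1)]
    exact d.lv x hx hxf x1 x2

theorem Dat.ctr (d : Dat C a ρ J τ s f v gr) (mc : Mc C) (c : Ctr s.k s.E s.A e E1) (hef : e ≠ f)
    (hb : e ∉ s.B) {T : Finset ℕ} (hk : Kp s.k s.E T e E1) (hT : s.B ⊆ T) :
    Dat C a ρ J τ (ctrS s e E1) f v gr :=
  d.chg (mc.del _ _ _ (mc.con _ _ _ d.c c.mem) c.subset) (ctrS_wf d.wf c hb) c.conn
    (ctrS_rd d.rd.2 c hk hT) (c.mem' d.mem hef.symm d.nA)
    (le_trans (by norm_num) (c.three d.wf.isK)) inter_subset_left Subset.rfl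
    fun x h0 h1 h2 => ((ctrS_ns c x).1 ⟨h0, h1, h2⟩).2

theorem Dat.mr (d : Dat C a ρ J τ s f v gr) (mc : Mc C) (hef : e ≠ f) (m : Mr (s.del e) t n c)
    (hc : Conn t.k t.E) (rd : t.Rd) (h2 : 2 ≤ t.E.card) :
    Dat C a ρ J τ t f (wt a t v) (lvl t gr) := by
  have wt' := m.wf (d.wf.del e)
  obtain ⟨f1, f2, f3⟩ := (m.ns f).2 ⟨mem_erase.2 ⟨hef.symm, d.mem⟩,
    fun h => d.nA (mem_of_mem_erase h), fun h => d.nB (mem_of_mem_erase h)⟩
  refine ⟨m.mc mc (d.wf.del e) (mc.del _ _ _ d.c (erase_subset _ _)), wt', hc, rd, f1, f2, f3, h2,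
    wt_Wt wt', by rw [wt_N f2 f3]; exact d.vf, fun _ => lvl_A, fun _ => lvl_B wt',
    fun x hx hxf h1 h2 => ?_⟩
  obtain ⟨x1, x2, x3⟩ := (m.ns x).1 ⟨hx, h1, h2⟩
  obtain ⟨x0, x1⟩ := mem_erase.1 x1
  rw [wt_N h1 h2, lvl_N h1 h2]
  exact d.lv x x1 hxf (fun h => x2 (mem_erase.2 ⟨x0, h⟩)) fun h => x3 (mem_erase.2 ⟨x0, h⟩)

theorem Dat.vB (d : Dat C a ρ J τ s f v gr) (sy : Sy q a ρ J τ) (hx : x ∈ s.E) (h1 : x ∉ s.A)
    (h2 : x ∉ s.B) : |1 + v x| ≤ ρ := by
  by_cases hxf : x = f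
  · rw [hxf]; exact d.vf
  · obtain ⟨a, b, c⟩ := d.lv x hx hxf h1 h2
    exact c.trans ((sy.tg _ a b).trans sy.tr.le)

theorem Dat.all (d : Dat C a ρ J τ s f v gr) (sy : Sy q a ρ J τ) (hx : x ∈ s.E) :
    -2 ≤ v x ∧ v x ≤ 2 * a - 2 := sy.all d.w (d.vB sy hx)

theorem Dat.pos (d : Dat C a ρ J τ s f v gr) (sy : Sy q a ρ J τ) (cp : ClaimP C q a ρ) :
    0 < al q s.k v s.E f ∧ |ga q s.k v s.E f| ≤ al q s.k v s.E f :=
  (cp s f v d.c d.wf d.conn d.rd d.mem d.nA d.nB d.two d.w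
    fun _ hx _ h1 h2 => d.vB sy hx h1 h2).imp_right And.left

theorem Dat.pos_rew (d : Dat C a ρ J τ s f v gr) (sy : Sy q a ρ J τ) (cp : ClaimP C q a ρ)
    {w : ℝ} (hw : |1 + w| ≤ ρ) : 0 < al q s.k (update v x w) s.E f := by
  refine (cp (free s x) f (update v x w) d.c (free_wf d.wf x) d.conn (free_rd d.rd x) d.mem
    (fun h => d.nA (mem_of_mem_erase h)) (fun h => d.nB (mem_of_mem_erase h)) d.two (d.w.free x w)
    fun y hy _ h1 h2 => ?_).1
  by_cases hyx : y = x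
  · rwa [hyx, update_self]
  · rw [update_of_ne hyx]
    exact d.vB sy hy (fun h => h1 (mem_erase.2 ⟨hyx, h⟩)) fun h => h2 (mem_erase.2 ⟨hyx, h⟩)

theorem Dat.other (d : Dat C a ρ J τ s f v gr) (sy : Sy q a ρ J τ) (cp : ClaimP C q a ρ)
    (he : e ∈ s.E) (hef : e ≠ f) :
    0 < al q s.k v s.E e ∧ |ga q s.k v s.E e| ≤ ρ * al q s.k v s.E e := by
  obtain ⟨h1, -, h2⟩ := cp (free s e) e v d.c (free_wf d.wf e) d.conn (free_rd d.rd e) he
    (notMem_erase _ _) (notMem_erase _ _) d.two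
    (d.w.mono (erase_subset _ _) (erase_subset _ _)) fun y hy hye h1 h2 =>
      d.vB sy hy (fun h => h1 (mem_erase.2 ⟨hye, h⟩)) fun h => h2 (mem_erase.2 ⟨hye, h⟩)
  exact ⟨h1, h2 (Or.inr ⟨f, d.mem, hef.symm, fun h => d.nA (mem_of_mem_erase h),
    fun h => d.nB (mem_of_mem_erase h)⟩)⟩

theorem Dat.lowA (d : Dat C a ρ J τ s f v gr) (hx : x ∈ s.E) (hxf : x ≠ f) (h : gr x ≤ 0) :
    x ∈ s.A := by
  by_contra h1
  by_cases h2 : x ∈ s.B
  · have := d.gB x h2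
    omega
  · have := (d.lv x hx hxf h1 h2).1
    omega

theorem Dat.lowB (d : Dat C a ρ J τ s f v gr) (hx : x ∈ s.E) (hxf : x ≠ f) (h : gr x ≤ 1)
    (h1 : x ∉ s.A) : x ∈ s.B := by
  by_contra h2
  have := (d.lv x hx hxf h1 h2).1
  omega

theorem Dat.par_w' (d : Dat C a ρ J τ s f v gr) (sy : Sy q a ρ J τ) (he : e ∈ s.E) (hg : g ∈ s.E)
    (hef : e ≠ f) (hgf : g ≠ f) (l1 : gr e < J) (h : gr g ≤ gr e) (n1 : ¬ (e ∈ s.A ∧ g ∈ s.A))
    (n2 : ¬ (e ∈ s.B ∧ g ∈ s.A)) :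
    ∃ n, 2 ≤ n ∧ n ≤ J ∧ |1 + v e| * |1 + v g| ≤ τ n ∧ 2 ^ gr e + 2 ^ gr g + 0 ≤ 2 ^ n + 1 := by
  have b0 : 0 ≤ 2 * a - 1 := by linarith [sy.r0, sy.rb]
  have hB : ∀ x ∈ s.B, |1 + v x| = 2 * a - 1 := fun x hx => by
    rw [d.w.wb x hx, ← abs_of_nonneg b0]; congr 1; ring
  have eA : e ∉ s.A := fun eA => n1 ⟨eA, d.lowA hg hgf (d.gA e eA ▸ h)⟩
  by_cases eB : e ∈ s.B
  · have gB := d.lowB hg hgf (d.gB e eB ▸ h) fun hh => n2 ⟨eB, hh⟩
    refine ⟨2, le_rfl, sy.J2, ?_, by rw [d.gB e eB, d.gB g gB]; norm_num⟩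
    rw [hB e eB, hB g gB, ← pow_two]
    exact sy.bb
  obtain ⟨a1, a2, a3⟩ := d.lv e he hef eA eB
  by_cases gA : g ∈ s.A
  · refine ⟨gr e, a1, a2, ?_, by rw [d.gA g gA]; omega⟩
    rw [d.w.wa g gA]; norm_num; exact a3
  have b3 : |1 + v g| ≤ 2 * a - 1 := by
    by_cases gB : g ∈ s.B
    · exact (hB g gB).le
    · exact (d.vB sy hg gA gB).trans sy.rb
  refine ⟨gr e + 1, by omega, l1, (mul_le_mul a3 b3 (abs_nonneg _)
    ((abs_nonneg _).trans a3)).trans (sy.gpar _ a1 l1), ?_⟩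
  have := pow_max (gr e) (gr g)
  rw [max_eq_left h] at this
  omega

theorem Dat.par_w (d : Dat C a ρ J τ s f v gr) (sy : Sy q a ρ J τ) (he : e ∈ s.E) (hg : g ∈ s.E)
    (hef : e ≠ f) (hgf : g ≠ f) (l1 : gr e < J) (l2 : gr g < J) (n1 : ¬ (e ∈ s.A ∧ g ∈ s.A))
    (n2 : ¬ (e ∈ s.B ∧ g ∈ s.A)) (n3 : ¬ (g ∈ s.B ∧ e ∈ s.A)) :
    ∃ n, 2 ≤ n ∧ n ≤ J ∧ |1 + (v e + v g + v e * v g)| ≤ τ n ∧
      2 ^ gr e + 2 ^ gr g + 0 ≤ 2 ^ n + 1 := by
  have e0 : 1 + (v e + v g + v e * v g) = (1 + v e) * (1 + v g) := by ring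
  rw [e0, abs_mul]
  rcases le_total (gr g) (gr e) with h | h
  · exact d.par_w' sy he hg hef hgf l1 h n1 n2
  · rw [mul_comm, add_comm (2 ^ gr e)]
    exact d.par_w' sy hg he hgf hef l2 h (fun hh => n1 hh.symm) n3

theorem Dat.ser_w' (d : Dat C a ρ J τ s f v gr) (sy : Sy q a ρ J τ) (he : e ∈ s.E) (hg : g ∈ s.E)
    (hef : e ≠ f) (hgf : g ≠ f) (l1 : gr e < J) (h : gr g ≤ gr e) (n1 : ¬ (e ∈ s.B ∧ g ∈ s.B)) :
    ∃ n, 2 ≤ n ∧ n ≤ J ∧ |1 + v e * v g / (q + v e + v g)| ≤ τ n ∧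
      2 ^ gr e + 2 ^ gr g + 1 ≤ 2 ^ n + 1 := by
  by_cases eA : e ∈ s.A
  · have gA := d.lowA hg hgf (d.gA e eA ▸ h)
    refine ⟨2, le_rfl, sy.J2, ?_, by rw [d.gA e eA, d.gA g gA]; norm_num⟩
    rw [d.w.wa e eA, d.w.wa g gA]
    exact sy.dd
  by_cases eB : e ∈ s.B
  · have gA : g ∈ s.A := by
      by_contra gA
      exact n1 ⟨eB, d.lowB hg hgf (d.gB e eB ▸ h) gA⟩
    refine ⟨2, le_rfl, sy.J2, ?_, by rw [d.gB e eB, d.gA g gA]; norm_num⟩
    rw [d.w.wb e eB, d.w.wa g gA, mul_comm, add_right_comm q]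
    exact sy.db
  obtain ⟨a1, a2, a3⟩ := d.lv e he hef eA eB
  refine ⟨gr e + 1, by omega, l1, sy.gser _ a1 l1 _ _ a3 (d.all sy hg).1 (d.all sy hg).2, ?_⟩
  have := pow_max (gr e) (gr g)
  rw [max_eq_left h] at this
  omega

theorem Dat.ser_w (d : Dat C a ρ J τ s f v gr) (sy : Sy q a ρ J τ) (he : e ∈ s.E) (hg : g ∈ s.E)
    (hef : e ≠ f) (hgf : g ≠ f) (l1 : gr e < J) (l2 : gr g < J) (n1 : ¬ (e ∈ s.B ∧ g ∈ s.B)) :
    ∃ n, 2 ≤ n ∧ n ≤ J ∧ |1 + v e * v g / (q + v e + v g)| ≤ τ n ∧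
      2 ^ gr e + 2 ^ gr g + 1 ≤ 2 ^ n + 1 := by
  rcases le_total (gr g) (gr e) with h | h
  · exact d.ser_w' sy he hg hef hgf l1 h n1
  · rw [mul_comm, add_right_comm q, add_comm (2 ^ gr e)]
    exact d.ser_w' sy hg he hgf hef l2 h fun hh => n1 hh.symm

/-- The potential after a good contraction. -/
theorem Dat.ctr_pot (d : Dat C a ρ J τ s f v gr) (c : Ctr s.k s.E s.A e E1) (hef : e ≠ f) :
    s.k ∅ + ∑ x ∈ s.E.erase f, (2 ^ gr x - 1) + con s.k e E1 ≤
      con s.k e ∅ + ∑ x ∈ E1.erase f, (2 ^ gr x - 1) + 2 ^ gr e + s.k s.E := by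
  obtain ⟨s1, -⟩ := d.conn.single d.wf.isK c.mem d.mem hef
  have h1 : ∑ x ∈ (s.E.erase f).erase e, (2 ^ gr x - 1) ≤ ∑ x ∈ E1.erase f, (2 ^ gr x - 1) := by
    refine sum_mono fun x hx => ?_
    obtain ⟨a, b⟩ := mem_erase.1 hx
    obtain ⟨b, b'⟩ := mem_erase.1 b
    by_cases hS : x ∈ s.A
    · exact Or.inl (d.gA x hS)
    · exact Or.inr ⟨mem_erase.2 ⟨b, c.mem' b' a hS⟩, le_rfl⟩
  have h2 := c.span
  have h3 : 0 < 2 ^ gr e := by positivity
  rw [← add_sum_erase _ _ (mem_erase.2 ⟨hef, c.mem⟩)]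
  unfold con
  rw [insert_empty_eq]
  omega

theorem Dat.pot_eq (d : Dat C a ρ J τ s f v gr) : ∑ x ∈ s.E.erase f, (2 ^ gr x - 1) =
    s.B.card + ∑ x ∈ (s.E \ (s.A ∪ s.B)).erase f, (2 ^ gr x - 1) := by
  have h1 : s.A ∪ s.B ⊆ s.E.erase f := union_subset
    (fun x hx => mem_erase.2 ⟨fun h => d.nA (h ▸ hx), d.wf.sa hx⟩)
    fun x hx => mem_erase.2 ⟨fun h => d.nB (h ▸ hx), d.wf.sb hx⟩
  rw [← sum_sdiff h1, sum_union d.wf.dj, erase_sdiff_comm, add_comm,
    sum_eq_zero fun x hx => by rw [d.gA x hx]; rfl,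
    sum_congr rfl (g := fun _ => 1) fun x hx => by rw [d.gB x hx]; rfl, zero_add, ← card_eq_sum_ones]

theorem ctr_lt (c : Ctr s.k s.E s.A e E1) :
    (ctrS s e E1).E.card + 2 * (ctrS s e E1).A.card + (ctrS s e E1).B.card <
      s.E.card + 2 * s.A.card + s.B.card := by
  have := SG.BoundRAux.card_ctr c Subset.rfl
  have := card_le_card (inter_subset_left : s.A ∩ E1 ⊆ s.A)
  simp only [ctrS]
  omega

theorem free_le (s : Sta) (e : ℕ) :
    (free s e).E.card + 2 * (free s e).A.card + (free s e).B.card ≤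
      s.E.card + 2 * s.A.card + s.B.card := by
  have := card_le_card (erase_subset e s.A)
  have := card_le_card (erase_subset e s.B)
  simp only [free]
  omega

theorem main (mc : Mc C) (st : Step C) (sy : Sy q a ρ J τ) (cp : ClaimP C q a ρ) (sz : Sz C)
    {θ : ℝ} (t1 : ρ ≤ θ) (t2 : 1 ≤ θ * (2 - a)) (t3 : 2 * a - 1 ≤ θ * ((ρ + (2 * a - 1)) / (1 + ρ)))
    {M : ℕ → ℕ} (hM : ∀ m, M (m + 1) = M m + 3 * psi (M m) + 2 ^ J + 13) (N : ℕ) :
    ∀ (s : Sta) f v gr m, Dat C a ρ J τ s f v gr → s.E.card + 2 * s.A.card + s.B.card = N →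
      M m + s.k s.E ≤ s.k ∅ + ∑ x ∈ s.E.erase f, (2 ^ gr x - 1) →
      -(sg s.k s.E * Zk q s.k v s.E) ≤ θ ^ m * al q s.k v s.E f := by
  have hk0 : (0 : ℝ) ≤ θ := sy.r0.le.trans t1
  have q1 : q ≠ 1 := sy.q1.ne
  have q2 : 0 < 1 - q := sub_pos.2 sy.q1
  induction N using Nat.strong_induction_on with
  | _ N ih0 =>
  intro s f v gr m d hN hm
  have ih : ∀ {s' : Sta} {v' gr'} (m' : ℕ), Dat C a ρ J τ s' f v' gr' →
      s'.E.card + 2 * s'.A.card + s'.B.card < s.E.card + 2 * s.A.card + s.B.card →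
      M m' + s'.k s'.E ≤ s'.k ∅ + ∑ x ∈ s'.E.erase f, (2 ^ gr' x - 1) →
      -(sg s'.k s'.E * Zk q s'.k v' s'.E) ≤ θ ^ m' * al q s'.k v' s'.E f :=
    fun m' d' hlt hm' => ih0 _ (hN ▸ hlt) _ _ _ _ m' d' rfl hm'
  clear ih0 hN
  have h := d.wf.isK
  have hf := d.mem
  obtain ⟨p1, p2⟩ := d.pos sy cp
  by_cases htop : ∃ e ∈ s.E, e ≠ f ∧ e ∉ s.A ∧ e ∉ s.B ∧ gr e = J
  · obtain ⟨e, he, hef, eA, eB, hJ⟩ := htop
    obtain ⟨a1, a2⟩ := d.other sy cp he hef
    have a3 := (d.lv e he hef eA eB).2.2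
    rw [hJ] at a3
    have a4 : |(1 + v e) * ga q s.k v s.E e| ≤ τ J * (ρ * al q s.k v s.E e) := by
      rw [abs_mul]
      exact mul_le_mul a3 a2 (abs_nonneg _) ((abs_nonneg _).trans a3)
    have a5 := mul_le_mul_of_nonneg_right sy.top a1.le
    have a6 := mul_nonneg (pow_nonneg hk0 m) p1.le
    have a7 := (abs_le.1 a4).2
    rw [Z_eq q1 he]
    linarith
  have hlt : ∀ e ∈ s.E, e ≠ f → gr e < J := fun e he hef => by
    have := sy.J2
    by_cases eA : e ∈ s.A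
    · rw [d.gA e eA]; omega
    by_cases eB : e ∈ s.B
    · rw [d.gB e eB]; omega
    exact lt_of_le_of_ne (d.lv e he hef eA eB).2.1 fun hh => htop ⟨e, he, hef, eA, eB, hh⟩
  rcases m with - | m
  · rw [Z_eq q1 hf, pow_zero, one_mul]
    have a0 := mul_pos q2 p1
    have a3 : |(1 + v f) * ga q s.k v s.E f| ≤ 1 * al q s.k v s.E f := by
      rw [abs_mul]
      exact mul_le_mul (d.vf.trans sy.r1.le) p2 (abs_nonneg _) zero_le_one
    have := (abs_le.1 a3).2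
    linarith
  have hm1 := hM m
  have hp := pow_nonneg hk0 m
  by_cases h3 : s.E.card < 3
  · exfalso
    obtain ⟨e, hef, hE⟩ := card_two hf (by have := d.two; omega)
    have he : e ∈ s.E := by rw [hE]; simp
    have e1 : s.E.erase f = {e} := by
      rw [hE, pair_comm, erase_insert (by simpa using hef.symm)]
    obtain ⟨s1, -⟩ := d.conn.single h he hf hef
    obtain ⟨-, s2⟩ := d.conn.single h hf he hef.symm
    rw [e1] at s2
    rw [e1, sum_singleton] at hm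
    have := Nat.pow_lt_pow_right (by norm_num : 1 < 2) (hlt e he hef)
    have : 0 < 2 ^ gr e := by positivity
    omega
  replace h3 : 3 ≤ s.E.card := by omega
  have delB : ∀ e ∈ s.B, ∀ t n c, c ≤ 2 → Mr (s.del e) t n c → Conn t.k t.E → t.Rd →
      t.k t.E = (s.del e).k (s.del e).E → 2 ≤ t.E.card →
      -(sg s.k s.E * Zk q s.k v s.E) ≤ θ ^ (m + 1) * al q s.k v s.E f := by
    intro e eB t n c c2 mr hc rd sp h2
    have he := d.wf.sb eB
    have hef : e ≠ f := fun hh => d.nB (hh ▸ eB)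
    obtain ⟨s1, s2⟩ := d.conn.single h he hf hef
    have d' := d.mr mc hef mr hc rd h2
    obtain ⟨z1, z2, z3, z4⟩ := mr.size (d.wf.del e)
    have z5 := card_erase_add_one eB
    have z6 := card_erase_add_one he
    have z7 := card_le_card (erase_subset e s.A)
    simp only [Sta.del] at z1 z2 z3 z4 sp
    have b := ih m d' (by omega) (by
      by_cases hr : M m ≤ t.k ∅ - t.k t.E
      · have := d'.wf.isK.anti (empty_subset t.E)
        omega
      have a1 := (sz _ _ _ d'.c hc d'.wf.sa rd.1).trans (psi_mono (not_le.1 hr).le)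
      have a2 : ∑ x ∈ (s.E \ (s.A ∪ s.B)).erase f, (2 ^ gr x - 1) ≤
          ∑ x ∈ (t.E \ (t.A ∪ t.B)).erase f, (2 ^ lvl t gr x - 1) := sum_mono fun x hx => by
        simp only [mem_erase, mem_sdiff, mem_union, not_or] at hx ⊢
        obtain ⟨x1, x2, x3⟩ := (mr.ns x).2 ⟨mem_erase.2 ⟨fun hh => hx.2.2.2 (hh ▸ eB), hx.2.1⟩,
          fun hh => hx.2.2.1 (mem_of_mem_erase hh), fun hh => hx.2.2.2 (mem_of_mem_erase hh)⟩
        exact Or.inr ⟨⟨hx.1, x1, x2, x3⟩, (lvl_N x2 x3).ge⟩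
      rw [d.pot_eq] at hm
      rw [d'.pot_eq]
      have : 0 < 2 ^ J := by positivity
      omega)
    obtain ⟨δ, δ0, r1, -, r2⟩ := mr.scale sy.hq sy.a1 (d.wf.del e) sp (d.w.del e)
      (mem_erase.2 ⟨hef.symm, hf⟩) (fun hh => d.nA (mem_of_mem_erase hh))
      fun hh => d.nB (mem_of_mem_erase hh)
    simp only [Sta.del] at r1 r2
    rw [sg_del s2] at r2
    obtain ⟨m1, m2, m3, m4, m5⟩ := sy.mix
    obtain ⟨a1, -⟩ := al_mix (q := q) he hef s1 s2 ((d.w.wb e eB).trans m1)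
    have p3 := mul_pos m2 (d.pos_rew (x := e) sy cp m5)
    have p4 : 0 < al q s.k v (s.E.erase e) f := r1 ▸ mul_pos δ0 (d'.pos sy cp).1
    have p5 := mul_pos q2 (d.other sy cp he hef).1
    have b0 : 0 ≤ 2 * a - 1 := by linarith [sy.r0, sy.rb]
    have b1 : -(sg s.k s.E * Zk q s.k v (s.E.erase e)) ≤ θ ^ m * al q s.k v (s.E.erase e) f := by
      rw [r1, r2]
      have := mul_le_mul_of_nonneg_left b δ0.le
      linarith
    have f1 : -(sg s.k s.E * Zk q s.k v s.E) ≤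
        (2 * a - 1) * -(sg s.k s.E * Zk q s.k v (s.E.erase e)) := by
      rw [Z_del q1 he, d.w.wb e eB]
      nlinarith [mul_pos (sub_pos.2 sy.a1) p5]
    rw [m3] at a1
    calc _ ≤ _ := f1
      _ ≤ (2 * a - 1) * (θ ^ m * al q s.k v (s.E.erase e) f) := mul_le_mul_of_nonneg_left b1 b0
      _ ≤ θ * ((ρ + (2 * a - 1)) / (1 + ρ)) * (θ ^ m * al q s.k v (s.E.erase e) f) :=
        mul_le_mul_of_nonneg_right t3 (mul_nonneg hp p4.le)
      _ = θ ^ (m + 1) * ((ρ + (2 * a - 1)) / (1 + ρ) * al q s.k v (s.E.erase e) f) := by ring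
      _ ≤ _ := mul_le_mul_of_nonneg_left (by linarith) (pow_nonneg hk0 _)
  have delP : ∀ e ∈ s.B, ∀ g ∈ s.A, Par s.k g e →
      -(sg s.k s.E * Zk q s.k v s.E) ≤ θ ^ (m + 1) * al q s.k v s.E f := fun e eB g gA p => by
    have hge : g ≠ e := fun hh => disjoint_left.1 d.wf.dj gA (hh ▸ eB)
    exact delB e eB _ 0 0 (by norm_num) (.refl _)
      (conn_par h d.conn (d.wf.sa gA) (d.wf.sb eB) hge p.2.2)
      (del_rd d.wf d.rd (d.wf.sa gA) hge p (disjoint_left.1 d.wf.dj gA)) rfl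
      (by have := card_erase_add_one (d.wf.sb eB); simp only [Sta.del]; omega)
  rcases st s f d.c d.wf d.conn d.rd hf d.nA d.nB h3 with
    ⟨e, he, g, hg, heg, hef, hgf, p | p⟩ | ⟨e, eB, t, n, c, c2, gd⟩ |
    ⟨e, he, hef, eB, c1, rs, ⟨E1, c, kp⟩, -⟩ |
    ⟨e, he, g, hg, heg, o1, o2, ⟨E1, c1, k1⟩, E2, c2, k2⟩
  · by_cases n2 : e ∈ s.B ∧ g ∈ s.A
    · exact delP e n2.1 g n2.2 p.symm
    by_cases n3 : g ∈ s.B ∧ e ∈ s.A
    · exact delP g n3.1 e n3.2 p
    obtain ⟨n, n1, nJ, hw, hn⟩ := d.par_w sy he hg hef hgf (hlt e he hef) (hlt g hg hgf)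
      (fun hh => d.rd.1 e hh.1 g hh.2 heg p) n2 n3
    obtain ⟨c1, c2, a1, a2⟩ := al_par (q := q) (v := v) h d.conn he hg heg hef hgf p.2.2
    have z := card_erase_add_one hg
    have d' := (d.rew hef n1 nJ hw).chg (t := parS s e g) (mc.del _ _ _ d.c (erase_subset _ _))
      (parS_wf d.wf e g) c1 (parS_rd d.wf d.rd he heg p) (mem_erase.2 ⟨hgf.symm, hf⟩)
      (by simp only [parS]; omega) (erase_subset_erase _ (erase_subset _ _))
      (erase_subset_erase _ (erase_subset _ _))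
      fun x => by simp only [parS, free, mem_erase]; tauto
    have b := ih (m + 1) d' (by
      have := card_le_card ((erase_subset e (s.A.erase g)).trans (erase_subset g s.A))
      have := card_le_card ((erase_subset e (s.B.erase g)).trans (erase_subset g s.B))
      simp only [parS]
      omega) (by have := sum_merge' he hg heg hef hgf hn; simp only [parS]; omega)
    rw [Z_eq q1 d'.mem, update_of_ne hef.symm] at b
    rw [Z_eq q1 hf, a1, a2]
    exact b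
  · obtain ⟨n, n1, nJ, hw, hn⟩ := d.ser_w sy he hg hef hgf (hlt e he hef) (hlt g hg hgf)
      fun hh => d.rd.2 e hh.1 g hh.2 heg p
    have t1 := sy.neg (d.all sy he).2 (d.all sy hg).2
    obtain ⟨a1, a2⟩ := al_ser (q := q) (v := v) h d.conn hf he hg heg hef hgf p.2.2 t1.ne
    obtain ⟨s1, -⟩ := d.conn.single h hg hf hgf
    have z := card_erase_add_one hg
    have d' := (d.rew hef n1 nJ hw).chg (t := serS s e g) (mc.con _ _ _ d.c hg)
      (serS_wf d.wf e g) (conn_ser h d.conn he hg heg p.2.2) (serS_rd d.wf d.rd d.conn he hg heg p)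
      (mem_erase.2 ⟨hgf.symm, hf⟩) (by simp only [serS]; omega)
      (erase_subset_erase _ (erase_subset _ _)) (erase_subset_erase _ (erase_subset _ _))
      fun x => by simp only [serS, free, mem_erase]; tauto
    have b := ih (m + 1) d' (by
      have := card_le_card ((erase_subset e (s.A.erase g)).trans (erase_subset g s.A))
      have := card_le_card ((erase_subset e (s.B.erase g)).trans (erase_subset g s.B))
      simp only [serS]
      omega) (by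
      have := sum_merge' he hg heg hef hgf hn
      simp only [serS, con]
      rw [insert_erase hg, insert_empty_eq]
      omega)
    rw [Z_eq q1 d'.mem, update_of_ne hef.symm] at b
    have := mul_le_mul_of_nonneg_left b (by linarith : 0 ≤ -(q + v e + v g))
    simp only [serS] at this
    rw [Z_eq q1 hf, a1, a2]
    linarith
  · exact delB e eB t n c c2 gd.mr gd.conn gd.rd gd.span
      (le_trans (by norm_num) (gd.three (d.wf.del e)))
  · obtain ⟨s1, s2⟩ := d.conn.single h he hf hef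
    have l1 := Nat.pow_lt_pow_right (by norm_num : 1 < 2) (hlt e he hef)
    have hv : ∀ x ∈ s.A, x ≠ e → v x = -2 := fun x hx _ => d.w.wa x hx
    have d2 := d.ctr mc c hef eB kp (subset_insert _ _)
    have p5 : 0 < al q (con s.k e) v E1 f := (d2.pos sy cp).1
    obtain ⟨p6, -⟩ := d.other sy cp he hef
    obtain ⟨r1, -⟩ := c.al_eq (q := q) h d.nA hv
    have a0 := mul_pos q2 p6
    rcases le_or_gt 0 (1 + v e) with hy | hy
    · have eA : e ∉ s.A := fun hh => by rw [d.w.wa e hh] at hy; norm_num at hy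
      have v2 := (abs_le.1 (d.vB sy he eA eB)).2
      have hneg : 0 < -v e := by have := sy.r1; linarith
      have z := card_erase_add_one he
      have d1 := d.chg (t := s.del e) (mc.del _ _ _ d.c (erase_subset _ _)) (d.wf.del e) c1
        ⟨d.rd.1.mono (erase_subset _ _), rs.mono (erase_subset _ _)⟩ (mem_erase.2 ⟨hef.symm, hf⟩)
        (by simp only [Sta.del]; omega) (erase_subset _ _) (erase_subset _ _)
        fun x => by simp only [Sta.del, mem_erase]; tauto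
      have p4 : 0 < al q s.k v (s.E.erase e) f := (d1.pos sy cp).1
      obtain ⟨a1, -⟩ := al_dc (q := q) (v := v) he hef s1 s2
      have b1 := ih m d1 (by
        have := card_le_card (erase_subset e s.A)
        have := card_le_card (erase_subset e s.B)
        simp only [Sta.del]
        omega) (by
        rw [← add_sum_erase _ _ (mem_erase.2 ⟨hef, he⟩), erase_right_comm] at hm
        have : 0 < 2 ^ gr e := by positivity
        simp only [Sta.del]
        omega)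
      simp only [Sta.del] at b1
      rw [sg_del s2] at b1
      have f1 : -(sg s.k s.E * Zk q s.k v s.E) ≤
          (1 + v e) * -(sg s.k s.E * Zk q s.k v (s.E.erase e)) := by
        rw [Z_del q1 he]; nlinarith [mul_pos hneg a0]
      have f2 : al q s.k v (s.E.erase e) f ≤ al q s.k v s.E f := by
        rw [a1, r1]; nlinarith [mul_pos hneg p5]
      calc _ ≤ _ := f1
        _ ≤ (1 + v e) * (θ ^ m * al q s.k v (s.E.erase e) f) := mul_le_mul_of_nonneg_left b1 hy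
        _ ≤ θ * (θ ^ m * al q s.k v s.E f) :=
          mul_le_mul (v2.trans t1) (mul_le_mul_of_nonneg_left f2 hp) (mul_nonneg hp p4.le) hk0
        _ = _ := by ring
    · have v1 := (d.all sy he).1
      have p4 := d.pos_rew (x := e) sy cp (sy.wa.1.trans sy.tr.le)
      obtain ⟨a1, -⟩ := al_rew (q := q) (v := v) he hef s1 s2 (-a)
      have b2 := ih m d2 (ctr_lt c) (by
        have := d.ctr_pot c hef
        simp only [ctrS]
        omega)
      simp only [ctrS] at b2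
      rw [c.sg_eq, ← c.Z_eq h hv, sg_con he s1] at b2
      have f1 : -(sg s.k s.E * Zk q s.k v s.E) ≤
          -(1 + v e) * -(-sg s.k s.E * Zk q (con s.k e) v (s.E.erase e)) := by
        rw [Z_con q1 he]; nlinarith
      have f3 : (2 - a) * (-(1 + v e) * al q (con s.k e) v E1 f) ≤ al q s.k v s.E f := by
        rw [a1, r1]
        nlinarith [mul_nonneg (mul_nonneg (by linarith : 0 ≤ 2 + v e) (sub_pos.2 sy.a1).le) p5.le]
      have f2 : -(1 + v e) * al q (con s.k e) v E1 f ≤ θ * al q s.k v s.E f := by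
        have b3 := mul_le_mul_of_nonneg_left f3 hk0
        have b4 := mul_le_mul_of_nonneg_right t2 (mul_nonneg (by linarith : 0 ≤ -(1 + v e)) p5.le)
        linarith
      calc _ ≤ _ := f1
        _ ≤ -(1 + v e) * (θ ^ m * al q (con s.k e) v E1 f) :=
          mul_le_mul_of_nonneg_left b2 (by linarith)
        _ = θ ^ m * (-(1 + v e) * al q (con s.k e) v E1 f) := by ring
        _ ≤ θ ^ m * (θ * al q s.k v s.E f) := mul_le_mul_of_nonneg_left f2 hp
        _ = _ := by ring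
  · have hef : e ≠ f := fun hh => d.nA (hh ▸ he)
    have hgf : g ≠ f := fun hh => d.nA (hh ▸ hg)
    obtain ⟨s1, -⟩ := d.conn.single h c1.mem hf hef
    obtain ⟨s2, -⟩ := d.conn.single h c2.mem hf hgf
    have key : ∀ {e g E1}, e ∈ s.A → g ∈ s.A → e ≠ g → Ctr s.k s.E (s.A.erase g) e E1 →
        Kp s.k s.E (insert f s.B) e E1 →
        -(sg (con s.k e) (s.E.erase e) * Zk q (con s.k e) (update v g (a - 2)) (s.E.erase e)) ≤
          θ ^ (m + 1) * al q (con s.k e) (update v g (a - 2)) (s.E.erase e) f := by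
      intro e g E1 he hg heg c kp
      have hef : e ≠ f := fun hh => d.nA (hh ▸ he)
      have hgf : g ≠ f := fun hh => d.nA (hh ▸ hg)
      have d1 := d.rew hgf le_rfl sy.J2 sy.wa.2
      have hv : ∀ x ∈ s.A.erase g, x ≠ e → update v g (a - 2) x = -2 := fun x hx _ => d1.w.wa x hx
      have g' : g ∈ s.E.erase f := mem_erase.2 ⟨hgf, d.wf.sa hg⟩
      have b := ih (m + 1) (d1.ctr mc c hef
        (fun hh => disjoint_left.1 d.wf.dj he (mem_of_mem_erase hh)) kp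
        ((erase_subset _ _).trans (subset_insert _ _)))
        ((ctr_lt (s := free s g) c).trans_le (free_le s g)) (by
        have a1 := d1.ctr_pot c hef
        have a2 : ∑ x ∈ (s.E.erase f).erase g, (2 ^ gr x - 1) ≤
            ∑ x ∈ (s.E.erase f).erase g, (2 ^ update gr g 2 x - 1) :=
          sum_mono fun x hx => Or.inr ⟨hx, by rw [update_of_ne (ne_of_mem_erase hx)]⟩
        simp only [free] at a1
        rw [← add_sum_erase _ _ g', update_self, update_of_ne heg, d.gA e he] at a1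
        rw [← add_sum_erase _ _ g', d.gA g hg] at hm
        simp only [ctrS, free]
        omega)
      simp only [ctrS, free] at b
      rwa [c.sg_eq, ← c.Z_eq h hv, ← (c.al_eq h d1.nA hv).1] at b
    have b1 := key he hg heg c1 k1
    have b2 := key hg he heg.symm c2 k2
    have b0 := ih (m + 1) (d.toB he hg o1 o2) (by
        have := toB_card d.wf he hg heg
        have e0 : (toB s e g).E = s.E := rfl
        rw [e0]
        omega) (hm.trans (Nat.add_le_add_left (sum_mono fun x hx => by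
          by_cases xS : x ∈ s.A
          · exact Or.inl (d.gA x xS)
          · refine Or.inr ⟨hx, ?_⟩
            rw [update_of_ne (ne_of_mem_of_not_mem hg xS).symm,
              update_of_ne (ne_of_mem_of_not_mem he xS).symm]) _))
    simp only [toB] at b0
    have a0 : 0 ≤ 2 * a := by linarith [sy.a0]
    have b3 := mul_le_mul_of_nonneg_left b1 a0
    have b4 := mul_le_mul_of_nonneg_left b2 a0
    rw [sgZ_two' c1.mem c2.mem heg s1 s2 (d.w.wa e he) (d.w.wa g hg) a,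
      (al_two' c1.mem c2.mem heg hef hgf s1 s2 (d.w.wa e he) (d.w.wa g hg) a).1]
    linarith

/-- The thresholds. -/
def thr (J : ℕ) : ℕ → ℕ
  | 0 => 0
  | m + 1 => thr J m + 3 * psi (thr J m) + 2 ^ J + 13

end BndAux

open BndAux in
theorem p_Bnd : S_Bnd := by
  intro C q a ρ J τ mc st sy cp sz η hη
  obtain ⟨-, -, -, m4, -⟩ := sy.mix
  have r0 := sy.r0
  have a1 := sy.a1
  have h1 : (2 * a - 1) / ((ρ + (2 * a - 1)) / (1 + ρ)) < 1 := by
    rw [div_lt_one m4, lt_div_iff₀ (by linarith)]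
    nlinarith
  have h0 : 0 < 2 - a := by linarith
  obtain ⟨m, hm⟩ := exists_pow_lt_of_lt_one hη
    (max_lt (max_lt sy.r1 ((div_lt_one h0).2 (by linarith : 1 < 2 - a))) h1)
  refine ⟨thr J m, fun s f v c w hc rd hf nA nB h2 wt vf lv hM => ?_⟩
  have d : Dat C a ρ J τ s f v (lvl s fun _ => 2) :=
    ⟨c, w, hc, rd, hf, nA, nB, h2, wt, vf, fun _ => lvl_A, fun _ => lvl_B w, fun x hx hxf h1 h2 => by
      rw [lvl_N h1 h2]; exact ⟨le_rfl, sy.J2, lv x hx hxf h1 h2⟩⟩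
  refine (main mc st sy cp sz ((le_max_left _ _).trans (le_max_left _ _))
    ((div_le_iff₀ h0).1 ((le_max_right _ _).trans (le_max_left _ _))) ((div_le_iff₀ m4).1 (le_max_right _ _))
    (M := thr J) (fun _ => rfl) _ s f v _ m d rfl (by rw [d.pot_eq]; omega)).trans
    (mul_le_mul_of_nonneg_right hm.le (d.pos sy cp).1.le)

end Pool.Agent.P.MP_e0c037_lc.AR
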