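import Pool.Agent.P.MP_e0c037_lc.AR.Base

/-! Positivity of `al` and the range of the effective weight on the arcs. -/

namespace Pool.Agent.P.MP_e0c037_lc.AR

open Finset Function SG BD

namespace ClaimP

/-- The conclusion for a pair of numbers. -/
def Ok (B a g : ℝ) : Prop := 0 < a ∧ |g| ≤ B * a

theorem Ok.add {B a g a' g' : ℝ} (h : Ok B a g) (h' : Ok B a' g') : Ok B (a + a') (g + g') := by
  refine ⟨add_pos h.1 h'.1, (abs_add_le _ _).trans ?_⟩
  linarith [h.2, h'.2]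

theorem Ok.smul {B a g c : ℝ} (h : Ok B a g) (hc : 0 < c) : Ok B (c * a) (c * g) := by
  refine ⟨mul_pos hc h.1, ?_⟩
  rw [abs_mul, abs_of_pos hc]
  have := mul_le_mul_of_nonneg_left h.2 hc.le
  linarith

theorem Ok.mono {B B' a g : ℝ} (h : Ok B a g) (hB : B ≤ B') : Ok B' a g :=
  ⟨h.1, h.2.trans (mul_le_mul_of_nonneg_right hB h.1.le)⟩

/-- The bound for the weights that are not special. -/
def Nb (ρ : ℝ) (s : Sta) (f : ℕ) (v : ℕ → ℝ) : Prop :=
  ∀ x ∈ s.E, x ≠ f → x ∉ s.A → x ∉ s.B → |1 + v x| ≤ ρ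

/-- The premise of the strong bound. -/
def St (s : Sta) (f : ℕ) : Prop :=
  s.k s.E + 2 ≤ s.k ∅ ∨ ∃ x ∈ s.E, x ≠ f ∧ x ∉ s.A ∧ x ∉ s.B

/-- The claim for all data of size below `n`. -/
def Below (C : KF → Finset ℕ → Prop) (q a ρ : ℝ) (n : ℕ) : Prop :=
  ∀ (s : Sta) f (v : ℕ → ℝ), s.E.card + 2 * s.A.card + s.B.card < n → C s.k s.E → s.WF →
    Conn s.k s.E → s.Rd → f ∈ s.E → f ∉ s.A → f ∉ s.B → 2 ≤ s.E.card → Wt a s v → Nb ρ s f v →
    Ok 1 (al q s.k v s.E f) (ga q s.k v s.E f) ∧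
      (St s f → Ok ρ (al q s.k v s.E f) (ga q s.k v s.E f))

variable {C : KF → Finset ℕ → Prop} {q a ρ : ℝ} {n J : ℕ} {s t : Sta} {E1 T : Finset ℕ}
  {e f g : ℕ} {v τ : ℕ → ℝ}

theorem Nb.upd (h : Nb ρ s f v) {w : ℝ} (hw : |1 + w| ≤ ρ)
    (ht : ∀ x ∈ t.E, x ≠ e → x ∉ t.A → x ∉ t.B → x ∈ s.E ∧ x ∉ s.A ∧ x ∉ s.B) :
    Nb ρ t f (update v e w) := fun x hx hxf ha hb => by
  by_cases hxe : x = e
  · rwa [hxe, update_self]
  · rw [update_of_ne hxe]
    obtain ⟨h1, h2, h3⟩ := ht x hx hxe ha hb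
    exact h x h1 hxf h2 h3

theorem Nb.free (h : Nb ρ s f v) {w : ℝ} (hw : |1 + w| ≤ ρ) (e : ℕ) :
    Nb ρ (free s e) f (update v e w) :=
  h.upd hw fun _ hx hxe ha hb =>
    ⟨hx, fun hh => ha (mem_erase.2 ⟨hxe, hh⟩), fun hh => hb (mem_erase.2 ⟨hxe, hh⟩)⟩

theorem Nb.del (h : Nb ρ s f v) (e : ℕ) : Nb ρ (s.del e) f v := fun x hx hxf ha hb =>
  h x (mem_of_mem_erase hx) hxf (fun hh => ha (mem_erase.2 ⟨ne_of_mem_erase hx, hh⟩))
    fun hh => hb (mem_erase.2 ⟨ne_of_mem_erase hx, hh⟩)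

theorem Nb.parS (h : Nb ρ s f v) {w : ℝ} (hw : |1 + w| ≤ ρ) (e g : ℕ) :
    Nb ρ (parS s e g) f (update v e w) := (h.del g).free hw e

/-- A special element is set free. -/
theorem fr (ih : Below C q a ρ n) (hn : s.E.card + 2 * s.A.card + s.B.card ≤ n) (hC : C s.k s.E)
    (w : s.WF) (hc : Conn s.k s.E) (r : s.Rd) (hf : f ∈ s.E) (ha : f ∉ s.A) (hb : f ∉ s.B)
    (h2 : 2 ≤ s.E.card) (hv : Wt a s v) (hw : Nb ρ s f v) (he : e ∈ s.A ∨ e ∈ s.B) {u : ℝ}
    (hu : |1 + u| ≤ ρ) :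
    Ok ρ (al q s.k (update v e u) s.E f) (ga q s.k (update v e u) s.E f) := by
  have n1 := card_erase_le (s := s.A) (a := e)
  have n2 := card_erase_le (s := s.B) (a := e)
  have hlt : s.E.card + 2 * (s.A.erase e).card + (s.B.erase e).card < n := by
    rcases he with he | he <;> have := card_erase_lt_of_mem he <;> omega
  exact (ih (free s e) f _ hlt hC (free_wf w e) hc (free_rd r e) hf
    (fun hh => ha (mem_of_mem_erase hh)) (fun hh => hb (mem_of_mem_erase hh)) h2 (hv.free e u)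
    (hw.free hu e)).2 (Or.inr ⟨e, he.elim (fun h => w.sa h) fun h => w.sb h,
      fun hh => he.elim (fun h => ha (hh ▸ h)) fun h => hb (hh ▸ h), notMem_erase _ _,
      notMem_erase _ _⟩)

theorem ctr (hM : Mc C) (ih : Below C q a ρ n) (hn : s.E.card + 2 * s.A.card + s.B.card ≤ n)
    (hC : C s.k s.E) (w : s.WF) (r : s.Rd) (hf : f ∈ s.E) (ha : f ∉ s.A) (hb : f ∉ s.B)
    (hv : Wt a s v) (hw : Nb ρ s f v) (c : Ctr s.k s.E s.A e E1) (hk : Kp s.k s.E T e E1)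
    (hT : s.B ⊆ T) (hef : e ≠ f) (heB : e ∉ s.B) :
    Ok ρ (al q (con s.k e) v (s.E.erase e) f) (ga q (con s.k e) v (s.E.erase e) f) := by
  obtain ⟨a1, a2⟩ := c.al_eq (q := q) w.isK ha fun x hx _ => hv.wa x hx
  have h3 := c.three w.isK
  have c1 := card_le_card c.subset
  have c2 := card_erase_lt_of_mem c.mem
  have c3 := card_le_card (inter_subset_left : s.A ∩ E1 ⊆ s.A)
  obtain ⟨f1, f2, f3⟩ := (ctrS_ns c f).2 ⟨hef.symm, hf, ha, hb⟩
  rw [a1, a2]
  refine (ih (ctrS s e E1) f v (by simp only [ctrS]; omega)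
    (hM.del _ _ _ (hM.con _ _ e hC c.mem) c.subset) (ctrS_wf w c heB) c.conn
    (ctrS_rd r.2 c hk hT) f1 f2 f3 (by simp only [ctrS]; omega) (hv.ctrS e E1)
    fun x hx hxf h1 h2 => ?_).2 (Or.inl (ctrS_rk w c).2.2)
  obtain ⟨-, b1, b2, b3⟩ := (ctrS_ns c x).1 ⟨hx, h1, h2⟩
  exact hw x b1 hxf b2 b3

theorem par_val (y : Sy q a ρ J τ) (hv : Wt a s v) (hw : Nb ρ s f v) (he : e ∈ s.E)
    (hg : g ∈ s.E) (hef : e ≠ f) (hgf : g ≠ f) (h1 : ¬ (e ∈ s.A ∧ g ∈ s.A))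
    (h2 : ¬ (e ∈ s.A ∧ g ∈ s.B)) (h3 : ¬ (e ∈ s.B ∧ g ∈ s.A)) :
    |1 + (v e + v g + v e * v g)| ≤ ρ := by
  have r0 := y.r0
  have hall : ∀ x ∈ s.E, x ≠ f → |1 + v x| ≤ 1 := fun x hx hxf => by
    obtain ⟨b1, b2⟩ := y.all hv (hw x hx hxf)
    rw [abs_le]
    constructor <;> linarith [y.a1]
  rw [show 1 + (v e + v g + v e * v g) = (1 + v e) * (1 + v g) by ring]
  by_cases he' : e ∉ s.A ∧ e ∉ s.B
  · rw [abs_mul]
    nlinarith [hw e he hef he'.1 he'.2, hall g hg hgf, abs_nonneg (1 + v e), abs_nonneg (1 + v g)]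
  by_cases hg' : g ∉ s.A ∧ g ∉ s.B
  · rw [abs_mul]
    nlinarith [hw g hg hgf hg'.1 hg'.2, hall e he hef, abs_nonneg (1 + v e), abs_nonneg (1 + v g)]
  have b1 : e ∈ s.B := by tauto
  have b2 : g ∈ s.B := by tauto
  rw [hv.wb e b1, hv.wb g b2, show (1 + (2 * a - 2)) * (1 + (2 * a - 2)) = (2 * a - 1) ^ 2 by ring,
    abs_of_nonneg (sq_nonneg _)]
  exact y.bb.trans y.tr.le

theorem ser_val' (y : Sy q a ρ J τ) (hv : Wt a s v) (hw : Nb ρ s f v) (he : e ∈ s.E)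
    (hg : g ∈ s.E) (hef : e ≠ f) (hgf : g ≠ f) (h1 : ¬ (e ∈ s.B ∧ g ∈ s.B)) :
    |1 + v e * v g / (q + v e + v g)| ≤ ρ := by
  obtain ⟨e1, e2⟩ := y.all hv (hw e he hef)
  obtain ⟨g1, g2⟩ := y.all hv (hw g hg hgf)
  by_cases he' : e ∉ s.A ∧ e ∉ s.B
  · exact y.ser _ _ (hw e he hef he'.1 he'.2) g1 g2
  by_cases hg' : g ∉ s.A ∧ g ∉ s.B
  · rw [mul_comm, add_right_comm]
    exact y.ser _ _ (hw g hg hgf hg'.1 hg'.2) e1 e2
  by_cases ea : e ∈ s.A <;> by_cases ga : g ∈ s.A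
  · rw [hv.wa e ea, hv.wa g ga]
    exact y.dd.trans y.tr.le
  · rw [hv.wa e ea, hv.wb g (by tauto)]
    exact y.db.trans y.tr.le
  · rw [mul_comm, add_right_comm, hv.wa g ga, hv.wb e (by tauto)]
    exact y.db.trans y.tr.le
  · tauto

theorem below (hM : Mc C) (hSt : Step C) (y : Sy q a ρ J τ) (n : ℕ) : Below C q a ρ n := by
  induction n with
  | zero => intro s f v hn; omega
  | succ n ih =>
  intro s f v hn hC w hc r hf ha hb h2 hv hw
  have h := w.isK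
  have r0 := y.r0
  have r1 := y.r1
  replace hn := Nat.lt_succ_iff.1 hn
  rcases h2.eq_or_lt with h3 | h3
  · obtain ⟨e, hef, hE⟩ := card_two hf h3.symm
    have he : e ∈ s.E := by rw [hE]; simp
    obtain ⟨m, a1, a2⟩ := al_two (v := v) h hef (hE ▸ hc) y.q1.ne
    have hp := pow_pos y.q0 m
    have key : ∀ B, |1 + v e| ≤ B → Ok B (al q s.k v s.E f) (ga q s.k v s.E f) := fun B hB => by
      rw [hE, a1, a2]
      refine ⟨hp, ?_⟩
      rw [abs_mul, abs_of_pos hp]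
      exact mul_le_mul_of_nonneg_right hB hp.le
    obtain ⟨b1, b2⟩ := y.all hv (hw e he hef)
    refine ⟨key 1 (by rw [abs_le]; constructor <;> linarith [y.a1]), ?_⟩
    rintro (hr | ⟨x, hx, hxf, h1, h2⟩)
    · have := three_of_rank h hc hr
      omega
    · have hxe : x = e := by
        rw [hE] at hx
        exact (mem_insert.1 hx).resolve_right fun hh => hxf (mem_singleton.1 hh)
      exact key ρ (hxe ▸ hw x hx hxf h1 h2)
  have strong : Ok ρ (al q s.k v s.E f) (ga q s.k v s.E f) →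
      Ok 1 (al q s.k v s.E f) (ga q s.k v s.E f) ∧
        (St s f → Ok ρ (al q s.k v s.E f) (ga q s.k v s.E f)) :=
    fun h => ⟨h.mono r1.le, fun _ => h⟩
  obtain ⟨m1, m2, m3, m4, m5⟩ := y.mix
  have mix : ∀ e ∈ s.B, ∀ B, ρ ≤ B →
      Ok B (al q s.k v (s.E.erase e) f) (ga q s.k v (s.E.erase e) f) →
      Ok B (al q s.k v s.E f) (ga q s.k v s.E f) := fun e he B hB h1 => by
    have hef : e ≠ f := fun hh => hb (hh ▸ he)
    obtain ⟨s1, s2⟩ := hc.single h (w.sb he) hf hef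
    obtain ⟨a1, a2⟩ := al_mix (q := q) (w.sb he) hef s1 s2 ((hv.wb e he).trans m1)
    rw [a1, a2]
    exact (((fr ih hn hC w hc r hf ha hb h2 hv hw (Or.inr he) m5).mono hB).smul m2).add
      (h1.smul (m3 ▸ m4))
  have dsz : ∀ e ∈ s.E, (s.del e).E.card + 2 * (s.del e).A.card + (s.del e).B.card < n ∧
      2 ≤ (s.del e).E.card := fun e he => by
    have n1 := card_erase_of_mem he
    have n2 := card_erase_le (s := s.A) (a := e)
    have n3 := card_erase_le (s := s.B) (a := e)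
    simp only [Sta.del]
    omega
  have pab : ∀ e ∈ s.B, ∀ g ∈ s.A, Par s.k g e →
      Ok 1 (al q s.k v s.E f) (ga q s.k v s.E f) ∧
        (St s f → Ok ρ (al q s.k v s.E f) (ga q s.k v s.E f)) := fun e he g hg p => by
    have hef : e ≠ f := fun hh => hb (hh ▸ he)
    have hge : g ≠ e := fun hh => disjoint_left.1 w.dj hg (hh ▸ he)
    obtain ⟨i1, i2⟩ := ih (s.del e) f v (dsz e (w.sb he)).1 (hM.del _ _ _ hC (erase_subset _ _))
      (w.del e) (conn_par h hc (w.sa hg) (w.sb he) hge p.2.2)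
      (del_rd w r (w.sa hg) hge p (disjoint_left.1 w.dj hg)) (mem_erase.2 ⟨hef.symm, hf⟩)
      (fun hh => ha (mem_of_mem_erase hh)) (fun hh => hb (mem_of_mem_erase hh))
      (dsz e (w.sb he)).2 (hv.del e) (hw.del e)
    refine ⟨mix e he 1 r1.le i1, fun hs => mix e he ρ le_rfl (i2 ?_)⟩
    rcases hs with hr | ⟨x, hx, hxf, h1, h2⟩
    · have := (hc.single h (w.sb he) hf hef).2
      left
      simp only [Sta.del]
      omega
    · exact Or.inr ⟨x, mem_erase.2 ⟨fun hh => h2 (hh ▸ he), hx⟩, hxf,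
        fun hh => h1 (mem_of_mem_erase hh), fun hh => h2 (mem_of_mem_erase hh)⟩
  have w1 := y.wa.1.trans y.tr.le
  have w2 := y.wa.2.trans y.tr.le
  have a0 := y.a0
  rcases hSt s f hC w hc r hf ha hb h3 with ⟨e, he, g, hg, heg, hef, hgf, hh⟩ |
    ⟨e, he, t, m, c, -, gd⟩ | ⟨e, he, hef, heB, c1, c2, ⟨E1, c, hk⟩, -⟩ |
    ⟨e, heA, g, hgA, heg, ns1, ns2, ⟨E1, c1, k1⟩, E2, c2, k2⟩
  · have n2 := card_erase_le (s := s.A.erase g) (a := e)
    have n3 := card_erase_le (s := s.B.erase g) (a := e)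
    obtain ⟨d1, d2⟩ := dsz g hg
    simp only [Sta.del] at d1 d2
    have f1 : f ∈ s.E.erase g := mem_erase.2 ⟨hgf.symm, hf⟩
    have f2 : f ∉ (s.A.erase g).erase e := fun hh => ha (mem_of_mem_erase (mem_of_mem_erase hh))
    have f3 : f ∉ (s.B.erase g).erase e := fun hh => hb (mem_of_mem_erase (mem_of_mem_erase hh))
    have f4 : ∃ x ∈ s.E.erase g, x ≠ f ∧ x ∉ (s.A.erase g).erase e ∧ x ∉ (s.B.erase g).erase e :=
      ⟨e, mem_erase.2 ⟨heg, he⟩, hef, notMem_erase _ _, notMem_erase _ _⟩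
    rcases hh with p | p
    · by_cases b1 : e ∈ s.A ∧ g ∈ s.B
      · exact pab g b1.2 e b1.1 p
      by_cases b2 : e ∈ s.B ∧ g ∈ s.A
      · exact pab e b2.1 g b2.2 p.symm
      obtain ⟨c1, -, a1, a2⟩ := al_par (q := q) (v := v) h hc he hg heg hef hgf p.2.2
      refine strong ?_
      rw [a1, a2]
      exact (ih (parS s e g) f _ (by simp only [parS]; omega)
        (hM.del _ _ _ hC (erase_subset _ _)) (parS_wf w e g) c1 (parS_rd w r he heg p) f1 f2 f3 d2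
        (hv.parS e g _) (hw.parS (par_val y hv hw he hg hef hgf
          (fun b => r.1 e b.1 g b.2 heg p) b1 b2) e g)).2 (Or.inr f4)
    · have t1 := y.neg (y.all hv (hw e he hef)).2 (y.all hv (hw g hg hgf)).2
      obtain ⟨a1, a2⟩ := al_ser (q := q) (v := v) h hc hf he hg heg hef hgf p.2.2 t1.ne
      refine strong ?_
      rw [a1, a2]
      exact ((ih (serS s e g) f _ (by simp only [serS]; omega) (hM.con _ _ _ hC hg)
        (serS_wf w e g) (conn_ser h hc he hg heg p.2.2) (serS_rd w r hc he hg heg p) f1 f2 f3 d2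
        (hv.serS e g _) (hw.parS (ser_val' y hv hw he hg hef hgf
          fun b => r.2 e b.1 g b.2 heg p) e g)).2 (Or.inr f4)).smul (neg_pos.2 t1)
  · have hef : e ≠ f := fun hh => hb (hh ▸ he)
    have f1 : f ∈ (s.del e).E := mem_erase.2 ⟨hef.symm, hf⟩
    have f2 : f ∉ (s.del e).A := fun hh => ha (mem_of_mem_erase hh)
    have f3 : f ∉ (s.del e).B := fun hh => hb (mem_of_mem_erase hh)
    obtain ⟨d, d0, a1, a2, -⟩ := gd.mr.scale y.hq y.a1 (w.del e) gd.span (hv.del e) f1 f2 f3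
    obtain ⟨g1, g2, g3⟩ := (gd.mr.ns f).2 ⟨f1, f2, f3⟩
    obtain ⟨z1, z2, z3, -⟩ := gd.mr.size (w.del e)
    have d1 := (dsz e (w.sb he)).1
    have t3 := gd.three (w.del e)
    refine strong (mix e he ρ le_rfl ?_)
    simp only [Sta.del] at a1 a2
    rw [a1, a2]
    refine ((ih t f _ (by omega) (gd.mr.mc hM (w.del e) (hM.del _ _ _ hC (erase_subset _ _)))
      (gd.mr.wf (w.del e)) gd.conn gd.rd g1 g2 g3 (by omega) (wt_Wt (gd.mr.wf (w.del e)))
      fun x hx hxf h1 h2 => ?_).2 (Or.inl gd.rk)).smul d0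
    obtain ⟨b1, b2, b3⟩ := (gd.mr.ns x).1 ⟨hx, h1, h2⟩
    rw [wt_N h1 h2]
    exact hw.del e x b1 hxf b2 b3
  · obtain ⟨s1, s2⟩ := hc.single h he hf hef
    have p2 := ctr hM ih hn hC w r hf ha hb hv hw c hk (subset_insert _ _) hef heB
    refine strong ?_
    by_cases heA : e ∈ s.A
    · obtain ⟨a1, a2⟩ := al_rew (q := q) (v := v) he hef s1 s2 (-a)
      rw [a1, a2]
      exact (fr ih hn hC w hc r hf ha hb h2 hv hw (Or.inl heA) w1).add
        (p2.smul (by rw [hv.wa e heA]; linarith [y.a1]))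
    · obtain ⟨a1, a2⟩ := al_dc (q := q) (v := v) he hef s1 s2
      rw [a1, a2, sub_eq_add_neg, sub_eq_add_neg, ← neg_mul, ← neg_mul]
      refine ((ih (s.del e) f v (dsz e he).1 (hM.del _ _ _ hC (erase_subset _ _)) (w.del e) c1
        ⟨r.1.mono (erase_subset _ _), c2.mono (erase_subset _ _)⟩ (mem_erase.2 ⟨hef.symm, hf⟩)
        (fun hh => ha (mem_of_mem_erase hh)) (fun hh => hb (mem_of_mem_erase hh)) (dsz e he).2
        (hv.del e) (hw.del e)).2 (Or.inl ?_)).add (p2.smul ?_)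
      · have := c.rk
        simp only [Sta.del]
        omega
      · have := (abs_le.1 (hw e he hef heA heB)).2
        linarith
  · have he := w.sa heA
    have hg := w.sa hgA
    have hef : e ≠ f := fun hh => ha (hh ▸ heA)
    have hgf : g ≠ f := fun hh => ha (hh ▸ hgA)
    obtain ⟨s1, -⟩ := hc.single h he hf hef
    obtain ⟨s2, -⟩ := hc.single h hg hf hgf
    obtain ⟨a1, a2⟩ := al_two' (q := q) (v := v) he hg heg hef hgf s1 s2 (hv.wa e heA)
      (hv.wa g hgA) a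
    have fsz : ∀ e, (free s e).E.card + 2 * (free s e).A.card + (free s e).B.card ≤ n := fun e => by
      have n2 := card_erase_le (s := s.A) (a := e)
      have n3 := card_erase_le (s := s.B) (a := e)
      simp only [free]
      omega
    have key : ∀ {e g : ℕ} {E1 : Finset ℕ}, e ∈ s.A → Ctr s.k s.E (s.A.erase g) e E1 →
        Kp s.k s.E (insert f s.B) e E1 →
        Ok ρ (al q (con s.k e) (update v g (a - 2)) (s.E.erase e) f)
          (ga q (con s.k e) (update v g (a - 2)) (s.E.erase e) f) := by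
      intro e g E1 heA c hk
      exact ctr (s := free s g) hM ih (fsz g) hC (free_wf w g) (free_rd r g) hf
        (fun hh => ha (mem_of_mem_erase hh)) (fun hh => hb (mem_of_mem_erase hh)) (hv.free g _)
        (hw.free w2 g) c hk ((erase_subset _ _).trans (subset_insert _ _))
        (fun hh => ha (hh ▸ heA)) fun hh => disjoint_left.1 w.dj heA (mem_of_mem_erase hh)
    refine strong ?_
    rw [a1, a2]
    obtain ⟨z1, z2⟩ := toB_card w heA hgA heg
    obtain ⟨f2, f3⟩ := (toB_ns heA hgA f).2 ⟨ha, hb⟩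
    refine (((ih (toB s e g) f _ (by change s.E.card + _ + _ < n; omega) hC (toB_wf w heA hgA) hc
      (toB_rd w r heA hgA ns1 ns2) hf f2 f3 h2 (hv.toB e g) fun x hx hxf h1 h2 => ?_).2
      (Or.inl ?_)).add ((key heA c1 k1).smul (by linarith))).add
      ((key hgA c2 k2).smul (by linarith))
    · obtain ⟨b1, b2⟩ := (toB_ns heA hgA x).1 ⟨h1, h2⟩
      rw [update_of_ne (fun hh : x = g => b1 (hh ▸ hgA)),
        update_of_ne (fun hh : x = e => b1 (hh ▸ heA))]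
      exact hw x hx hxf b1 b2
    · have := c1.rk
      simp only [toB]
      omega

end ClaimP

theorem p_ClaimP : S_ClaimP := by
  intro C q a ρ J t hM hSt y s f v hC w hc r hf ha hb h2 hv hw
  obtain ⟨h1, h3⟩ := ClaimP.below hM hSt y _ s f v (Nat.lt_succ_self _) hC w hc r hf ha hb h2 hv hw
  exact ⟨h1.1, by simpa using h1.2, fun h => (h3 h).2⟩

end Pool.Agent.P.MP_e0c037_lc.AR
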