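import Pool.Agent.P.MP_e0c037_lc.AR.Base

/-! The claw case of the class lemma. -/

namespace Pool.Agent.P.MP_e0c037_lc.AR

open Finset SG BD

namespace ClawP

variable {k : KF} {a b c : ℕ}

/-- Two elements of a triangle span the third one. -/
theorem span3 (h : IsK k) (h2 : k {a, b} + 2 = k ∅) (h3 : k {c, a, b} + 2 = k ∅) {D : Finset ℕ}
    (ha : a ∈ D) (hb : b ∈ D) : k (insert c D) = k D :=
  h.dim {a, b} D c (insert_subset ha (singleton_subset_iff.2 hb)) (by omega)

theorem rot (a b c : ℕ) : ({a, b, c} : Finset ℕ) = {c, a, b} := by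
  ext z; simp only [mem_insert, mem_singleton]; tauto

theorem swp (a b c : ℕ) : ({a, b, c} : Finset ℕ) = {b, a, c} := Finset.insert_comm _ _ _

/-- Removing a triad `T` with `k (Z ∪ T) + 1 ≥ k Z` on one side of each partition. -/
theorem tc_sdiff {E T : Finset ℕ} (tc : Tc k E) (hT : T ⊆ E) (h2 : 2 ≤ T.card)
    (hk : k (E \ T) = k E + 1)
    (H : ∀ Z ⊆ E \ T, k Z ≤ k (Z ∪ T) + 1 ∨ k ((E \ T) \ Z) ≤ k ((E \ T) \ Z ∪ T) + 1) :
    Tc k (E \ T) := by
  have key : ∀ Z ⊆ E \ T, k Z ≤ k (Z ∪ T) + 1 →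
      (((E \ T) \ Z).Nonempty → 1 ≤ lam k (E \ T) Z) ∧
        (2 ≤ ((E \ T) \ Z).card → 2 ≤ lam k (E \ T) Z) := fun Z hZ hz => by
    have e1 : E \ (Z ∪ T) = (E \ T) \ Z := by
      ext z; simp only [mem_sdiff, mem_union]; tauto
    have hs : Z ∪ T ⊆ E := union_subset (hZ.trans sdiff_subset) hT
    have hc : 2 ≤ (Z ∪ T).card := h2.trans (card_le_card subset_union_right)
    constructor
    · intro hn
      have := tc.1 _ hs (card_pos.1 (by omega)) (e1 ▸ hn)
      rw [e1] at this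
      unfold lam; omega
    · intro hn
      have := tc.2 _ hs hc (e1 ▸ hn)
      unfold lam at this ⊢
      rw [e1] at this
      omega
  refine ⟨fun Z hZ n1 n2 => ?_, fun Z hZ n1 n2 => ?_⟩
  · have : 1 ≤ lam k (E \ T) Z := by
      rcases H Z hZ with h | h
      · exact (key Z hZ h).1 n2
      · rw [← lam_compl hZ]
        exact (key _ sdiff_subset h).1 (by rwa [Finset.sdiff_sdiff_eq_self hZ])
    unfold lam at this; omega
  · rcases H Z hZ with h | h
    · exact (key Z hZ h).2 n2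
    · rw [← lam_compl hZ]
      exact (key _ sdiff_subset h).2 (by rwa [Finset.sdiff_sdiff_eq_self hZ])

/-- If `p, m` span `q` and `p, n` span `r`, then `{p, q, r}` adds rank at most one to `m, n`. -/
theorem one_le (h : IsK k) {p q r m n : ℕ} {Z : Finset ℕ} (hm : m ∈ Z) (hn : n ∈ Z)
    (a1 : k {p, m} + 2 = k ∅) (a2 : k {q, p, m} + 2 = k ∅) (a3 : k {p, n} + 2 = k ∅)
    (a4 : k {r, p, n} + 2 = k ∅) : k Z ≤ k (Z ∪ {p, q, r}) + 1 := by
  have e1 : Z ∪ {p, q, r} = insert r (insert q (insert p Z)) := by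
    ext z; simp only [mem_union, mem_insert, mem_singleton]; tauto
  rw [e1, span3 h a3 a4 (by simp) (by simp [hn]), span3 h a1 a2 (by simp) (by simp [hm])]
  exact h.ge _ _

end ClawP

open ClawP

theorem p_Claw : S_Claw := by
  rintro ⟨k, E, A, B⟩ f w tc r3 hf ha hb
    ⟨e, he, x, hx, y, hy, l1, h1, l2, h2, l3, h3, ex, ey, xy, hT, t1, t2, t3⟩
  obtain ⟨h, sa, sb, dj⟩ := w
  simp only at *
  have AB : ∀ {a b}, a ∈ A → b ∈ B → a ≠ b := fun i j hh => disjoint_left.1 dj i (hh ▸ j)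
  have fA : ∀ {a}, a ∈ A → a ≠ f := fun i hh => ha (hh ▸ i)
  have fB : ∀ {a}, a ∈ B → a ≠ f := fun i hh => hb (hh ▸ i)
  have TE : ({e, x, y} : Finset ℕ) ⊆ E :=
    insert_subset (sb he) (insert_subset (sb hx) (singleton_subset_iff.2 (sb hy)))
  have cT : ({e, x, y} : Finset ℕ).card = 3 := card_eq_three.2 ⟨e, x, y, ex, ey, xy, rfl⟩
  set F := E \ {e, x, y} with hF
  have mF : ∀ z, z ∈ F ↔ z ∈ E ∧ z ≠ e ∧ z ≠ x ∧ z ≠ y := fun z => by simp [hF]
  have AF : ∀ {a}, a ∈ A → a ∈ F := fun i => (mF _).2 ⟨sa i, AB i he, AB i hx, AB i hy⟩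
  have fF : f ∈ F := (mF _).2 ⟨hf, (fB he).symm, (fB hx).symm, (fB hy).symm⟩
  have F2 : 2 ≤ F.card := one_lt_card.2 ⟨l1, AF h1, f, fF, fA h1⟩
  have E4 : 4 ≤ E.card := by
    have := card_sdiff_add_card_eq_card TE
    rw [← hF] at this
    omega
  have pr : ∀ {a b}, a ∈ E → b ∈ E → a ≠ b → k {a, b} + 2 = k ∅ := fun i j d =>
    (tc_pair h tc E4 i j d).1
  have pB : ∀ {a b}, a ∈ B → b ∈ A → k {a, b} + 2 = k ∅ := fun i j => pr (sb i) (sa j) (AB j i).symm
  have kT : k {e, x, y} + 3 ≤ k ∅ := by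
    have := tc.2 _ TE (by omega) F2
    unfold lam at this
    rw [← hF] at this
    omega
  -- the triangles, in all the needed orders
  have u1 : k {y, x, l1} + 2 = k ∅ := by rwa [swp]
  have u2 : k {y, e, l2} + 2 = k ∅ := by rwa [swp]
  have u3 : k {x, e, l3} + 2 = k ∅ := by rwa [swp]
  have T1 : ({y, x, e} : Finset ℕ) = {e, x, y} := by rw [rot, pair_comm y x]
  have T2 : ({x, y, e} : Finset ℕ) = {e, x, y} := rot _ _ _
  have T3 : ({e, y, x} : Finset ℕ) = {e, x, y} := by rw [pair_comm y x]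
  have o12 : ∀ Z, l1 ∈ Z → l2 ∈ Z → k Z ≤ k (Z ∪ {e, x, y}) + 1 := fun Z i j =>
    T1 ▸ one_le h i j (pB hy h1) t1 (pB hy h2) t2
  have o13 : ∀ Z, l1 ∈ Z → l3 ∈ Z → k Z ≤ k (Z ∪ {e, x, y}) + 1 := fun Z i j =>
    T2 ▸ one_le h i j (pB hx h1) u1 (pB hx h3) t3
  have o23 : ∀ Z, l2 ∈ Z → l3 ∈ Z → k Z ≤ k (Z ∪ {e, x, y}) + 1 := fun Z i j =>
    T3 ▸ one_le h i j (pB he h2) u2 (pB he h3) u3
  have dl : ∀ l ∈ A, ¬ k {l} ≤ k ({l} ∪ {e, x, y}) + 1 := fun l i hh => by
    have a1 := (tc.1.single h (sa i) hf (fA i)).1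
    have a2 := h.anti (subset_union_right : ({e, x, y} : Finset ℕ) ⊆ {l} ∪ {e, x, y})
    omega
  have d12 : l1 ≠ l2 := fun hh => dl l1 h1 (o12 _ (by simp) (by simp [hh]))
  have d13 : l1 ≠ l3 := fun hh => dl l1 h1 (o13 _ (by simp) (by simp [hh]))
  have d23 : l2 ≠ l3 := fun hh => dl l2 h2 (o23 _ (by simp) (by simp [hh]))
  have F4 : 4 ≤ F.card := by
    have : ({f, l1, l2, l3} : Finset ℕ) ⊆ F := by
      simp only [insert_subset_iff, singleton_subset_iff]
      exact ⟨fF, AF h1, AF h2, AF h3⟩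
    have := card_le_card this
    rw [card_insert_of_notMem (by simp [(fA h1).symm, (fA h2).symm, (fA h3).symm]),
      card_eq_three.2 ⟨l1, l2, l3, d12, d13, d23, rfl⟩] at this
    exact this
  have tcF : Tc k F := tc_sdiff tc TE (by omega) hT fun Z _ => by
    have m : ∀ l ∈ A, l ∈ Z ∨ l ∈ F \ Z := fun l i => by
      have := AF i
      rw [mem_sdiff]; tauto
    rcases m l1 h1 with i | i <;> rcases m l2 h2 with j | j <;> rcases m l3 h3 with l | l
    exacts [.inl (o12 _ i j), .inl (o12 _ i j), .inl (o13 _ i l), .inr (o23 _ j l),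
      .inl (o23 _ j l), .inr (o13 _ i l), .inr (o12 _ i j), .inr (o12 _ i j)]
  -- the three elements `l` form a triangle
  have kL : k {l1, l2, l3} + 2 = k ∅ := by
    have a1 := h.sup F (insert l1 (insert l2 (insert l3 {e, x, y})))
    have e1 : F ∪ insert l1 (insert l2 (insert l3 {e, x, y})) = E := by
      refine Subset.antisymm (union_subset sdiff_subset (insert_subset (sa h1)
        (insert_subset (sa h2) (insert_subset (sa h3) TE)))) fun z hz => ?_
      simp only [mem_union, mF, mem_insert, mem_singleton]; tauto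
    have e2 : F ∩ insert l1 (insert l2 (insert l3 {e, x, y})) = {l1, l2, l3} := by
      ext z
      have := AF h1
      have := AF h2
      have := AF h3
      have := mF z
      simp only [mem_inter, mem_insert, mem_singleton]; grind
    rw [e1, e2, span3 h (pr (sb hx) (sb hy) xy) (by rwa [← rot]) (by simp) (by simp),
      span3 h (pr (sb he) (sb hy) ey) (by rwa [← rot]) (by simp) (by simp),
      span3 h (pr (sb he) (sb hx) ex) (by rwa [← rot]) (by simp) (by simp)] at a1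
    have a2 := h.rank_le {e, x, y}
    have a3 := h.anti (subset_insert l1 {l2, l3})
    have a4 := pr (sa h2) (sa h3) d23
    omega
  have sl : ∀ D, l2 ∈ D → l3 ∈ D → l1 ∈ D → k (D.erase l1) = k D := fun D i j l => by
    rw [← span3 h (pr (sa h2) (sa h3) d23) kL (mem_erase.2 ⟨d12.symm, i⟩)
      (mem_erase.2 ⟨d13.symm, j⟩), insert_erase l]
  have ke : k (E.erase e) = k E := (tc.1.single h (sb he) hf (fB he)).2
  have kx : k ((E.erase e).erase x) = k E := (tc_pair h tc E4 (sb hx) (sb he) ex.symm).2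
  have ky : k ((E.erase e).erase y) = k E := (tc_pair h tc E4 (sb hy) (sb he) ey.symm).2
  have eF : ((E.erase e).erase y).erase x = F := by
    ext z; simp only [mF, mem_erase]; tauto
  have cy : ∀ D ⊆ F, k D = con k y D + 1 := fun D hD => by
    refine ser_eq h ?_ hD
    have : insert y F = (E.erase e).erase x := by
      ext z
      have := sb hy
      simp only [mF, mem_erase, mem_insert]; grind
    rw [this]; omega
  have eE : (((E.erase e).erase y).erase l1).erase x = F.erase l1 := by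
    rw [erase_right_comm, eF]
  have c0 := cy ∅ (empty_subset _)
  have cF := cy _ (erase_subset l1 F)
  have kF := sl F (AF h2) (AF h3) (AF h1)
  refine ⟨e, he, can ((Sta.del ⟨k, E, A, B⟩ e).ser x y) x l1, .ser (n := 0)
    (mem_erase.2 ⟨ex.symm, hx⟩) (mem_erase.2 ⟨ey.symm, hy⟩) xy ⟨kx.trans ke.symm,
      ky.trans ke.symm, ?_⟩ (.can (c := 0) (mem_insert_self _ _)
      (mem_insert_of_mem (mem_erase.2 ⟨AB h1 he, h1⟩)) (AB h1 hx).symm ?_ (.refl _)),
    ?_, ⟨?_, ?_⟩, ?_, ?_⟩ <;> simp only [can, Sta.ser, Sta.del, eE]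
  · rw [eF]; omega
  · have a1 := pr (sb hy) (sb hx) xy.symm
    have a2 := pB hy h1
    unfold Par
    unfold con at c0 ⊢
    omega
  · exact conn_congr (c := 0) (c' := 1) (fun D hD => cy D (hD.trans (erase_subset _ _)))
      (tc_both h tcF F4 (AF h1)).1
  · intro a i b j d p
    have m : ∀ z ∈ ((insert x (A.erase e)).erase l1).erase x, z ∈ A := fun z hz => by
      simp only [mem_erase, mem_insert] at hz; tauto
    have a1 := pr (sa (m a i)) (sa (m b j)) d
    have a2 := cy {a, b} (insert_subset (AF (m a i)) (singleton_subset_iff.2 (AF (m b j))))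
    have a3 := p.2.2
    omega
  · intro a i b j d p
    have m : ∀ z ∈ ((B.erase e).erase y).erase x, z ∈ B ∧ z ∈ F := fun z hz => by
      simp only [mem_erase] at hz
      exact ⟨hz.2.2.2, (mF z).2 ⟨sb hz.2.2.2, hz.2.2.1, hz.1, hz.2.1⟩⟩
    have n : ∀ l ∈ A, l ∈ (F.erase b).erase a := fun l hl =>
      mem_erase.2 ⟨AB hl (m a i).1, mem_erase.2 ⟨AB hl (m b j).1, AF hl⟩⟩
    have a1 := (tc_pair h tcF F4 (m a i).2 (m b j).2 d).2
    have a2 := sl _ (n _ h2) (n _ h3) (n _ h1)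
    have a3 := p.2.2
    rw [erase_right_comm (a := l1), erase_right_comm (a := l1)] at a3
    have a4 := cy (((F.erase b).erase a).erase l1)
      ((erase_subset _ _).trans ((erase_subset _ _).trans (erase_subset _ _)))
    omega
  · omega
  · omega

end Pool.Agent.P.MP_e0c037_lc.AR
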