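import Pool.Agent.P.MP_e0c037_lc.BD.Base

/-! The two arcs `y = -2 x - 1` and `x = -2 y - 1`: definitions and interface statements. -/

namespace Pool.Agent.P.MP_e0c037_lc.AR

open Finset Pool.Agent.Lib.helper21 SG BD

/-- Two parallel elements of `A` cancel. -/
def can (s : Sta) (x y : ℕ) : Sta := ⟨s.k, (s.E.erase y).erase x, (s.A.erase y).erase x, s.B⟩

/-- Successive special moves; the numbers count the series merges and the cancellations. -/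
inductive Mr : Sta → Sta → ℕ → ℕ → Prop
  | refl (s : Sta) : Mr s s 0 0
  | can {s t : Sta} {n c x y : ℕ} : x ∈ s.A → y ∈ s.A → x ≠ y → Par s.k x y →
      Mr (can s x y) t n c → Mr s t n (c + 1)
  | ser {s t : Sta} {n c x y : ℕ} : x ∈ s.B → y ∈ s.B → x ≠ y → Ser s.k s.E x y →
      Mr (s.ser x y) t n c → Mr s t (n + 1) c

/-- Special moves that end in a connected reduced spanning state of rank at least two. -/
structure Good (s t : Sta) (n c : ℕ) : Prop where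
  mr : Mr s t n c
  conn : Conn t.k t.E
  rd : t.Rd
  rk : t.k t.E + 2 ≤ t.k ∅
  span : t.k t.E = s.k s.E

/-- The weights are `-2` on `A` and `2 a - 2` on `B`. -/
structure Wt (a : ℝ) (s : Sta) (v : ℕ → ℝ) : Prop where
  wa : ∀ x ∈ s.A, v x = -2
  wb : ∀ x ∈ s.B, v x = 2 * a - 2

/-- The weights `v`, overwritten on the special elements. -/
noncomputable def wt (a : ℝ) (s : Sta) (v : ℕ → ℝ) : ℕ → ℝ :=
  fun x => if x ∈ s.A then -2 else if x ∈ s.B then 2 * a - 2 else v x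

/-! ### Numbers -/

/-- The graded system of bounds, levels `2, …, J`. -/
structure Sy (q a ρ : ℝ) (J : ℕ) (t : ℕ → ℝ) : Prop where
  hq : q = 2 * (1 - a ^ 2)
  a1 : a < 1
  q0 : 0 < q
  q1 : q < 1
  J2 : 2 ≤ J
  t2 : 1 - a ≤ t 2
  tr : t 2 < ρ
  rb : ρ ≤ 2 * a - 1
  tg : ∀ g, 2 ≤ g → g ≤ J → t g ≤ t 2
  ser : ∀ v w, |1 + v| ≤ ρ → -2 ≤ w → w ≤ 2 * a - 2 → |1 + v * w / (q + v + w)| ≤ ρ
  dd : |1 + -2 * -2 / (q + -2 + -2)| ≤ t 2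
  db : |1 + -2 * (2 * a - 2) / (q + -2 + (2 * a - 2))| ≤ t 2
  bb : (2 * a - 1) ^ 2 ≤ t 2
  gser : ∀ g, 2 ≤ g → g < J → ∀ v w, |1 + v| ≤ t g → -2 ≤ w → w ≤ 2 * a - 2 →
    |1 + v * w / (q + v + w)| ≤ t (g + 1)
  gpar : ∀ g, 2 ≤ g → g < J → t g * (2 * a - 1) ≤ t (g + 1)
  top : t J * ρ ≤ 1 - q
  star : (2 * a - 1) * (2 * a - 1 - ρ) * (1 + ρ) < ρ * (ρ + (2 * a - 1)) * (2 - 2 * a)

def S_Num : Prop :=
  ∀ a : ℝ, 0 < a → a < 1 → 1 < a ^ 4 + a → ∃ ρ J t, Sy (2 * (1 - a ^ 2)) a ρ J t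

/-! ### The moves -/

/-- Series pairs of the reduced contraction inside `T` are old. -/
def Kp (k : KF) (E T : Finset ℕ) (e : ℕ) (E1 : Finset ℕ) : Prop :=
  ∀ x ∈ T, ∀ y ∈ T, Ser (con k e) E1 x y → Ser k E x y

/-- The element `e` is in no series pair. -/
def NoSer (k : KF) (E : Finset ℕ) (e : ℕ) : Prop := ∀ x ∈ E, e ≠ x → ¬ Ser k E e x

/-- The moves. -/
def Step (C : KF → Finset ℕ → Prop) : Prop :=
  ∀ (s : Sta) f, C s.k s.E → s.WF → Conn s.k s.E → s.Rd → f ∈ s.E → f ∉ s.A → f ∉ s.B →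
    3 ≤ s.E.card →
    (∃ e ∈ s.E, ∃ g ∈ s.E, e ≠ g ∧ e ≠ f ∧ g ≠ f ∧ (Par s.k e g ∨ Ser s.k s.E e g)) ∨
    (∃ e ∈ s.B, ∃ t n c, c ≤ 2 ∧ Good (s.del e) t n c) ∨
    (∃ e ∈ s.E, e ≠ f ∧ e ∉ s.B ∧ Conn s.k (s.E.erase e) ∧ RedS s.k (s.E.erase e) s.B ∧
      (∃ E1, Ctr s.k s.E s.A e E1 ∧ Kp s.k s.E (insert f s.B) e E1) ∧
      ∃ x ∈ s.E, x ≠ f ∧ x ∉ s.A ∧ x ∉ s.B) ∨
    ∃ e ∈ s.A, ∃ g ∈ s.A, e ≠ g ∧ NoSer s.k s.E e ∧ NoSer s.k s.E g ∧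
      (∃ E1, Ctr s.k s.E (s.A.erase g) e E1 ∧ Kp s.k s.E (insert f s.B) e E1) ∧
      ∃ E2, Ctr s.k s.E (s.A.erase e) g E2 ∧ Kp s.k s.E (insert f s.B) g E2

/-- The class lemma. -/
def CL (C : KF → Finset ℕ → Prop) : Prop :=
  ∀ (s : Sta) f, C s.k s.E → s.WF → Tc s.k s.E → 4 ≤ s.E.card → f ∈ s.E → f ∉ s.A → f ∉ s.B →
    s.B.Nonempty → ∃ e ∈ s.B, ∃ t n c, c ≤ 1 ∧ Good (s.del e) t n c

def S_Keep : Prop :=
  ∀ (k : KF) E Y S e, IsK k → Conn k E → Y ⊆ E → 3 ≤ Y.card → lam k E Y ≤ 1 → MinY k E Y →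
    e ∈ Y → k Y + 3 ≤ k ∅ → S ⊆ E → Red k S →
    (∀ x ∈ E \ Y, ∀ y ∈ E \ Y, Ser k (E.erase e) x y → Ser k E x y) ∧
    ∀ E1, Ctr k E S e E1 → ∀ x ∈ E \ Y, ∀ y ∈ E \ Y, x ∉ S → y ∉ S →
      Ser (con k e) E1 x y → Ser k E x y

def S_Lift : Prop :=
  ∀ (s t' : Sta) (k' : KF) (Y : Finset ℕ) f e n c, s.WF → s.Rd → Conn s.k s.E → IsK k' →
    Y ⊆ s.E → f ∈ s.E \ Y → Tor s.k k' s.E Y f → Tc k' (insert f Y) → 3 ≤ Y.card → e ∈ Y →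
    Good (Sta.del ⟨k', insert f Y, s.A ∩ Y, s.B ∩ Y⟩ e) t' n c →
    ∃ t, Mr (s.del e) t n c ∧ t'.E.erase f ⊆ t.E ∧ lam t.k t.E (t'.E.erase f) ≤ 1 ∧
      Half t (t'.E.erase f) ∧ Conn t.k t.E ∧ t.k t.E = s.k (s.E.erase e) ∧
      t.k (t'.E.erase f) + 2 ≤ t.k ∅

def S_Shad : Prop :=
  ∀ (s : Sta) (X : Finset ℕ) f, s.WF → Conn s.k s.E → X ⊆ s.E → f ∈ s.E → f ∉ X → f ∉ s.A →
    f ∉ s.B → lam s.k s.E X ≤ 1 → s.k X + 2 ≤ s.k ∅ → Half s X →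
    ∃ t n c, c ≤ 1 ∧ Good s t n c

def S_Step : Prop := ∀ C X, Mc C → SG.CL C X → CL C → Step C

/-! ### The class lemma -/

/-- A block: an element of `A` or a series pair in `B`. -/
def Blk (s : Sta) (D : Finset ℕ) : Prop :=
  (∃ d ∈ s.A, D = {d}) ∨ ∃ x ∈ s.B, ∃ y ∈ s.B, x ≠ y ∧ Ser s.k s.E x y ∧ D = {x, y}

/-- Two disjoint blocks are independent. -/
def Qs (s : Sta) : Prop :=
  ∀ D1 D2, Blk s D1 → Blk s D2 → Disjoint D1 D2 → s.k (D1 ∪ D2) + D1.card + D2.card = s.k ∅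

/-- A triad in `B` whose three pairs lie in triangles with elements of `A`. -/
def Claw (s : Sta) : Prop :=
  ∃ e ∈ s.B, ∃ x ∈ s.B, ∃ y ∈ s.B, ∃ l1 ∈ s.A, ∃ l2 ∈ s.A, ∃ l3 ∈ s.A, e ≠ x ∧ e ≠ y ∧ x ≠ y ∧
    s.k (s.E \ {e, x, y}) = s.k s.E + 1 ∧ s.k {x, y, l1} + 2 = s.k ∅ ∧
    s.k {e, y, l2} + 2 = s.k ∅ ∧ s.k {e, x, l3} + 2 = s.k ∅

/-- Two triads through one element whose other four elements are dependent occur only in a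
small ground set. -/
def Quad (k : KF) (E : Finset ℕ) : Prop :=
  ∀ e x y z w, ({e, x, y, z, w} : Finset ℕ) ⊆ E → ({e, x, y, z, w} : Finset ℕ).card = 5 →
    k (E \ {e, x, y}) = k E + 1 → k (E \ {e, z, w}) = k E + 1 → k ∅ < k {x, y, z, w} + 4 →
    E.card ≤ 6

def S_SerAll : Prop :=
  ∀ s : Sta, s.WF → Conn s.k s.E → s.k s.E + 3 ≤ s.k ∅ → Qs s → ∃ t n, Good s t n 0

def S_Claw : Prop :=
  ∀ (s : Sta) f, s.WF → Tc s.k s.E → s.k s.E + 3 ≤ s.k ∅ → f ∈ s.E → f ∉ s.A → f ∉ s.B →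
    Claw s → ∃ e ∈ s.B, ∃ t, Good (s.del e) t 1 1

def S_Dich : Prop :=
  ∀ (s : Sta) f, s.WF → Tc s.k s.E → 4 ≤ s.E.card → Quad s.k s.E → f ∈ s.E → f ∉ s.A →
    f ∉ s.B → s.B.Nonempty → (∃ e ∈ s.B, Qs (s.del e)) ∨ Claw s

def S_QuadG : Prop := ∀ k E, Gr k E → Tc k E → Quad k E

def S_QuadD : Prop := ∀ k E, Du k E → Tc k E → Quad k E

/-! ### The estimates -/

/-- Positivity of `al` and the range of the effective weight. -/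
def ClaimP (C : KF → Finset ℕ → Prop) (q a ρ : ℝ) : Prop :=
  ∀ (s : Sta) f (v : ℕ → ℝ), C s.k s.E → s.WF → Conn s.k s.E → s.Rd → f ∈ s.E → f ∉ s.A →
    f ∉ s.B → 2 ≤ s.E.card → Wt a s v →
    (∀ x ∈ s.E, x ≠ f → x ∉ s.A → x ∉ s.B → |1 + v x| ≤ ρ) →
    0 < al q s.k v s.E f ∧ |ga q s.k v s.E f| ≤ al q s.k v s.E f ∧
      ((s.k s.E + 2 ≤ s.k ∅ ∨ ∃ x ∈ s.E, x ≠ f ∧ x ∉ s.A ∧ x ∉ s.B) →
        |ga q s.k v s.E f| ≤ ρ * al q s.k v s.E f)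

def S_ClaimP : Prop := ∀ C q a ρ J t, Mc C → Step C → Sy q a ρ J t → ClaimP C q a ρ

/-- The bound for the number of elements of a reduced set. -/
def psi (r : ℕ) : ℕ := (2 * r) ^ 2 + 3 * r + 1

/-- Reduced sets are small compared with the rank. -/
def Sz (C : KF → Finset ℕ → Prop) : Prop :=
  ∀ k E A, C k E → Conn k E → A ⊆ E → Red k A → A.card ≤ psi (k ∅ - k E)

def S_Size : Prop := Sz Gr ∧ Sz Du

/-- The bound for the negative part. -/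
def Bnd (C : KF → Finset ℕ → Prop) (q a ρ τ : ℝ) : Prop :=
  ∀ η : ℝ, 0 < η → ∃ M : ℕ, ∀ (s : Sta) f (v : ℕ → ℝ), C s.k s.E → s.WF → Conn s.k s.E → s.Rd →
    f ∈ s.E → f ∉ s.A → f ∉ s.B → 2 ≤ s.E.card → Wt a s v → |1 + v f| ≤ ρ →
    (∀ x ∈ s.E, x ≠ f → x ∉ s.A → x ∉ s.B → |1 + v x| ≤ τ) →
    M + s.k s.E ≤ s.k ∅ + s.B.card →
    -(sg s.k s.E * Zk q s.k v s.E) ≤ η * al q s.k v s.E f

def S_Bnd : Prop :=
  ∀ C q a ρ J t, Mc C → Step C → Sy q a ρ J t → ClaimP C q a ρ → Sz C → Bnd C q a ρ (t 2)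

/-- The sign rule on the segment. -/
def Seg (C : KF → Finset ℕ → Prop) (q : ℝ) : Prop :=
  ∃ N, ∀ k E, C k E → Conn k E → Red k E → k E + N ≤ k ∅ → SG.Pos q k E

/-- The sign rule for large reduced connected states. -/
def Pos (C : KF → Finset ℕ → Prop) (q a : ℝ) : Prop :=
  ∃ M : ℕ, ∀ (s : Sta) (v : ℕ → ℝ), C s.k s.E → s.WF → Conn s.k s.E → s.Rd → s.E ⊆ s.A ∪ s.B →
    Wt a s v → M ≤ s.E.card → 0 < sg s.k s.E * Zk q s.k v s.E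

def S_Main : Prop :=
  ∀ C q a ρ J t, Mc C → Step C → Sy q a ρ J t → ClaimP C q a ρ → Bnd C q a ρ (t 2) → Sz C →
    Seg C q → Pos C q a

/-! ### Algorithms -/

def S_Norm : Prop :=
  ∀ κ k, Orc κ k → ∃ C A B : Inp → List ℕ, PT C ∧ PT A ∧ PT B ∧ ∀ G, Valid G →
    (A G ++ B G).Nodup ∧ (∀ i ∈ C G, i < G.2.length) ∧
    (∃ c, Mr ⟨k G, range G.2.length, ∅, range G.2.length⟩
      ⟨cn (k G) (C G).toFinset, (A G ++ B G).toFinset, (A G).toFinset, (B G).toFinset⟩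
      (C G).length c) ∧
    Sta.Rd ⟨cn (k G) (C G).toFinset, (A G ++ B G).toFinset, (A G).toFinset, (B G).toFinset⟩

def S_Algo : Prop :=
  ∀ C κ k (q a : ℝ), Mc C → Orc κ k → (∀ G, Valid G → C (k G) (range G.2.length)) →
    q = 2 * (1 - a ^ 2) → 0 < q → a < 1 → Pos C q a →
    ∃ f : Inp → ℤ, PT f ∧ ∀ G, Valid G →
      f G = (SignType.sign (Zk q (k G) (fun _ => 2 * a - 2) (range G.2.length)) : ℤ)

end Pool.Agent.P.MP_e0c037_lc.AR
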