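import Pool.Agent.P.MP_e0c037_lc.AR.Base

/-! The dichotomy: a clean element of `B` or a claw. -/

namespace Pool.Agent.P.MP_e0c037_lc.AR

open Finset SG BD

namespace DichP

variable {k : KF} {E : Finset ℕ} {e x y d p q b : ℕ} {s : Sta}

/-- A triangle meeting a triad has a second point in it. -/
theorem orth (h : IsK k) (c : Tc k E) (h4 : 4 ≤ E.card) (hx : x ∈ E) (hp : p ∈ E) (hq : q ∈ E)
    (xp : x ≠ p) (xq : x ≠ q) (pq : p ≠ q) (t : k (E \ {x, p, q}) = k E + 1) (hy : y ∈ E)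
    (hd : d ∈ E) (yd : y ≠ d) (y1 : y ∉ ({x, p, q} : Finset ℕ))
    (d1 : d ∉ ({x, p, q} : Finset ℕ)) : k {x, y, d} + 3 = k ∅ := by
  have e1 : insert x (E \ {x, p, q}) = (E.erase q).erase p := by
    ext z; simp only [mem_insert, mem_sdiff, mem_erase, mem_singleton]; grind
  have a1 := (tc_pair h c h4 hp hq pq).2
  have a2 := ser_eq h (F := E \ {x, p, q}) (g := x) (by rw [e1]; omega) (A := {y, d})
    (insert_subset (mem_sdiff.2 ⟨hy, y1⟩) (singleton_subset_iff.2 (mem_sdiff.2 ⟨hd, d1⟩)))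
  have a3 := (tc_pair h c h4 hy hd yd).1
  omega

/-- Two triads through two points of a triangle coincide. -/
theorem two (h : IsK k) (c : Tc k E) (h4 : 4 ≤ E.card) (he : e ∈ E) (hb : b ∈ E) (hx : x ∈ E)
    (hy : y ∈ E) (hd : d ∈ E) (ex : e ≠ x) (ey : e ≠ y) (bx : b ≠ x) (by' : b ≠ y) (xy : x ≠ y)
    (de : d ≠ e) (db : d ≠ b) (dx : d ≠ x) (dy : d ≠ y) (t1 : k (E \ {e, x, y}) = k E + 1)
    (t2 : k (E \ {x, y, b}) = k E + 1) (tr : k {x, y, d} + 2 = k ∅) : b = e := by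
  by_contra be
  have a1 := h.sup (E \ {e, x, y}) (E \ {x, y, b})
  have e1 : E \ {e, x, y} ∪ E \ {x, y, b} = (E.erase y).erase x := by
    ext z; simp only [mem_union, mem_insert, mem_sdiff, mem_erase, mem_singleton]; grind
  have a2 := (tc_pair h c h4 hx hy xy).2
  have a3 := h.ge (E \ {e, x, y} ∩ (E \ {x, y, b})) y
  have a4 := (tc_pair h c h4 hy hd dy.symm).1
  have a5 := h.dim {y, d} (insert y (E \ {e, x, y} ∩ (E \ {x, y, b}))) x
    (by
      intro z; simp only [mem_inter, mem_insert, mem_sdiff, mem_singleton]; grind)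
    (by omega)
  have e2 : insert x (insert y (E \ {e, x, y} ∩ (E \ {x, y, b}))) = (E.erase e).erase b := by
    ext z; simp only [mem_inter, mem_insert, mem_sdiff, mem_erase, mem_singleton]; grind
  have a6 := (tc_pair h c h4 hb he be).2
  rw [e1] at a1
  rw [e2] at a5
  omega

def Bad1 (s : Sta) (e : ℕ) : Prop :=
  ∃ x ∈ s.B, ∃ y ∈ s.B, ∃ d ∈ s.A, e ≠ x ∧ e ≠ y ∧ x ≠ y ∧
    s.k (s.E \ {e, x, y}) = s.k s.E + 1 ∧ s.k {x, y, d} + 2 = s.k ∅

def Bad2 (s : Sta) (e : ℕ) : Prop :=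
  ∃ x ∈ s.B, ∃ y ∈ s.B, ∃ z ∈ s.B, ∃ w ∈ s.B, e ≠ x ∧ e ≠ y ∧ e ≠ z ∧ e ≠ w ∧ x ≠ y ∧ x ≠ z ∧
    x ≠ w ∧ y ≠ z ∧ y ≠ w ∧ z ≠ w ∧ s.k (s.E \ {e, x, y}) = s.k s.E + 1 ∧
    s.k (s.E \ {e, z, w}) = s.k s.E + 1 ∧ s.k ∅ < s.k {x, y, z, w} + 4

theorem triad (w : s.WF) (c : Tc s.k s.E) (he : e ∈ s.B) (hx : x ∈ (s.del e).B)
    (p : Ser (s.del e).k (s.del e).E x y) : s.k (s.E \ {e, x, y}) = s.k s.E + 1 := by
  have a1 := (c.1.single w.isK (w.sb he) (w.sb (mem_of_mem_erase hx))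
    (ne_of_mem_erase hx).symm).2
  have a2 : s.k (((s.E.erase e).erase y).erase x) = s.k (s.E.erase e) + 1 := p.2.2
  have e1 : s.E \ {e, x, y} = ((s.E.erase e).erase y).erase x := by
    ext z; simp only [mem_insert, mem_sdiff, mem_erase, mem_singleton]; grind
  rw [e1]
  omega

theorem bad1 (w : s.WF) (c : Tc s.k s.E) (h4 : 4 ≤ s.E.card) (he : e ∈ s.B)
    (hd : d ∈ (s.del e).A) (hx : x ∈ (s.del e).B) (hy : y ∈ (s.del e).B) (xy : x ≠ y)
    (p : Ser (s.del e).k (s.del e).E x y) (hn : s.k {x, y, d} + 3 ≠ s.k ∅) : Bad1 s e := by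
  have hx' := mem_of_mem_erase hx
  have hy' := mem_of_mem_erase hy
  refine ⟨x, hx', y, hy', d, mem_of_mem_erase hd, (ne_of_mem_erase hx).symm,
    (ne_of_mem_erase hy).symm, xy, triad w c he hx p, ?_⟩
  have a1 := (tc_pair w.isK c h4 (w.sb hx') (w.sb hy') xy).1
  have a2 := w.isK.le {x, y} d
  have a3 := w.isK.ge {x, y} d
  have e1 : (insert d {x, y} : Finset ℕ) = {x, y, d} := by
    ext z; simp only [mem_insert, mem_singleton]; grind
  rw [e1] at a2 a3
  omega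

theorem bad (w : s.WF) (c : Tc s.k s.E) (h4 : 4 ≤ s.E.card) (he : e ∈ s.B)
    (hn : ¬Qs (s.del e)) : Bad1 s e ∨ Bad2 s e := by
  unfold Qs at hn
  push Not at hn
  obtain ⟨D1, D2, b1, b2, dj, hn⟩ := hn
  change s.k _ + _ + _ ≠ s.k ∅ at hn
  rcases b1 with ⟨d, hd, rfl⟩ | ⟨x, hx, y, hy, xy, p, rfl⟩ <;>
    rcases b2 with ⟨d', hd', rfl⟩ | ⟨x', hx', y', hy', xy', p', rfl⟩
  · have a1 := (tc_pair w.isK c h4 (w.sa (mem_of_mem_erase hd)) (w.sa (mem_of_mem_erase hd'))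
      (by simpa using dj)).1
    rw [card_singleton, card_singleton, ← insert_eq] at hn
    omega
  · refine Or.inl (bad1 w c h4 he hd hx' hy' xy' p' ?_)
    have e1 : ({d} ∪ {x', y'} : Finset ℕ) = {x', y', d} := by
      ext z; simp only [mem_union, mem_insert, mem_singleton]; grind
    rw [e1, card_singleton, card_pair xy'] at hn
    omega
  · refine Or.inl (bad1 w c h4 he hd' hx hy xy p ?_)
    have e1 : ({x, y} ∪ {d'} : Finset ℕ) = {x, y, d'} := by
      ext z; simp only [mem_union, mem_insert, mem_singleton]; grind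
    rw [e1, card_singleton, card_pair xy] at hn
    omega
  · right
    have e1 : ({x, y} ∪ {x', y'} : Finset ℕ) = {x, y, x', y'} := by
      ext z; simp only [mem_union, mem_insert, mem_singleton]; grind
    have a1 := w.isK.rank_le ({x, y} ∪ {x', y'})
    rw [card_union_of_disjoint dj] at a1
    rw [e1, card_pair xy, card_pair xy'] at hn a1
    simp only [disjoint_insert_left, disjoint_singleton_left, mem_insert, mem_singleton,
      not_or] at dj
    exact ⟨x, mem_of_mem_erase hx, y, mem_of_mem_erase hy, x', mem_of_mem_erase hx', y',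
      mem_of_mem_erase hy', (ne_of_mem_erase hx).symm, (ne_of_mem_erase hy).symm,
      (ne_of_mem_erase hx').symm, (ne_of_mem_erase hy').symm, xy, dj.1.1, dj.1.2, dj.2.1, dj.2.2,
      xy', triad w c he hx p, triad w c he hx' p', by omega⟩

/-- A point of a triangle with a vertex outside `B` is not of the second kind. -/
theorem not2 (w : s.WF) (c : Tc s.k s.E) (h4 : 4 ≤ s.E.card) (hx : x ∈ s.B) (hy : y ∈ s.B)
    (hd : d ∈ s.E) (hd' : d ∉ s.B) (xy : x ≠ y) (tr : s.k ∅ ≤ s.k {x, y, d} + 2) : ¬Bad2 s x := by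
  rintro ⟨p, hp, q, hq, u, hu, v, hv, n1, n2, n3, n4, n5, n6, n7, n8, n9, n10, t1, t2, -⟩
  have yd : y ≠ d := fun hh => hd' (hh ▸ hy)
  by_cases h1 : y ∈ ({x, p, q} : Finset ℕ)
  · have := orth w.isK c h4 (w.sb hx) (w.sb hu) (w.sb hv) n3 n4 n10 t2 (w.sb hy) hd yd
      (by simp only [mem_insert, mem_singleton] at h1 ⊢; grind)
      (by simp only [mem_insert, mem_singleton]; grind)
    omega
  · have := orth w.isK c h4 (w.sb hx) (w.sb hp) (w.sb hq) n1 n2 n5 t1 (w.sb hy) hd yd h1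
      (by simp only [mem_insert, mem_singleton]; grind)
    omega

theorem step (w : s.WF) (c : Tc s.k s.E) (h4 : 4 ≤ s.E.card) (he : e ∈ s.B) (hx : x ∈ s.B)
    (hy : y ∈ s.B) (hd : d ∈ s.A) (ex : e ≠ x) (ey : e ≠ y) (xy : x ≠ y)
    (t : s.k (s.E \ {e, x, y}) = s.k s.E + 1) (tr : s.k {x, y, d} + 2 = s.k ∅)
    (hb : Bad1 s x ∨ Bad2 s x) : ∃ l ∈ s.A, s.k {e, y, l} + 2 = s.k ∅ := by
  have hd' : d ∉ s.B := disjoint_left.1 w.dj hd
  have ne : ∀ z ∈ s.B, d ≠ z := fun z hz hh => hd' (hh ▸ hz)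
  rcases hb with ⟨p, hp, q, hq, l, hl, n1, n2, n3, t1, t2⟩ | hb
  · refine ⟨l, hl, ?_⟩
    have h1 : y ∈ ({x, p, q} : Finset ℕ) := by
      by_contra h1
      have := orth w.isK c h4 (w.sb hx) (w.sb hp) (w.sb hq) n1 n2 n3 t1 (w.sb hy) (w.sa hd)
        (ne y hy).symm h1 (by
          simp only [mem_insert, mem_singleton, not_or]
          exact ⟨ne x hx, ne p hp, ne q hq⟩)
      omega
    simp only [mem_insert, mem_singleton] at h1
    rcases h1 with h1 | rfl | rfl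
    · exact (xy h1.symm).elim
    · have := two w.isK c h4 (w.sb he) (w.sb hq) (w.sb hx) (w.sb hy) (w.sa hd) ex ey n2.symm
        n3.symm xy (ne e he) (ne q hq) (ne x hx) (ne y hy) t t1 tr
      rw [← this, insert_comm]
      exact t2
    · have := two w.isK c h4 (w.sb he) (w.sb hp) (w.sb hx) (w.sb hy) (w.sa hd) ex ey n1.symm
        n3 xy (ne e he) (ne p hp) (ne x hx) (ne y hy) t (by rw [pair_comm y p]; exact t1) tr
      rw [← this]
      exact t2
  · exact (not2 w c h4 hx hy (w.sa hd) hd' xy tr.ge hb).elim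

end DichP

open DichP in
theorem p_Dich : S_Dich := by
  intro s f w c h4 hQ hf _ hb ⟨e₀, he₀⟩
  by_cases hq : ∃ e ∈ s.B, Qs (s.del e)
  · exact Or.inl hq
  right
  have hall : ∀ e ∈ s.B, Bad1 s e ∨ Bad2 s e := fun e he =>
    bad w c h4 he fun hh => hq ⟨e, he, hh⟩
  by_cases h1 : ∃ e ∈ s.B, Bad1 s e
  · obtain ⟨e, he, x, hx, y, hy, d, hd, ex, ey, xy, t, tr⟩ := h1
    obtain ⟨l2, hl2, t2⟩ := DichP.step w c h4 he hx hy hd ex ey xy t tr (hall x hx)
    obtain ⟨l3, hl3, t3⟩ := DichP.step w c h4 he hy hx hd ey ex xy.symm (by rw [pair_comm y x]; exact t)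
      (by rw [insert_comm]; exact tr) (hall y hy)
    exact ⟨e, he, x, hx, y, hy, d, hd, l2, hl2, l3, hl3, ex, ey, xy, t, tr, t2, t3⟩
  · exfalso
    have h2 : ∀ e ∈ s.B, Bad2 s e := fun e he => (hall e he).resolve_left fun hh => h1 ⟨e, he, hh⟩
    obtain ⟨x, hx, y, hy, u, hu, v, hv, n1, n2, n3, n4, n5, n6, n7, n8, n9, n10, t1, t2, dp⟩ :=
      h2 e₀ he₀
    have ne : ∀ z ∈ s.B, f ≠ z := fun z hz hh => hb (hh ▸ hz)
    have m0 := ne _ he₀
    have m1 := ne _ hx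
    have m2 := ne _ hy
    have m3 := ne _ hu
    have m4 := ne _ hv
    have hs : ({e₀, x, y, u, v} : Finset ℕ) ⊆ s.E :=
      insert_subset (w.sb he₀) (insert_subset (w.sb hx) (insert_subset (w.sb hy)
        (insert_subset (w.sb hu) (singleton_subset_iff.2 (w.sb hv)))))
    have hc : ({e₀, x, y, u, v} : Finset ℕ).card = 5 := by
      rw [card_insert_of_notMem (by simp [n1, n2, n3, n4]),
        card_insert_of_notMem (by simp [n5, n6, n7]), card_insert_of_notMem (by simp [n8, n9]),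
        card_pair n10]
    have h6 := hQ e₀ x y u v hs hc t1 t2 dp
    have hE : insert f {e₀, x, y, u, v} = s.E :=
      eq_of_subset_of_card_le (insert_subset hf hs)
        (by rw [card_insert_of_notMem (by simp [m0, m1, m2, m3, m4]), hc]; exact h6)
    have a1 := (tc_pair w.isK c h4 (w.sb he₀) hf m0.symm).2
    have e1 : (s.E.erase f).erase e₀ = {x, y, u, v} := by
      rw [← hE]
      ext z; simp only [mem_insert, mem_erase, mem_singleton]; grind
    have e2 : s.E \ {e₀, u, v} = {x, y, f} := by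
      rw [← hE]
      ext z; simp only [mem_insert, mem_sdiff, mem_singleton]; grind
    rw [e1] at a1
    rw [e2] at t2
    exact not2 w c h4 hx hy hf hb n5 (by omega) (h2 x hx)

end Pool.Agent.P.MP_e0c037_lc.AR
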