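import Pool.Agent.P.MP_e0c037_lc.AR.Sets
import Pool.Agent.P.MP_e0c037_lc.WP.Low
import Pool.Agent.P.MP_e0c037_lc.WP.Eng

/-! Hardness on the two arcs above the threshold. -/

namespace Pool.Agent.P.MP_e0c037_lc.AR

open WP

variable {q a t : ℝ} {I : ℝ → Prop}

theorem X_b (hq : q = 2 * (1 - a ^ 2)) (a1 : a < 1) : X q (2 * a - 1) = -a := by
  have : 1 - (2 * a - 1) ≠ 0 := by linarith
  unfold X
  rw [hq]
  field_simp
  ring

theorem has_d (hq : q = 2 * (1 - a ^ 2)) (a0 : 0 < a) (a1 : a < 1) (hc : Cl q I)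
    (hb : I (2 * a - 1)) : I (-1) := by
  have h1 : 1 - -a * -a ≠ 0 := by nlinarith
  have := hc.ser _ _ hb hb (by rw [X_b hq a1]; intro h; exact h1 (by linarith))
  rw [X_b hq a1] at this
  convert this using 1
  unfold X
  rw [hq, show 2 * (1 - a ^ 2) = 2 * (1 - -a * -a) by ring, mul_div_cancel_right₀ _ h1]
  ring

theorem has_zero (hq : q = 2 * (1 - a ^ 2)) (a0 : 0 < a) (a1 : a < 1) (hc : Cl q I)
    (hb : I (2 * a - 1)) : I (orb a 0) := by
  have e1 : X q (-1) = a ^ 2 := by unfold X; rw [hq]; ring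
  have h1 : 0 < a ^ 2 * a := by positivity
  have h2 : 0 < a ^ 2 - a + 1 := by nlinarith
  have := hc.ser _ _ (has_d hq a0 a1 hc hb) hb (by rw [X_b hq a1, e1]; linarith)
  rw [X_b hq a1, e1] at this
  convert this using 1
  have e2 : 1 - a ^ 2 * -a = (1 + a) * (a ^ 2 - a + 1) := by ring
  unfold X orb
  rw [hq, e2, show 2 * (1 - a ^ 2) = (1 + a) * (2 * (1 - a)) by ring,
    mul_div_mul_left _ _ (by linarith), div_eq_iff h2.ne', sub_mul, div_mul_cancel₀ _ h2.ne']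
  ring

theorem has_step (hq : q = 2 * (1 - a ^ 2)) (a0 : 0 < a) (a1 : a < 1) (hc : Cl q I)
    (hb : I (2 * a - 1)) (ht : I t) (t1 : t < 2 * a - 1) :
    I (((2 * a - 1) * t + 1 - 2 * a ^ 2) / (2 * a ^ 2 - 2 * a + 1 - t)) ∧
      ((2 * a - 1) * t + 1 - 2 * a ^ 2) / (2 * a ^ 2 - 2 * a + 1 - t) < 1 := by
  have h1 : 0 < 2 * a ^ 2 - 2 * a + 1 - t := by nlinarith [sq_nonneg (1 - a)]
  have h2 : 0 < 1 - t := by linarith
  have e1 : 1 - X q t * -a = (1 + a) * (2 * a ^ 2 - 2 * a + 1 - t) / (1 - t) := by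
    unfold X
    rw [hq]
    field_simp
    ring
  have h3 : 0 < 1 - X q t * -a := by rw [e1]; positivity
  have h4 : ((2 * a - 1) * t + 1 - 2 * a ^ 2) / (2 * a ^ 2 - 2 * a + 1 - t) < 1 := by
    rw [div_lt_one h1]
    nlinarith
  have h5 := hc.ser _ _ ht hb (by rw [X_b hq a1]; linarith)
  rw [X_b hq a1] at h5
  have e2 : X q (X q t * -a) * -1 =
      ((2 * a - 1) * t + 1 - 2 * a ^ 2) / (2 * a ^ 2 - 2 * a + 1 - t) := by
    rw [X, e1, hq, div_div_eq_mul_div,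
      show 2 * (1 - a ^ 2) * (1 - t) = (1 + a) * (2 * (1 - a) * (1 - t)) by ring,
      mul_div_mul_left _ _ (by linarith), eq_div_iff h1.ne', mul_right_comm, sub_mul,
      div_mul_cancel₀ _ h1.ne']
    ring
  exact ⟨e2 ▸ hc.par _ _ h5 (has_d hq a0 a1 hc hb) (by rw [e2]; exact h4.ne), h4⟩

theorem big_of (hq : q = 2 * (1 - a ^ 2)) (a0 : 0 < a) (a1 : a < 1) (hc : Cl q I)
    (hb : I (2 * a - 1)) (ht : I t) (t0 : 2 * a - 1 < t) (t1 : t < 1) : Big I := by
  have q0 : 0 < q := by rw [hq]; nlinarith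
  have h1 : X q t < -a := by
    have : 1 + a < q / (1 - t) := by
      rw [lt_div_iff₀ (by linarith), hq]
      nlinarith
    unfold X
    linarith
  rcases lt_or_ge (X q t) (-1) with h | h
  · exact Big.of_dual q0 ((hc.dual q0.ne').big (hc.dl q0.ne' ht)
      (by rw [abs_of_neg (by linarith)]; linarith))
  · have h2 : X q t * -a < 1 := by nlinarith
    have h3 := hc.ser _ _ ht hb (by rw [X_b hq a1]; exact h2.ne)
    rw [X_b hq a1] at h3
    have h4 : 2 < q / (1 - X q t * -a) := by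
      rw [lt_div_iff₀ (by linarith)]
      nlinarith
    have h5 : X q (X q t * -a) < -1 := by
      rw [X]
      linarith
    exact hc.big h3 (by rw [abs_of_neg (by linarith)]; linarith)

theorem big_arc (hq : q = 2 * (1 - a ^ 2)) (a0 : 0 < a) (a1 : a < 1) (q1 : q < 1)
    (h : a ^ 4 + a < 1) (ho : ∀ i, orb a i ≠ 2 * a - 1) (hc : Cl q I) (hb : I (2 * a - 1)) :
    Big I := by
  have a2 : 7 / 10 < a := by nlinarith
  have h2 : 0 < a ^ 2 - a + 1 := by nlinarith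
  have e0 : orb a 0 * (a ^ 2 - a + 1) = a ^ 2 + a - 1 := by
    rw [orb, div_mul_cancel₀ _ h2.ne']
  obtain ⟨b, hb0⟩ : ∃ b, b = orb a 0 := ⟨_, rfl⟩
  rw [← hb0] at e0
  have b1 : (1 - a) ^ 2 ≤ b := by
    refine le_of_mul_le_mul_right ?_ h2
    rw [e0]
    nlinarith
  have b2 : b < 2 * a - 1 := by
    refine lt_of_mul_lt_mul_right ?_ h2.le
    rw [e0]
    nlinarith [mul_pos a0 (pow_pos (sub_pos.2 a1) 2)]
  obtain ⟨d, hd⟩ : ∃ d, d = b ^ 2 - 2 * (1 - a) ^ 2 * b - (2 * a ^ 2 - 1) := ⟨_, rfl⟩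
  have d0 : 0 < d := by
    have e1 : d * (a ^ 2 - a + 1) ^ 2 = 4 * (1 - a) ^ 2 * (1 - (a ^ 4 + a)) := by
      rw [hd]
      linear_combination (b * (a ^ 2 - a + 1) + (a ^ 2 + a - 1) -
        2 * (1 - a) ^ 2 * (a ^ 2 - a + 1)) * e0
    refine pos_of_mul_pos_left (b := (a ^ 2 - a + 1) ^ 2) ?_ (sq_nonneg _)
    rw [e1]
    exact mul_pos (mul_pos four_pos (pow_pos (sub_pos.2 a1) 2)) (sub_pos.2 h)
  have key : ∀ i : ℕ, Big I ∨ (I (orb a i) ∧ b + i * d ≤ orb a i ∧ orb a i < 2 * a - 1) := by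
    intro i
    induction i with
    | zero => exact Or.inr ⟨has_zero hq a0 a1 hc hb, by simp [hb0], hb0 ▸ b2⟩
    | succ i ih =>
      rcases ih with ih | ⟨i1, i2, i3⟩
      · exact Or.inl ih
      obtain ⟨s1, s2⟩ := has_step hq a0 a1 hc hb i1 i3
      rcases lt_trichotomy (orb a (i + 1)) (2 * a - 1) with c | c | c
      · refine Or.inr ⟨s1, ?_, c⟩
        have j0 : 0 ≤ (i : ℝ) * d := by positivity
        have h1 : 0 < 2 * a ^ 2 - 2 * a + 1 - orb a i := by nlinarith [sq_nonneg (1 - a)]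
        have h3 : orb a i + d ≤ orb a (i + 1) := by
          rw [orb, le_div_iff₀ h1]
          generalize orb a i = t at *
          have j1 : 0 ≤ (t - b) * (t + b - 2 * (1 - a) ^ 2) :=
            mul_nonneg (by linarith) (by linarith)
          have j2 : d * (2 * a ^ 2 - 2 * a + 1 - t) ≤ d * 1 :=
            mul_le_mul_of_nonneg_left (by nlinarith [sq_nonneg (1 - a)]) d0.le
          nlinarith
        push_cast
        linarith
      · exact absurd c (ho _)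
      · exact Or.inl (big_of hq a0 a1 hc hb s1 c s2)
  obtain ⟨i, hi⟩ := exists_nat_ge (1 / d)
  rw [div_le_iff₀ d0] at hi
  rcases key i with k | ⟨-, k1, k2⟩
  · exact k
  · nlinarith [sq_nonneg (1 - a)]

theorem hard_arc {v : ℝ} (h0 : Arc a q v) (q1 : q < 1) (h : a ^ 4 + a < 1)
    (ho : ∀ i, orb a i ≠ 2 * a - 1) : Hard q v := by
  obtain ⟨a0, a1, hq, hv⟩ := h0
  have q0 : 0 < q := by rw [hq]; nlinarith
  have hq' : q ≠ 0 ∧ q ≠ 1 := ⟨q0.ne', q1.ne⟩
  have hc := cl_im (v := v) hq'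
  have y1 : 1 + v < 1 := by rcases hv with rfl | rfl <;> linarith
  have hy : Im q v (1 + v) ∧ 1 + v ≠ 1 := ⟨Im.base, y1.ne⟩
  refine p_Eng.hard hq' (p_Low q _ (1 + v) q0 (by linarith) q1.ne hc ?_ hy y1)
  rcases hv with rfl | rfl
  · refine Big.of_dual q0 (big_arc hq a0 a1 q1 h ho (hc.dual q0.ne') ?_)
    convert hc.dl q0.ne' hy using 1
    have : 1 - (1 + (-1 - a)) ≠ 0 := by linarith
    unfold X
    rw [hq]
    field_simp
    ring
  · exact big_arc hq a0 a1 q1 h ho hc (by convert hy using 2 <;> ring)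

end Pool.Agent.P.MP_e0c037_lc.AR
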