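import Pool.Agent.P.MP_e0c037_lc.AR.Base

/-! Series pairs outside a minimal two-separating set are kept. -/

namespace Pool.Agent.P.MP_e0c037_lc.AR

open Finset SG BD

namespace KeepP

variable {k : KF}

/-- Adding spanned elements does not change the count. -/
theorem union_cl (h : IsK k) {A B : Finset ℕ} (hAB : A ⊆ B) (T : Finset ℕ)
    (hT : ∀ x ∈ T, k (insert x A) = k A) : k (B ∪ T) = k B := by
  induction T using Finset.induction_on with
  | empty => simp
  | insert x T _ ih =>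
    rw [union_insert, h.dim A (B ∪ T) x (hAB.trans subset_union_left) (hT x (mem_insert_self _ _))]
    exact ih fun y hy => hT y (mem_insert_of_mem hy)

/-- A removed element has a parallel partner. -/
theorem rm_par {S F F' : Finset ℕ} (r : Rm k S F F') {a : ℕ} (ha : a ∈ F) (ha' : a ∉ F') :
    a ∈ S ∧ ∃ g ∈ F, g ∈ S ∧ a ≠ g ∧ Par k a g := by
  induction r with
  | refl => exact absurd ha ha'
  | @step F F' x y hx hy sx sy hxy p _ ih =>
    by_cases h1 : a = x
    · subst h1; exact ⟨sx, y, hy, sy, hxy, p⟩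
    by_cases h2 : a = y
    · subst h2; exact ⟨sy, x, hx, sx, hxy.symm, p.symm⟩
    obtain ⟨i1, g, i2, i3⟩ := ih (mem_erase.2 ⟨h2, mem_erase.2 ⟨h1, ha⟩⟩) ha'
    exact ⟨i1, g, mem_of_mem_erase (mem_of_mem_erase i2), i3⟩

end KeepP

open KeepP

theorem p_Keep : S_Keep := by
  intro k E Y S e hk hc hY h3 hl hm he hr hS hred
  have a1 := hm (Y.erase e) (erase_subset _ _) (erase_ne_self.2 he)
    (by rw [card_erase_of_mem he]; omega)
  have e1 : E \ Y.erase e = insert e (E \ Y) := sdiff_erase (hY he)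
  have a2 := hk.anti (erase_subset e Y)
  have a3 := hk.ge (E \ Y) e
  unfold lam at a1 hl
  rw [e1] at a1
  have hser : ∀ B ⊆ E \ Y, k B = k (insert e B) + 1 := fun B hB => ser_eq hk (by omega) hB
  have hne : ∀ x ∈ E \ Y, x ≠ e := fun x hx hh => (mem_sdiff.1 hx).2 (hh ▸ he)
  have hsing : ∀ x ∈ E \ Y, k (E.erase x) = k E := fun x hx =>
    (hc.single hk (mem_sdiff.1 hx).1 (hY he) (hne x hx)).2
  have hins : ∀ x ∈ E \ Y, ∀ y ∈ E \ Y,
      insert e (((E.erase e).erase y).erase x) = (E.erase y).erase x := by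
    intro x hx y hy
    rw [erase_right_comm (a := e), erase_right_comm (a := e),
      insert_erase (mem_erase.2 ⟨(hne x hx).symm, mem_erase.2 ⟨(hne y hy).symm, hY he⟩⟩)]
  refine ⟨fun x hx y hy p => ⟨hsing x hx, hsing y hy, ?_⟩, fun E1 c x hx y hy sx sy p =>
    ⟨hsing x hx, hsing y hy, ?_⟩⟩
  · have b1 : Y.erase e ⊆ ((E.erase e).erase y).erase x := fun z hz => by
      obtain ⟨z1, z2⟩ := mem_erase.1 hz
      exact mem_erase.2 ⟨fun hh => (mem_sdiff.1 hx).2 (hh ▸ z2),
        mem_erase.2 ⟨fun hh => (mem_sdiff.1 hy).2 (hh ▸ z2), mem_erase.2 ⟨z1, hY z2⟩⟩⟩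
    have b2 := hk.dim _ _ e b1 (by rw [insert_erase he]; omega)
    rw [hins x hx y hy] at b2
    rw [b2, p.2.2, (hc.single hk (hY he) (mem_sdiff.1 hx).1 (hne x hx).symm).2]
  · have hk1 := hk.con e
    have xE : x ∈ E1 := c.mem' (mem_sdiff.1 hx).1 (hne x hx) sx
    have sE : E1 ⊆ E := c.subset.trans (erase_subset _ _)
    have b0 : E1 \ (E1 ∩ Y) ⊆ E \ Y := fun z hz => by
      rw [mem_sdiff, mem_inter] at hz
      exact mem_sdiff.2 ⟨sE hz.1, fun hh => hz.2 ⟨hz.1, hh⟩⟩
    have b1 := hk.anti (insert_subset_insert e b0)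
    have b2 := c.span
    have s0 := hser ∅ (empty_subset _)
    have sR := hser _ Subset.rfl
    have hn : (E1 ∩ Y).Nonempty := by
      by_contra hn
      rw [not_nonempty_iff_eq_empty.1 hn, sdiff_empty] at b1
      omega
    have b3 := c.conn (E1 ∩ Y) inter_subset_left hn
      ⟨x, mem_sdiff.2 ⟨xE, fun hh => (mem_sdiff.1 hx).2 (mem_inter.1 hh).2⟩⟩
    have b4 : con k e (E1 ∩ Y) ≤ k Y := by
      unfold con at b3 ⊢
      omega
    have hYc : ∀ g ∈ Y, con k e (insert g (E1 ∩ Y)) = con k e (E1 ∩ Y) := fun g hg =>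
      le_antisymm (hk1.le _ _) (b4.trans (hk.anti
        (insert_subset he (insert_subset hg inter_subset_right))))
    have hcl : ∀ a ∈ E.erase e \ E1, con k e (insert a (E1 ∩ Y)) = con k e (E1 ∩ Y) := by
      intro a ha
      obtain ⟨ha1, ha2⟩ := mem_sdiff.1 ha
      by_cases haY : a ∈ Y
      · exact hYc a haY
      obtain ⟨aS, g, g1, gS, hag, pa⟩ := rm_par c.rm ha1 ha2
      have aR : a ∈ E \ Y := mem_sdiff.2 ⟨mem_of_mem_erase ha1, haY⟩
      have hgY : g ∈ Y := by
        by_contra hgY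
        exact hred a aS g gS hag (par_congr (c := 1) (c' := 0) (fun A hA => (hser A hA).symm) aR
          (mem_sdiff.2 ⟨mem_of_mem_erase g1, hgY⟩) pa)
      have d1 := par_eq hk1 pa.symm.1 pa.symm.2.2 (E1 ∩ Y)
      have d2 := hk1.anti (insert_subset_insert a (subset_insert g (E1 ∩ Y)))
      have d3 := hk1.le (E1 ∩ Y) a
      have d4 := hYc g hgY
      omega
    have b5 : E1 ∩ Y ⊆ (E1.erase y).erase x := fun z hz => by
      obtain ⟨z1, z2⟩ := mem_inter.1 hz
      exact mem_erase.2 ⟨fun hh => (mem_sdiff.1 hx).2 (hh ▸ z2),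
        mem_erase.2 ⟨fun hh => (mem_sdiff.1 hy).2 (hh ▸ z2), z1⟩⟩
    have b6 := union_cl hk1 b5 _ hcl
    have yE : y ∈ E1 := c.mem' (mem_sdiff.1 hy).1 (hne y hy) sy
    have e2 : (E1.erase y).erase x ∪ E.erase e \ E1 = ((E.erase e).erase y).erase x := by
      ext z
      have : z ∈ E1 → z ∈ E.erase e := fun hh => c.subset hh
      simp only [mem_union, mem_erase, mem_sdiff] at this ⊢
      by_cases h1 : z ∈ E1
      · tauto
      · have h2 : z ≠ x := fun hh => h1 (hh ▸ xE)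
        have h3 : z ≠ y := fun hh => h1 (hh ▸ yE)
        tauto
    rw [e2, p.2.2] at b6
    unfold con at b6
    rw [hins x hx y hy] at b6
    omega

end Pool.Agent.P.MP_e0c037_lc.AR
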