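import Pool.Agent.P.MP_e0c037_lc.AR.Base
import Pool.Agent.P.MP_e0c037_lc.SG.Lift
import Pool.Agent.P.MP_e0c037_lc.BD.LiftB

/-! Lifting good special moves from a torso to the whole count. -/

namespace Pool.Agent.P.MP_e0c037_lc.AR

open Finset SG BD

namespace LiftP

open BD.LiftB

variable {k k' : KF} {X R SA SB : Finset ℕ} {f x y n c : ℕ}

/-- No nonempty part of the outside is a separator. -/
def LamR (k : KF) (X R : Finset ℕ) : Prop :=
  ∀ D ⊆ R, D.Nonempty → k D + k (X ∪ R \ D) < k ∅ + k (X ∪ R)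

theorem key_del (d : Dat k k' X R SA SB f) (hy : y ∈ X) (h : k' (X.erase y) = k' X)
    (T : Finset ℕ) : k (X.erase y ∪ T) = k (X ∪ T) := by
  have a1 := d.t1 X Subset.rfl
  have a2 := d.t1 _ (erase_subset y X)
  have := d.isK.dim (X.erase y) (X.erase y ∪ T) y subset_union_left
    (by rw [insert_erase hy]; omega)
  rw [← insert_union, insert_erase hy] at this
  exact this.symm

theorem LamR.del (l : LamR k X R) (d : Dat k k' X R SA SB f) (hy : y ∈ X)
    (h : k' (X.erase y) = k' X) : LamR k (X.erase y) R := fun D hD hn => by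
  rw [key_del d hy h, key_del d hy h]
  exact l D hD hn

theorem key_con (hy : y ∈ X) (T : Finset ℕ) : con k y (X.erase y ∪ T) = k (X ∪ T) := by
  unfold con
  rw [← insert_union, insert_erase hy]

theorem LamR.con (l : LamR k X R) (d : Dat k k' X R SA SB f) (hy : y ∈ X)
    (h : k' {f, y} + 2 = k' ∅) : LamR (con k y) (X.erase y) R := fun D hD hn => by
  have sy : ({y} : Finset ℕ) ⊆ X := singleton_subset_iff.2 hy
  have a1 := d.t1 _ sy
  have a2 := d.t2 _ sy
  have a3 := d.isK'.ge ∅ y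
  have a4 := d.isK'.ge {y} f
  rw [insert_empty_eq] at a3
  rw [← insert_eq] at a2
  have a5 : k R = k (insert y R) + 1 := by omega
  have b0 := ser_eq d.isK a5 (empty_subset R)
  have b1 := ser_eq d.isK a5 hD
  have := l D hD hn
  rw [key_con hy, key_con hy]
  unfold MP_e0c037_lc.con
  omega

theorem main {t1 t' : Sta} (m : Mr t1 t' n c) : t1.WF → ∀ (k : KF) (X : Finset ℕ),
    t1.E = insert f X → t1.A ⊆ X → t1.B ⊆ X → Dat k t1.k X R SA SB f → LamR k X R →
    t'.k (t'.E.erase f) ≤ t1.k X →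
    ∃ k2 X2, t'.E = insert f X2 ∧ t'.A ⊆ X2 ∧ t'.B ⊆ X2 ∧ Dat k2 t'.k X2 R SA SB f ∧
      LamR k2 X2 R ∧ k2 (X2 ∪ R) = k (X ∪ R) ∧
      Mr ⟨k, X ∪ R, t1.A ∪ SA, t1.B ∪ SB⟩ ⟨k2, X2 ∪ R, t'.A ∪ SA, t'.B ∪ SB⟩ n c := by
  induction m with
  | refl => exact fun _ k X e a b d l _ => ⟨k, X, e, a, b, d, l, rfl, .refl _⟩
  | @can s t n c x y a b hxy p m ih =>
    intro w k X e hA hB d l hr
    have hx := hA a
    have hy := hA b
    have hx' : x ∈ X.erase y := mem_erase.2 ⟨hxy, hx⟩
    have e1 : (AR.can s x y).E = insert f ((X.erase y).erase x) := by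
      simp only [AR.can]
      rw [e, erase_insert_of_ne (d.ne hy), erase_insert_of_ne (d.ne hx)]
    have a1 := m.mono_erase (f := f) (wf_can w a b) fun hh => d.nf (hB hh)
    rw [e1, erase_insert fun hh => d.nf (mem_of_mem_erase (mem_of_mem_erase hh))] at a1
    have a2 := w.isK.anti (erase_subset y X)
    have a3 := w.isK.anti (erase_subset x (X.erase y))
    simp only [AR.can] at a1
    have h1 : s.k (X.erase y) = s.k X := by omega
    have h2 : s.k ((X.erase y).erase x) = s.k (X.erase y) := by omega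
    have d1 := d.del hy h1
    obtain ⟨k2, X2, e2, a2, b2, d2, l2, r2, m2⟩ := ih (wf_can w a b) k ((X.erase y).erase x) e1
      (erase_subset_erase _ (erase_subset_erase _ hA))
      (subset_erase.2 ⟨subset_erase.2 ⟨hB, disjoint_left.1 w.dj b⟩, disjoint_left.1 w.dj a⟩)
      (d1.del hx' h2) ((l.del d hy h1).del d1 hx' h2) (by simp only [AR.can]; omega)
    refine ⟨k2, X2, e2, a2, b2, d2, l2, ?_, .can (mem_union_left _ a) (mem_union_left _ b) hxy
      ((d.par hx hy).1 p) ?_⟩
    · rw [r2, key_del d1 hx' h2, key_del d hy h1]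
    · simp only [AR.can] at m2 ⊢
      rwa [erase_un (d.nR hy), erase_un (d.nR hx), erase_un (fun hh => d.nR hy (d.sa hh)),
        erase_un (fun hh => d.nR hx (d.sa hh))]
  | @ser s t n c x y a b hxy p _ ih =>
    intro w k X e hA hB d l hr
    have hx := hB a
    have hy := hB b
    have f1 := (p.facts w.isK (w.sb a) (w.sb b) hxy).2 {f} (singleton_subset_iff.2
      (mem_erase.2 ⟨d.ne hx, mem_erase.2 ⟨d.ne hy, e ▸ mem_insert_self f X⟩⟩))
    have f2 := d.t2 ∅ (empty_subset _)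
    rw [pair_comm] at f1
    rw [insert_empty_eq, empty_union] at f2
    have f3 : s.k {f, y} + 2 = s.k ∅ := by omega
    obtain ⟨k2, X2, e2, a2, b2, d2, l2, r2, m2⟩ := ih (w.ser a hxy b) (con k y) (X.erase y)
      (by simp only [Sta.ser]; rw [e, erase_insert_of_ne (d.ne hy)])
      (insert_subset (mem_erase.2 ⟨hxy, hx⟩)
        (subset_erase.2 ⟨hA, disjoint_right.1 w.dj b⟩))
      ((erase_subset _ _).trans (erase_subset_erase _ hB))
      (d.con hy f3) (l.con d hy f3) (by simp only [Sta.ser, con]; rwa [insert_erase hy])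
    refine ⟨k2, X2, e2, a2, b2, d2, l2, r2.trans (key_con hy R),
      .ser (mem_union_left _ a) (mem_union_left _ b) hxy ((d.ser hx hy).1 (e ▸ p)) ?_⟩
    simp only [Sta.ser] at m2 ⊢
    rwa [erase_un (d.nR hy), erase_un (fun hh => d.nR hy (d.sb hh)),
      erase_un (fun hh => d.nR hx (d.sb hh)), ← insert_union]

end LiftP

open BD.LiftB LiftP in
theorem p_Lift : S_Lift := by
  intro s t' k' Y f e n c w rd hc0 hk' hY hf ht hc h3 he gd
  obtain ⟨hfE, hfY⟩ := mem_sdiff.1 hf
  have hfe : f ≠ e := fun hh => hfY (hh ▸ he)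
  have hE : Y ∪ s.E \ Y = s.E := union_sdiff_of_subset hY
  have d0 : Dat s.k k' Y (s.E \ Y) (s.A \ Y) (s.B \ Y) f :=
    ⟨w.isK, hk', hfY, disjoint_sdiff, sdiff_subset_sdiff w.sa Subset.rfl,
      sdiff_subset_sdiff w.sb Subset.rfl, fun D hD => (ht D hD).1, fun D hD => (ht D hD).2,
      rd.1.mono sdiff_subset, by rw [hE]; exact rd.2.mono sdiff_subset⟩
  have l0 : LamR s.k Y (s.E \ Y) := fun D hD hn => by
    have e1 : s.E \ D = Y ∪ (s.E \ Y) \ D := by
      conv_lhs => rw [← hE]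
      rw [union_sdiff_distrib, sdiff_eq_self_of_disjoint (d0.dj.mono_right hD)]
    have a1 := hc0 D (hD.trans sdiff_subset) hn (by rw [e1]; exact ⟨e, mem_union_left _ he⟩)
    rwa [hE, ← e1]
  obtain ⟨p1, p2⟩ := tc_pair hk' hc (by rw [card_insert_of_notMem hfY]; omega)
    (mem_insert_self f Y) (mem_insert_of_mem he) hfe
  rw [erase_right_comm, erase_insert hfY] at p2
  have p3 := hk'.le Y f
  have p4 := hk'.anti (erase_subset e Y)
  have p5 : k' (Y.erase e) = k' Y := by omega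
  have w0 : Sta.WF ⟨k', insert f Y, s.A ∩ Y, s.B ∩ Y⟩ :=
    ⟨hk', inter_subset_right.trans (subset_insert _ _),
      inter_subset_right.trans (subset_insert _ _),
      w.dj.mono inter_subset_left inter_subset_left⟩
  have w1 := gd.mr.wf (w0.del e)
  have three := gd.three (w0.del e)
  have sp : t'.k (t'.E.erase f) = t'.k t'.E := by
    by_cases hm : f ∈ t'.E
    · obtain ⟨z, hz, hzf⟩ := exists_mem_ne (show 1 < t'.E.card by omega) f
      exact (gd.conn.single w1.isK hm hz hzf.symm).2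
    · rw [erase_eq_of_notMem hm]
  have e0 : (insert f Y).erase e = insert f (Y.erase e) := erase_insert_of_ne hfe
  obtain ⟨k2, X2, e2, a2, b2, d2, l2, r2, m2⟩ := LiftP.main gd.mr (w0.del e) s.k (Y.erase e) e0
    (erase_subset_erase _ inter_subset_right) (erase_subset_erase _ inter_subset_right)
    (d0.del he p5) (l0.del d0 he p5)
    (by
      rw [sp, gd.span]
      simp only [Sta.del]
      rw [e0]
      exact hk'.le _ _)
  have eX : t'.E.erase f = X2 := by rw [e2, erase_insert d2.nf]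
  have eE : Y.erase e ∪ s.E \ Y = s.E.erase e := by
    rw [split (T := s.E) he, inter_eq_right.2 hY]
  simp only [Sta.del] at m2
  rw [eE, ← split he, ← split he] at m2
  obtain ⟨sa1, sa2⟩ := sides a2 (d2.dj.mono_right d2.sa)
  obtain ⟨sb1, sb2⟩ := sides b2 (d2.dj.mono_right d2.sb)
  have ne : X2.Nonempty := by
    rw [e2, card_insert_of_notMem d2.nf] at three
    exact card_pos.1 (by omega)
  have d3 : SG.Lift.Dat k2 t'.k X2 (s.E \ Y) f :=
    ⟨d2.isK, d2.isK', d2.dj, hf, d2.t1, d2.t2, e2 ▸ gd.conn, ne, l2⟩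
  refine ⟨_, m2, ?_⟩
  rw [eX] at sp ⊢
  refine ⟨subset_union_left, d2.lam_le, ⟨?_, ?_, ?_, ?_⟩, d3.conn_union, eE ▸ r2, ?_⟩
  · simp only [sa1]
    exact fun x hx y hy hxy p => gd.rd.1 x hx y hy hxy ((d2.par (a2 hx) (a2 hy)).2 p)
  · simp only [sa2]; exact d2.ra
  · simp only [sb1]
    exact fun x hx y hy hxy p => gd.rd.2 x hx y hy hxy (e2 ▸ (d2.ser (b2 hx) (b2 hy)).2 p)
  · simp only [sb2]; exact d2.rb
  · have a1 := d2.t1 X2 Subset.rfl
    have a3 := gd.rk
    simp only
    omega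

end Pool.Agent.P.MP_e0c037_lc.AR
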