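import Pool.Agent.P.MP_e0c037_lc.AR.Base

/-! The sign rule for large reduced connected states. -/

namespace Pool.Agent.P.MP_e0c037_lc.AR

open Finset Function SG BD

namespace Main

variable {C : KF → Finset ℕ → Prop} {q a ρ : ℝ} {J : ℕ} {τ : ℕ → ℝ}

/-- Positivity for a large potential when some element is not special. -/
def Key (C : KF → Finset ℕ → Prop) (q a r : ℝ) (N : ℕ) : Prop :=
  ∀ (s : Sta) f (v : ℕ → ℝ), C s.k s.E → s.WF → Conn s.k s.E → s.Rd → f ∈ s.E → f ∉ s.A →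
    f ∉ s.B → Wt a s v → (∀ x ∈ s.E, x ∉ s.A → x ∉ s.B → |1 + v x| ≤ r) →
    N + s.k s.E ≤ s.k ∅ + s.B.card → 0 < sg s.k s.E * Zk q s.k v s.E

theorem two {s : Sta} (w : s.WF) {N : ℕ} (h : N + 4 + s.k s.E ≤ s.k ∅ + s.B.card) :
    2 ≤ s.E.card := by
  have h1 := w.isK.rank_le s.E
  have h2 := card_le_card w.sb
  omega

theorem key (sy : Sy q a ρ J τ) (cp : ClaimP C q a ρ) (bd : Bnd C q a ρ (τ 2)) :
    ∃ N, Key C q a (τ 2) N := by
  have h1 := sy.t2
  have h2 := sy.tr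
  have h3 := sy.r1
  have h4 := sy.q1
  have t0 : 0 < τ 2 := sy.t0
  obtain ⟨M, hM⟩ := bd ((ρ - τ 2) * (1 - q) / 2)
    (half_pos (mul_pos (by linarith) (by linarith)))
  refine ⟨M + 4, fun s f v hC w hc r hf ha hb hv hn hN => ?_⟩
  have h2E := two w hN
  have b1 := hM s f (update v f (ρ / τ 2 * (1 + v f) - 1)) hC w hc r hf ha hb h2E
    (hv.upd ha hb _)
    (by
      rw [update_self, add_sub_cancel, abs_mul, abs_of_pos (div_pos (by linarith) t0),
        div_mul_eq_mul_div, div_le_iff₀ t0]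
      exact mul_le_mul_of_nonneg_left (hn f hf ha hb) (by linarith))
    (fun x hx hxf h5 h6 => by rw [update_of_ne hxf]; exact hn x hx h5 h6) (by omega)
  obtain ⟨p1, -⟩ := cp s f v hC w hc r hf ha hb h2E hv
    fun x hx _ h5 h6 => (hn x hx h5 h6).trans h2.le
  obtain ⟨a1, a2⟩ := al_update (q := q) (k := s.k) (v := v) (E := s.E) (f := f)
    (ρ / τ 2 * (1 + v f) - 1)
  rw [Z_eq h4.ne hf, a1, a2, update_self, add_sub_cancel] at b1
  rw [Z_eq h4.ne hf]
  have b2 := mul_le_mul_of_nonneg_left b1 t0.le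
  have e1 : τ 2 * (ρ / τ 2 * (1 + v f) * ga q s.k v s.E f) =
      ρ * ((1 + v f) * ga q s.k v s.E f) := by field_simp
  have b3 : 0 < (ρ - τ 2) * (1 - q) * al q s.k v s.E f :=
    mul_pos (mul_pos (by linarith) (by linarith)) p1
  have b4 := mul_pos b3 (by linarith : 0 < 2 - τ 2)
  refine pos_of_mul_pos_left (b := ρ) ?_ (by linarith)
  nlinarith

theorem num {δ d X Y W : ℝ} (h0 : 0 < ρ) (h1 : ρ ≤ 2 * a - 1) (h2 : a < 1) (h4 : q < 1)
    (hδ : δ = ρ * (ρ + (2 * a - 1)) * (2 - 2 * a) - (2 * a - 1) * (2 * a - 1 - ρ) * (1 + ρ))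
    (hs : 0 < δ) (d0 : 0 < d) (p1 : 0 < X) (b1 : ρ * Y ≤ (1 - q + δ * (1 - q) / 2) * X)
    (x1 : (ρ + (2 * a - 1)) / (1 + ρ) * (d * X) ≤ W) :
    0 < (1 + (2 * a - 2)) * (d * ((1 - q) * X - (1 + (2 * a - 2)) * Y)) -
      (1 - q) * (2 * a - 2) * W := by
  have r1 : 0 < 1 + ρ := by linarith
  rw [div_mul_eq_mul_div, div_le_iff₀' r1] at x1
  have β0 : 0 < 2 * a - 1 := by linarith
  have y2 := mul_le_mul_of_nonneg_left b1 (mul_pos (mul_pos (mul_pos β0 β0) r1) d0).le
  have x3 := mul_le_mul_of_nonneg_left x1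
    (mul_pos (mul_pos (by linarith : 0 < ρ) (by linarith : 0 < 1 - q))
      (by linarith : 0 < 2 - 2 * a)).le
  have c1 : 0 < 2 - (2 * a - 1) * (2 * a - 1) * (1 + ρ) := by
    have : (2 * a - 1) * (2 * a - 1) < 1 := by nlinarith
    nlinarith
  have c2 := mul_pos (mul_pos (mul_pos hs (by linarith : 0 < 1 - q)) (mul_pos d0 p1)) c1
  have e1 : δ * ((1 - q) * (d * X)) = (ρ * (ρ + (2 * a - 1)) * (2 - 2 * a) -
      (2 * a - 1) * (2 * a - 1 - ρ) * (1 + ρ)) * ((1 - q) * (d * X)) := by rw [hδ]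
  refine pos_of_mul_pos_left (b := ρ * (1 + ρ)) ?_ (mul_pos (by linarith) r1).le
  linarith

/-- Deleting an element of `B`. -/
theorem del (mc : Mc C) (sy : Sy q a ρ J τ) (cp : ClaimP C q a ρ) (bd : Bnd C q a ρ (τ 2))
    (sz : Sz C) : ∃ N, ∀ (s t : Sta) (v : ℕ → ℝ) e f n c, C s.k s.E → s.WF → Conn s.k s.E → s.Rd →
      s.E ⊆ s.A ∪ s.B → Wt a s v → f ∈ s.B → e ∈ s.B → e ≠ f →
      al q s.k v s.E f ≤ al q s.k v s.E e → c ≤ 2 → Mr ((free s f).del e) t n c →
      Conn t.k t.E → t.Rd → t.k t.E = s.k (s.E.erase e) → N + s.k s.E ≤ s.k ∅ + s.B.card →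
      0 < sg s.k s.E * Zk q s.k v s.E := by
  have h0 := sy.r0
  have h1 := sy.rb
  have h2 := sy.a1
  have h4 := sy.q1
  have hs := sub_pos.2 sy.star
  set δ := ρ * (ρ + (2 * a - 1)) * (2 - 2 * a) - (2 * a - 1) * (2 * a - 1 - ρ) * (1 + ρ) with hδ
  obtain ⟨M, hM⟩ := bd (δ * (1 - q) / 2) (half_pos (mul_pos hs (by linarith)))
  refine ⟨M + 4 + 3 * psi (M + 4) + 14,
    fun s t v e f n c hC w hc r hE hv hf he hef hmin hc2 m tc tr tk hN => ?_⟩
  have fE := w.sb hf
  have eE := w.sb he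
  obtain ⟨s1, s2⟩ := hc.single w.isK eE fE hef
  have w1 := (free_wf w f).del e
  have wt' := m.wf w1
  have hCt : C t.k t.E := m.mc mc w1 (mc.del _ _ _ hC (erase_subset _ _))
  have v1 : Wt a ((free s f).del e) v :=
    hv.mono ((erase_subset _ _).trans (erase_subset _ _))
      ((erase_subset _ _).trans (erase_subset _ _))
  have f1 : f ∈ ((free s f).del e).E := mem_erase.2 ⟨hef.symm, fE⟩
  have f2 : f ∉ ((free s f).del e).A := fun h => notMem_erase _ _ (mem_of_mem_erase h)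
  have f3 : f ∉ ((free s f).del e).B := fun h => notMem_erase _ _ (mem_of_mem_erase h)
  obtain ⟨g1, g2, g3⟩ := (m.ns f).2 ⟨f1, f2, f3⟩
  have hns : ∀ x ∈ t.E, x ≠ f → x ∉ t.A → x ∉ t.B → False := fun x hx hxf xa xb => by
    obtain ⟨i1, i2, i3⟩ := (m.ns x).1 ⟨hx, xa, xb⟩
    have hxe := ne_of_mem_erase i1
    rcases mem_union.1 (hE (mem_of_mem_erase i1)) with h | h
    · exact i2 (mem_erase.2 ⟨hxe, mem_erase.2 ⟨hxf, h⟩⟩)
    · exact i3 (mem_erase.2 ⟨hxe, mem_erase.2 ⟨hxf, h⟩⟩)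
  have hpot : M + 4 + t.k t.E ≤ t.k ∅ + t.B.card := by
    by_contra hlt
    obtain ⟨z1, z2, -, z4⟩ := m.size w1
    have z5 := (sz _ _ _ hCt tc wt'.sa tr.1).trans (psi_mono (m' := M + 4) (by omega))
    have z6 := card_erase_add_one hf
    have z7 := card_erase_add_one (mem_erase.2 ⟨hef, he⟩)
    simp only [free, Sta.del] at z1 z2 z4
    omega
  have t2 := two wt' hpot
  have b1 := hM t f (update (wt a t v) f (ρ - 1)) hCt wt' tc tr g1 g2 g3 t2
    ((wt_Wt wt').upd g2 g3 _) (by rw [update_self, add_sub_cancel, abs_of_pos (by linarith)])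
    (fun x hx hxf xa xb => (hns x hx hxf xa xb).elim) (by omega)
  obtain ⟨p1, -⟩ := cp t f (wt a t v) hCt wt' tc tr g1 g2 g3 t2 (wt_Wt wt')
    fun x hx hxf xa xb => (hns x hx hxf xa xb).elim
  obtain ⟨a1, a2⟩ := al_update (q := q) (k := t.k) (v := wt a t v) (E := t.E) (f := f) (ρ - 1)
  rw [Z_eq h4.ne g1, a1, a2, update_self, add_sub_cancel] at b1
  obtain ⟨d, d0, d1, -, d3⟩ := m.scale (q := q) sy.hq sy.a1 w1 tk v1 f1 f2 f3
  rw [Z_eq h4.ne g1, wt_N g2 g3, hv.wb f hf] at d3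
  obtain ⟨m1, m2, m3, m4, m5⟩ := sy.mix
  obtain ⟨x1, -⟩ := al_mix (q := q) (v := v) eE hef s1 s2 ((hv.wb e he).trans m1)
  obtain ⟨p2, -⟩ := cp (free (free s f) e) f (update v e (-1 - ρ)) hC (free_wf (free_wf w f) e) hc
    (free_rd (free_rd r f) e) fE f2 f3 (by
      have := card_le_card (insert_subset eE (singleton_subset_iff.2 fE))
      rwa [card_pair hef] at this)
    ((hv.mono (t := free s f) (erase_subset _ _) (erase_subset _ _)).free e _)
    fun x hx hxf xa xb => by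
      have hxe : x = e := by
        by_contra hxe
        rcases mem_union.1 (hE hx) with h | h
        · exact xa (mem_erase.2 ⟨hxe, mem_erase.2 ⟨hxf, h⟩⟩)
        · exact xb (mem_erase.2 ⟨hxe, mem_erase.2 ⟨hxf, h⟩⟩)
      rw [hxe, update_self]
      exact m5
  simp only [free, Sta.del] at d1 d3 p2
  rw [m3, d1] at x1
  rw [Z_del h4.ne eE, hv.wb e he, ← sg_del s2, d3]
  have x2 := mul_pos m2 p2
  exact num h0 h1 h2 h4 hδ hs d0 p1 (by linarith) (by linarith)

/-- The contraction term of a mutual pair. -/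
theorem ctr {N : ℕ} (mc : Mc C) (sy : Sy q a ρ J τ) (K : Key C q a (τ 2) N) {s : Sta}
    {v : ℕ → ℝ} {e g : ℕ} {E1 : Finset ℕ} (hC : C s.k s.E) (w : s.WF) (r : s.Rd)
    (hE : s.E ⊆ s.A ∪ s.B) (hv : Wt a s v) (he : e ∈ s.A) (hg : g ∈ s.A) (heg : e ≠ g)
    (c : Ctr s.k s.E (s.A.erase g) e E1) (hk : Kp s.k s.E s.B e E1)
    (hN : N + 2 + s.k s.E ≤ s.k ∅ + s.B.card) :
    0 < sg (con s.k e) (s.E.erase e) *
      Zk q (con s.k e) (update v g (a - 2)) (s.E.erase e) := by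
  have w1 := free_wf w g
  have v1 := hv.free g (a - 2)
  rw [c.Z_eq w.isK fun x hx _ => v1.wa x hx, ← c.sg_eq]
  obtain ⟨g1, g2, g3⟩ := (ctrS_ns (s := free s g) c g).2
    ⟨heg.symm, w.sa hg, notMem_erase _ _, notMem_erase _ _⟩
  refine K (ctrS (free s g) e E1) g _ (mc.del _ _ _ (mc.con _ _ e hC c.mem) c.subset)
    (ctrS_wf w1 c fun h => disjoint_left.1 w.dj he (mem_of_mem_erase h)) c.conn
    (ctrS_rd (free_rd r g).2 c hk (erase_subset _ _)) g1 g2 g3 (v1.ctrS e E1)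
    (fun x hx xa xb => ?_) ?_
  · obtain ⟨-, i1, i2, i3⟩ := (ctrS_ns (s := free s g) c x).1 ⟨hx, xa, xb⟩
    have hxg : x = g := by
      by_contra hxg
      rcases mem_union.1 (hE i1) with h | h
      · exact i2 (mem_erase.2 ⟨hxg, h⟩)
      · exact i3 (mem_erase.2 ⟨hxg, h⟩)
    rw [hxg, update_self]
    exact sy.wa.2
  · obtain ⟨i1, i2, -⟩ := ctrS_rk w1 c
    have i3 := pred_card_le_card_erase (s := s.B) (a := g)
    simp only [ctrS, free] at i1 i2 ⊢
    omega

theorem only {s : Sta} (hE : s.E ⊆ s.A ∪ s.B) {e g x : ℕ} (hx : x ∈ s.E.erase g)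
    (xa : x ∉ (s.A.erase g).erase e) (xb : x ∉ (s.B.erase g).erase e) : x = e := by
  by_contra hxe
  have hxg := ne_of_mem_erase hx
  rcases mem_union.1 (hE (mem_of_mem_erase hx)) with h | h
  · exact xa (mem_erase.2 ⟨hxe, mem_erase.2 ⟨hxg, h⟩⟩)
  · exact xb (mem_erase.2 ⟨hxe, mem_erase.2 ⟨hxg, h⟩⟩)

theorem card2 (B : Finset ℕ) (e g : ℕ) : B.card ≤ ((B.erase g).erase e).card + 2 := by
  have i1 := pred_card_le_card_erase (s := B) (a := g)
  have i2 := pred_card_le_card_erase (s := B.erase g) (a := e)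
  omega

end Main

theorem p_Main : S_Main := by
  intro C q a ρ J τ mc st sy cp bd sz ⟨NS, hS⟩
  obtain ⟨N0, K⟩ := Main.key sy cp bd
  obtain ⟨N1, D⟩ := Main.del mc sy cp bd sz
  refine ⟨psi (N0 + N1 + NS + 3) + (N0 + N1 + NS + 3), fun s v hC w hc r hE hv hM => ?_⟩
  induction hn : s.A.card using Nat.strong_induction_on generalizing s v with
  | _ n ih =>
  have h := w.isK
  have hN : N0 + N1 + NS + 3 + s.k s.E ≤ s.k ∅ + s.B.card := by
    by_contra hlt
    have z1 := (sz _ _ _ hC hc w.sa r.1).trans (psi_mono (m' := N0 + N1 + NS + 3) (by omega))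
    have z2 := (card_le_card hE).trans (card_union_le _ _)
    have z3 := h.anti (empty_subset s.E)
    omega
  rcases s.B.eq_empty_or_nonempty with hB | hB
  · have hA : s.E ⊆ s.A := by simpa [hB] using hE
    have := hS s.k s.E hC hc (r.1.mono hA) (by rw [hB, card_empty] at hN; omega)
    rwa [Zk_congr (k' := s.k) (v' := fun _ => -2) (fun _ _ => rfl) fun x hx => hv.wa x (hA hx)]
  obtain ⟨f, hf, hmin⟩ := exists_min_image s.B (fun x => al q s.k v s.E x) hB
  have hfA : s.A.erase f = s.A := erase_eq_of_notMem (disjoint_right.1 w.dj hf)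
  have hp : ∀ e ∈ s.B, ∀ g ∈ s.A, e ≠ f → Par s.k g e → 0 < sg s.k s.E * Zk q s.k v s.E := by
    intro e he g hg hef p
    have hgB := disjoint_left.1 w.dj hg
    have hge : g ≠ e := fun hh => hgB (hh ▸ he)
    exact D s _ v e f 0 0 hC w hc r hE hv hf he hef (hmin e he) (by omega) (.refl _)
      (conn_par h hc (w.sa hg) (w.sb he) hge p.2.2)
      (del_rd (free_wf w f) (free_rd r f) (w.sa hg) hge p fun hh => hgB (mem_of_mem_erase hh))
      rfl (by omega)
  rcases st (free s f) f hC (free_wf w f) hc (free_rd r f) (w.sb hf) (notMem_erase _ _)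
      (notMem_erase _ _) (show 3 ≤ s.E.card by omega) with
    ⟨e, he, g, hg, heg, hef, hgf, p | p⟩ | ⟨e, he, t, m, c, hc2, gd⟩ |
    ⟨-, -, -, -, -, -, -, x, hx, hxf, xa, xb⟩ | ⟨e, he, g, hg, heg, n1, n2, ⟨E1, c1, k1⟩, E2, c2, k2⟩
  · rcases mem_union.1 (hE he) with ea | eb <;> rcases mem_union.1 (hE hg) with ga | gb
    · exact absurd p (r.1 e ea g ga heg)
    · exact hp g gb e ea hgf p
    · exact hp e eb g ga hef p.symm
    · rw [sgZ_par (E := s.E) h he hg heg p]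
      refine K (parS s e g) e _ (mc.del _ _ _ hC (erase_subset _ _)) (parS_wf w e g)
        (conn_par h hc he hg heg p.2.2) (parS_rd w r he heg p) (mem_erase.2 ⟨heg, he⟩)
        (notMem_erase _ _) (notMem_erase _ _) (hv.parS e g _) (fun x hx xa xb => ?_) ?_
      · rw [Main.only hE hx xa xb, update_self, hv.wb e eb, hv.wb g gb]
        refine le_trans (le_of_eq ?_) sy.bb
        rw [← abs_of_nonneg (sq_nonneg (2 * a - 1))]
        congr 1
        ring
      · have i1 : s.k (s.E.erase g) = s.k s.E := par_erase h p he heg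
        have i2 := Main.card2 s.B e g
        simp only [parS]
        omega
  · have rg : ∀ x ∈ s.E, v x ≤ 2 * a - 2 := fun x hx =>
      (sy.all hv fun xa xb => ((mem_union.1 (hE hx)).elim xa xb).elim).2
    have hq := sy.neg (rg e he) (rg g hg)
    rw [sgZ_ser (E := s.E) h hc he hg heg p.2.2 hq.ne]
    refine mul_pos (neg_pos.2 hq) (K (serS s e g) e _ (mc.con _ _ g hC hg) (serS_wf w e g)
      (conn_ser h hc he hg heg p.2.2) (serS_rd w r hc he hg heg p) (mem_erase.2 ⟨heg, he⟩)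
      (notMem_erase _ _) (notMem_erase _ _) (hv.serS e g _) (fun x hx xa xb => ?_) ?_)
    · rw [Main.only hE hx xa xb, update_self]
      rcases mem_union.1 (hE he) with ea | eb <;> rcases mem_union.1 (hE hg) with ga | gb
      · rw [hv.wa e ea, hv.wa g ga]; exact sy.dd
      · rw [hv.wa e ea, hv.wb g gb]; exact sy.db
      · rw [hv.wb e eb, hv.wa g ga, mul_comm, add_right_comm q]; exact sy.db
      · exact absurd p (r.2 e eb g gb heg)
    · have i1 := h.ge ∅ g
      have i2 := Main.card2 s.B e g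
      simp only [serS, con]
      rw [insert_erase (show g ∈ s.E from hg)]
      omega
  · exact D s t v e f m c hC w hc r hE hv hf (mem_of_mem_erase he) (ne_of_mem_erase he)
      (hmin e (mem_of_mem_erase he)) hc2 gd.mr gd.conn gd.rd gd.span (by omega)
  · rcases mem_union.1 (hE hx) with h1 | h1
    · exact absurd (mem_erase.2 ⟨hxf, h1⟩) xa
    · exact absurd (mem_erase.2 ⟨hxf, h1⟩) xb
  · simp only [free, hfA, insert_erase hf] at he hg c1 k1 c2 k2
    obtain ⟨s1, -⟩ := hc.single h (w.sa he) (w.sa hg) heg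
    obtain ⟨s2, -⟩ := hc.single h (w.sa hg) (w.sa he) heg.symm
    rw [sgZ_two' (w.sa he) (w.sa hg) heg s1 s2 (hv.wa e he) (hv.wa g hg) a]
    have t1 := ih _ (by have := (toB_card w he hg heg).1; omega) (toB s e g) _ hC
      (toB_wf w he hg) hc (toB_rd w r he hg n1 n2) (fun x hx => by
        by_contra hx'
        rw [mem_union, not_or, toB_ns he hg] at hx'
        exact (mem_union.1 (hE hx)).elim hx'.1 hx'.2) (hv.toB e g) hM rfl
    have a0 := sy.a0
    have t2 := Main.ctr mc sy K hC w r hE hv he hg heg c1 k1 (by omega)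
    have t3 := Main.ctr mc sy K hC w r hE hv hg he heg.symm c2 k2 (by omega)
    simp only [toB] at t1
    have := mul_pos (by linarith : 0 < 2 * a) t2
    have := mul_pos (by linarith : 0 < 2 * a) t3
    linarith

end Pool.Agent.P.MP_e0c037_lc.AR
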