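import Pool.Agent.P.MP_e0c037_lc.AR.Base
import Pool.Agent.P.MP_e0c037_lc.BD.Norm

/-! The normal form under special moves is computed in polynomial time. -/

namespace Pool.Agent.P.MP_e0c037_lc.AR

open Finset SG BD Pool.Agent.Lib.helper21

namespace NormP

open BD.Norm (St rm mem prs parB serB toS mem_rm rm_fin mem_prs sz_rm parB_iff serB_iff nodup_rm
  ser_toS)

/-- One step. -/
def stp (κ : Inp × List ℕ → ℕ) (G : Inp) (s : St) : St :=
  lcase ((prs G.2.length).filter fun p => parB κ G s p)
    (lcase ((prs G.2.length).filter fun p => serB κ G s p) s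
      fun p _ => (p.2 :: s.1, p.1 :: s.2.1, rm (rm s.2.2 p.2) p.1))
    fun p _ => (s.1, rm (rm s.2.1 p.2) p.1, s.2.2)

/-- The initial state. -/
def ini (G : Inp) : St := ([], [], List.range G.2.length)

/-- The final state. -/
def nf (κ : Inp × List ℕ → ℕ) (G : Inp) : St := (stp κ G)^[G.2.length] (ini G)

variable {κ : Inp × List ℕ → ℕ} {k : Inp → KF}

theorem pt_stp (h : PT κ) : PT fun p : Inp × St => stp κ p.1 p.2 := by
  unfold stp parB serB prs mem rm
  fun_prop

theorem pt_nf (h : PT κ) : PT (nf κ) := by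
  refine PT.iterate_add (f := stp κ) (pt_stp h) (by fun_prop) (by unfold ini; fun_prop)
    (fun G => 8 * G.2.length + 8) (PT.bdNat (by fun_prop)) fun G s => ?_
  obtain ⟨C, A, B⟩ := s
  unfold stp
  cases h1 : (prs G.2.length).filter fun p => parB κ G (C, A, B) p with
  | nil =>
    cases h2 : (prs G.2.length).filter fun p => serB κ G (C, A, B) p with
    | nil => simp only [lcase]; omega
    | cons p t =>
      have hp : p ∈ (prs G.2.length).filter fun p => serB κ G (C, A, B) p := by
        rw [h2]; exact List.mem_cons_self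
      have a1 := mem_prs.1 (List.mem_filter.1 hp).1
      have a2 := sz_rm (rm B p.2) p.1
      have a3 := sz_rm B p.2
      simp only [lcase, sz_pair, sz_cons, sz_nat]; omega
  | cons p t =>
    have a2 := sz_rm (rm A p.2) p.1
    have a3 := sz_rm A p.2
    simp only [lcase, sz_pair]; omega

theorem can_toS (k0 : KF) {C A B : List ℕ} (hn : (A ++ B).Nodup) {x y : ℕ} (hx : x ∈ A)
    (hy : y ∈ A) :
    can (toS k0 (C, A, B)) x y = toS k0 (C, rm (rm A y) x, B) ∧ (rm (rm A y) x ++ B).Nodup := by
  obtain ⟨n1, n2, n3⟩ := List.nodup_append.1 hn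
  refine ⟨?_, List.nodup_append.2 ⟨nodup_rm (nodup_rm n1 _) _, n2, fun a ha c hc => ?_⟩⟩
  · simp only [toS, can, rm_fin, Sta.mk.injEq, true_and, and_true]
    ext z
    have h1 := n3 y hy z
    have h2 := n3 x hx z
    simp only [mem_erase, List.mem_toFinset, List.mem_append, mem_rm]
    grind
  · exact n3 a (mem_rm.1 (mem_rm.1 ha).1).1 c hc

/-- The invariant. -/
structure Inv (k0 : KF) (m : ℕ) (s0 : Sta) (j : ℕ) (s : St) : Prop where
  nd : (s.2.1 ++ s.2.2).Nodup
  bc : ∀ i ∈ s.1, i < m
  be : ∀ i ∈ s.2.1 ++ s.2.2, i < m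
  mg : ∃ c, Mr s0 (toS k0 s) s.1.length c
  rd : (toS k0 s).Rd ∨ (toS k0 s).E.card + j ≤ m

theorem Inv.step (o : Orc κ k) {G : Inp} (hG : Valid G) {s0 : Sta} {j : ℕ} {s : St}
    (h : Inv (k G) G.2.length s0 j s) : Inv (k G) G.2.length s0 (j + 1) (stp κ G s) := by
  obtain ⟨C, A, B⟩ := s
  have hA : ∀ i ∈ A, i < G.2.length := fun i hi => h.be i (List.mem_append_left _ hi)
  have hB : ∀ i ∈ B, i < G.2.length := fun i hi => h.be i (List.mem_append_right _ hi)
  obtain ⟨c0, hm⟩ := h.mg
  unfold stp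
  cases h1 : (prs G.2.length).filter fun p => parB κ G (C, A, B) p with
  | nil =>
    cases h2 : (prs G.2.length).filter fun p => serB κ G (C, A, B) p with
    | nil =>
      refine ⟨h.nd, h.bc, h.be, h.mg, Or.inl ⟨fun x hx y hy hxy p => ?_, fun x hx y hy hxy p => ?_⟩⟩
      · have hx' : x ∈ A := List.mem_toFinset.1 hx
        have hy' : y ∈ A := List.mem_toFinset.1 hy
        have : (x, y) ∈ (prs G.2.length).filter fun p => parB κ G (C, A, B) p :=
          List.mem_filter.2 ⟨mem_prs.2 ⟨hA x hx', hA y hy'⟩,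
            (parB_iff o hG h.bc (hA x hx') (hA y hy')).2 ⟨hx', hy', hxy, p⟩⟩
        rw [h1] at this
        exact List.not_mem_nil this
      · have hx' : x ∈ B := List.mem_toFinset.1 hx
        have hy' : y ∈ B := List.mem_toFinset.1 hy
        have : (x, y) ∈ (prs G.2.length).filter fun p => serB κ G (C, A, B) p :=
          List.mem_filter.2 ⟨mem_prs.2 ⟨hB x hx', hB y hy'⟩,
            (serB_iff o hG h.bc h.be).2 ⟨hx', hy', hxy, p⟩⟩
        rw [h2] at this
        exact List.not_mem_nil this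
    | cons p t =>
      have hp : p ∈ (prs G.2.length).filter fun p => serB κ G (C, A, B) p := by
        rw [h2]; exact List.mem_cons_self
      obtain ⟨a1, a2, a3, a4⟩ := (serB_iff o hG h.bc h.be).1 (List.mem_filter.1 hp).2
      obtain ⟨e1, e2⟩ := ser_toS (C := C) (k G) h.nd a1 a2 a3
      have b1 : p.1 ∈ (toS (k G) (C, A, B)).B := List.mem_toFinset.2 a1
      have b2 : p.2 ∈ (toS (k G) (C, A, B)).B := List.mem_toFinset.2 a2
      refine ⟨e2, fun i hi => ?_, fun i hi => ?_, ?_, Or.inr ?_⟩
      · rcases List.mem_cons.1 hi with rfl | hi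
        exacts [hB _ a2, h.bc i hi]
      · rcases List.mem_append.1 hi with hi | hi
        · rcases List.mem_cons.1 hi with rfl | hi
          exacts [hB _ a1, hA i hi]
        · exact hB i (mem_rm.1 (mem_rm.1 hi).1).1
      · have := hm.trans (Mr.ser b1 b2 a3 a4 (.refl _))
        rw [e1] at this
        exact ⟨_, this⟩
      · have c1 := h.rd.resolve_left fun r => r.2 _ b1 _ b2 a3 a4
        have c2 := card_erase_add_one (s := (toS (k G) (C, A, B)).E) (a := p.2)
          (List.mem_toFinset.2 (List.mem_append_right _ a2))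
        simp only [lcase]
        rw [← e1]
        simp only [Sta.ser]; omega
  | cons p t =>
    have hp : p ∈ (prs G.2.length).filter fun p => parB κ G (C, A, B) p := by
      rw [h1]; exact List.mem_cons_self
    have a0 := mem_prs.1 (List.mem_filter.1 hp).1
    obtain ⟨a1, a2, a3, a4⟩ := (parB_iff o hG h.bc a0.1 a0.2).1 (List.mem_filter.1 hp).2
    obtain ⟨e1, e2⟩ := can_toS (C := C) (k G) h.nd a1 a2
    have b1 : p.1 ∈ (toS (k G) (C, A, B)).A := List.mem_toFinset.2 a1
    have b2 : p.2 ∈ (toS (k G) (C, A, B)).A := List.mem_toFinset.2 a2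
    refine ⟨e2, h.bc, fun i hi => ?_, ?_, Or.inr ?_⟩
    · rcases List.mem_append.1 hi with hi | hi
      · exact hA i (mem_rm.1 (mem_rm.1 hi).1).1
      · exact hB i hi
    · have := hm.trans (Mr.can b1 b2 a3 a4 (.refl _))
      rw [e1] at this
      exact ⟨_, this⟩
    · have c1 := h.rd.resolve_left fun r => r.1 _ b1 _ b2 a3 a4
      have c2 := card_erase_add_one (s := (toS (k G) (C, A, B)).E) (a := p.2)
        (List.mem_toFinset.2 (List.mem_append_left _ a2))
      have c3 := card_erase_le (s := (toS (k G) (C, A, B)).E.erase p.2) (a := p.1)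
      simp only [lcase]
      rw [← e1]
      simp only [can]; omega

theorem toS_ini (k0 : KF) (G : Inp) :
    toS k0 (ini G) = ⟨k0, range G.2.length, ∅, range G.2.length⟩ := by
  have : cn k0 ∅ = k0 := funext fun D => by simp [cn]
  simp [toS, ini, this, List.toFinset_range]

theorem inv (o : Orc κ k) {G : Inp} (hG : Valid G) (j : ℕ) :
    Inv (k G) G.2.length ⟨k G, range G.2.length, ∅, range G.2.length⟩ j
      ((stp κ G)^[j] (ini G)) := by
  induction j with
  | zero =>
    refine ⟨?_, by simp [ini], ?_, ?_, Or.inr ?_⟩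
    · simp [ini, List.nodup_range]
    · simp [ini]
    · rw [Function.iterate_zero_apply, toS_ini]; exact ⟨0, .refl _⟩
    · rw [Function.iterate_zero_apply, toS_ini]; simp
  | succ j ih => rw [Function.iterate_succ_apply']; exact ih.step o hG

end NormP

theorem p_Norm : S_Norm := by
  intro κ k o
  have h := NormP.pt_nf o.pt
  refine ⟨fun G => (NormP.nf κ G).1, fun G => (NormP.nf κ G).2.1, fun G => (NormP.nf κ G).2.2,
    h.fst, h.snd.fst, h.snd.snd, fun G hG => ?_⟩
  have i := NormP.inv o hG G.2.length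
  refine ⟨i.nd, i.bc, i.mg, i.rd.elim id fun c => ?_⟩
  have e : (BD.Norm.toS (k G) (NormP.nf κ G)).E = ∅ := card_eq_zero.1 (by unfold NormP.nf; omega)
  have e' : ∀ x, x ∉ (NormP.nf κ G).2.1 ++ (NormP.nf κ G).2.2 := fun x hx =>
    notMem_empty x (e ▸ List.mem_toFinset.2 hx)
  exact ⟨fun x hx => absurd (List.mem_append_left _ (List.mem_toFinset.1 hx)) (e' x),
    fun x hx => absurd (List.mem_append_right _ (List.mem_toFinset.1 hx)) (e' x)⟩

end Pool.Agent.P.MP_e0c037_lc.AR
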