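import Pool.Agent.P.MP_e0c037_lc.AR.Base
import Pool.Agent.P.MP_e0c037_lc.SG.Sys

/-! The graded system of bounds on the two arcs. -/

namespace Pool.Agent.P.MP_e0c037_lc.AR

namespace Num

/-- The series merge with a special weight. -/
theorem ser_gen {a u θ v w : ℝ} (ha : a < 1) (u0 : 0 ≤ u) (ub : u ≤ 2 * a - 1)
    (hv : |1 + v| ≤ u + θ) (hvb : 1 + v ≤ 2 * a - 1) (w0 : -2 ≤ w) (w1 : w ≤ 2 * a - 2)
    (c1 : θ * (u + 1) ≤ (1 - u) * (u - (2 * a ^ 2 - 1)))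
    (c2 : θ * (2 * a - 1 - u) ≤ u ^ 2 + 2 * (1 - a) ^ 2 * u - (2 * a ^ 2 - 1))
    (c3 : θ * (u + (2 * a - 1)) ≤ 2 * a ^ 2 - 1 - u ^ 2 + 2 * (1 - a) ^ 2 * u)
    (c4 : θ * (1 - u) ≤ (1 + u) * (u + (2 * a ^ 2 - 1))) :
    |1 + v * w / (2 * (1 - a ^ 2) + v + w)| ≤ u := by
  obtain ⟨v0, v1⟩ := abs_le.1 hv
  refine SG.Sys.absle (by nlinarith [mul_pos (sub_pos.2 ha) (sub_pos.2 ha)]) ?_ ?_
  · rcases le_total (u - (1 + v)) 0 with hx | hx
    · have a1 := mul_le_mul_of_nonpos_left (show u - (1 + w) ≤ u + 1 by linarith) hx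
      have a2 := mul_le_mul_of_nonneg_right (show -θ ≤ u - (1 + v) by linarith)
        (show 0 ≤ u + 1 by linarith)
      nlinarith
    · have a1 := mul_le_mul_of_nonneg_left (show u - (2 * a - 1) ≤ u - (1 + w) by linarith) hx
      have a2 := mul_le_mul_of_nonpos_right (show u - (1 + v) ≤ 2 * u + θ by linarith)
        (show u - (2 * a - 1) ≤ 0 by linarith)
      nlinarith
  · rcases le_total (u + (1 + v)) 0 with hx | hx
    · have a1 := mul_le_mul_of_nonpos_left (show u - 1 ≤ u + (1 + w) by linarith) hx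
      have a2 := mul_le_mul_of_nonpos_right (show -θ ≤ u + (1 + v) by linarith)
        (show u - 1 ≤ 0 by linarith)
      nlinarith
    · have a1 := mul_le_mul_of_nonneg_left (show u + (1 + w) ≤ u + (2 * a - 1) by linarith) hx
      have a2 := mul_le_mul_of_nonneg_right (show u + (1 + v) ≤ 2 * u + θ by linarith)
        (show 0 ≤ u + (2 * a - 1) by linarith)
      nlinarith

/-- The facts about the number `B`. -/
theorem bfacts {a : ℝ} (h0 : 0.724 < a) (h1 : a < 1) (h2 : 1 < a ^ 4 + a) : ∃ B : ℝ, 0 < B ∧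
    1 - a ≤ B ∧ 1 - a ^ 2 ≤ B * (1 + a ^ 2) ∧
    1 + -2 * (2 * a - 2) / (2 * (1 - a ^ 2) + -2 + (2 * a - 2)) = B ∧ B < 2 * a - 1 ∧
    2 * a ^ 2 - 1 ≤ B ∧ (2 * a - 1) ^ 2 ≤ B ∧
    0 < 2 * a ^ 2 - 1 - B ^ 2 + 2 * (1 - a) ^ 2 * B ∧
    0 ≤ B ^ 2 + 2 * (1 - a) ^ 2 * B - (2 * a ^ 2 - 1) ∧
    (2 * a - 1) * (2 * a - 1 - B) * (1 + B) < B * (B + (2 * a - 1)) * (2 - 2 * a) := by
  obtain ⟨s, rfl⟩ : ∃ s, a = 1 - s := ⟨1 - a, by ring⟩
  have s0 : 0 < s := by linarith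
  have r1 : 0 < 0.276 - s := by linarith
  have r2 := pow_pos r1 2
  have r3 := pow_pos r1 3
  have r4 := pow_pos r1 4
  have r5 := pow_pos r1 5
  have a0 : 0 < 1 - s := by linarith
  obtain ⟨D, hD⟩ : ∃ D, D = s ^ 2 - s + 1 := ⟨_, rfl⟩
  have D0 : 0 < D := by nlinarith
  have D1 := D0.ne'
  refine ⟨(s ^ 2 - 3 * s + 1) / D, div_pos (by linarith) D0, ?_, ?_, ?_, ?_, ?_, ?_, ?_, ?_, ?_⟩
  · rw [le_div_iff₀ D0, hD]
    linarith
  · rw [div_mul_eq_mul_div, le_div_iff₀ D0, hD]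
    linarith
  · rw [show 2 * (1 - (1 - s) ^ 2) + -2 + (2 * (1 - s) - 2) = -2 * D by rw [hD]; ring]
    field_simp
    rw [hD]
    ring
  · rw [div_lt_iff₀ D0, hD]
    linarith [mul_pos a0 (pow_pos s0 2)]
  · rw [le_div_iff₀ D0, hD]
    linarith [mul_pos s0 (pow_pos a0 3)]
  · rw [le_div_iff₀ D0, hD]
    have h : 0 < 1 - 4 * s + 4 * s ^ 2 - 2 * s ^ 3 := by linarith
    linarith [mul_pos s0 h]
  · have h : 0 < 1 - 5 * s + 6 * s ^ 2 - 4 * s ^ 3 + s ^ 4 := by linarith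
    refine lt_of_lt_of_eq (div_pos (mul_pos (mul_pos four_pos (pow_pos s0 2)) h) (pow_pos D0 2)) ?_
    field_simp
    rw [hD]
    ring
  · refine le_of_le_of_eq (div_pos (mul_pos (mul_pos four_pos (pow_pos s0 3)) a0)
      (pow_pos D0 2)).le ?_
    field_simp
    rw [hD]
    ring
  · have h : 0 < 1 - 7 * s + 17 * s ^ 2 - 19 * s ^ 3 + 12 * s ^ 4 - 3 * s ^ 5 := by linarith
    refine sub_pos.1 (lt_of_lt_of_eq (div_pos (mul_pos (mul_pos four_pos s0) h) (pow_pos D0 2)) ?_)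
    field_simp
    rw [hD]
    ring

end Num

theorem p_Num : S_Num := by
  intro a a0 a1 h
  have a2 : 0.724 < a := by
    by_contra h1
    have := pow_le_pow_left₀ a0.le (not_lt.1 h1) 4
    norm_num at this h1
    linarith
  obtain ⟨B, B0, B7, B8, hB, B1, B2, B3, B4, B5, B6⟩ := Num.bfacts a2 a1 h
  have e0 : 0 < 2 * a ^ 2 - 1 := by nlinarith
  have q0 : 0 < 2 * (1 - a ^ 2) := by nlinarith
  have s2 : 0 < (1 - a) ^ 2 := pow_pos (sub_pos.2 a1) 2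
  obtain ⟨τ, τ0, τ1, τ2, τ3⟩ : ∃ τ : ℝ, 1 - a ≤ τ ∧ B ≤ τ ∧ τ < 2 * a - 1 ∧
      0 < 2 * a ^ 2 - 1 - τ ^ 2 + 2 * (1 - a) ^ 2 * τ := ⟨B, B7, le_rfl, B1, B4⟩
  obtain ⟨ρ, r0, r1, r2⟩ : ∃ ρ : ℝ, τ < ρ ∧ ρ ≤ 2 * a - 1 ∧
      0 < 2 * a ^ 2 - 1 - ρ ^ 2 + 2 * (1 - a) ^ 2 * ρ := by
    obtain ⟨δ, d0, d1, d2⟩ : ∃ δ : ℝ, 0 < δ ∧ δ ≤ 2 * a - 1 - τ ∧
        δ ≤ (2 * a ^ 2 - 1 - τ ^ 2 + 2 * (1 - a) ^ 2 * τ) / 4 :=
      ⟨min _ _, lt_min (by linarith) (by linarith), min_le_left _ _, min_le_right _ _⟩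
    refine ⟨τ + δ, by linarith, by linarith, ?_⟩
    have h1 := mul_pos s2 d0
    have h2 := mul_le_mul_of_nonneg_left (show 2 * τ + δ ≤ 2 by linarith) d0.le
    linarith
  have ρ0 : 0 < ρ := by linarith
  have ρ1 : ρ < 1 := by linarith
  have hser : ∀ v w, |1 + v| ≤ ρ → -2 ≤ w → w ≤ 2 * a - 2 →
      |1 + v * w / (2 * (1 - a ^ 2) + v + w)| ≤ ρ := fun v w hv w0 w1 => by
    refine Num.ser_gen (θ := 0) a1 ρ0.le r1 (by linarith) (by linarith [(abs_le.1 hv).2]) w0 w1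
      ?_ ?_ (by linarith) ?_
    · rw [zero_mul]
      exact mul_nonneg (by linarith) (by linarith)
    · have := mul_nonneg (show 0 ≤ ρ - B by linarith)
        (show 0 ≤ ρ + B + 2 * (1 - a) ^ 2 by linarith)
      linarith
    · rw [zero_mul]
      exact mul_nonneg (by linarith) (by linarith)
  have hdd : |1 + -2 * -2 / (2 * (1 - a ^ 2) + -2 + -2)| ≤ τ :=
    (SG.Sys.absle (s := B) (by linarith) (by
      linarith [mul_nonneg (show 0 ≤ 1 - B by linarith) (sub_nonneg.2 B2), sq_nonneg (B + 1)])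
      (by linarith)).trans τ1
  have hdb : |1 + -2 * (2 * a - 2) / (2 * (1 - a ^ 2) + -2 + (2 * a - 2))| ≤ τ := by
    rw [hB, abs_of_pos B0]
    exact τ1
  have hst : (2 * a - 1) * (2 * a - 1 - ρ) * (1 + ρ) < ρ * (ρ + (2 * a - 1)) * (2 - 2 * a) := by
    have h1 := mul_nonneg (show 0 ≤ 2 * a - 1 by linarith) (mul_nonneg (show 0 ≤ ρ - B by linarith)
      (show 0 ≤ ρ + B + 2 - 2 * a by linarith))
    have h2 := mul_nonneg (show 0 ≤ 2 - 2 * a by linarith) (mul_nonneg (show 0 ≤ ρ - B by linarith)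
      (show 0 ≤ ρ + B + (2 * a - 1) by linarith))
    linarith
  obtain ⟨σ, hσ⟩ : ∃ σ, σ * ρ = 2 * a ^ 2 - 1 := ⟨_, div_mul_cancel₀ _ ρ0.ne'⟩
  rcases le_total τ σ with h1 | h1
  · exact ⟨ρ, 2, fun _ => τ, rfl, a1, q0, by linarith, le_rfl, τ0, r0, r1, fun _ _ _ => le_rfl,
      hser, hdd, hdb, B3.trans τ1, fun g _ _ => by omega, fun g _ _ => by omega,
      by linarith [mul_le_mul_of_nonneg_right h1 ρ0.le], hst⟩
  obtain ⟨e, he⟩ : ∃ e, e = 2 * a ^ 2 - 1 := ⟨_, rfl⟩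
  obtain ⟨P, hP⟩ : ∃ P, P = e - ρ ^ 2 + 2 * (1 - a) ^ 2 * ρ := ⟨_, rfl⟩
  rw [← he] at e0 hσ r2
  rw [← hP] at r2
  have σ0 : 0 < σ := (mul_pos_iff_of_pos_right ρ0).1 (hσ ▸ e0)
  have σ1 : e ≤ σ := by linarith [mul_pos σ0 (sub_pos.2 ρ1)]
  obtain ⟨θ, θ0, θ1, θ2, θ3, θ4, θ5⟩ : ∃ θ : ℝ, 0 < θ ∧ θ ≤ e * P ∧ θ ≤ e * (1 - ρ) ^ 2 / 2 ∧
      θ ≤ e / 2 ∧ θ ≤ P / 2 ∧ θ ≤ (2 - 2 * a) * e := by
    have : 0 < (1 - ρ) ^ 2 := pow_pos (sub_pos.2 ρ1) 2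
    have : 0 < 2 - 2 * a := by linarith
    exact ⟨min (e * P) (min (e * (1 - ρ) ^ 2 / 2) (min (e / 2) (min (P / 2) ((2 - 2 * a) * e)))),
      by positivity, by simp, by simp, by simp, by simp, by simp⟩
  obtain ⟨n, hn⟩ := exists_nat_ge (τ / θ)
  rw [div_le_iff₀ θ0] at hn
  obtain ⟨t, ht⟩ : ∃ t : ℕ → ℝ, ∀ g, t g = max σ (τ - ((g : ℝ) - 2) * θ) := ⟨_, fun _ => rfl⟩
  have l1 : t 2 = τ := by rw [ht]; simpa using h1
  have l2 : ∀ g, 2 ≤ g → t g ≤ τ := fun g hg => by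
    have : (2 : ℝ) ≤ g := by exact_mod_cast hg
    rw [ht]
    exact max_le h1 (by linarith [mul_nonneg (sub_nonneg.2 this) θ0.le])
  have l3 : ∀ g, σ ≤ t g := fun g => by rw [ht]; exact le_max_left _ _
  have l4 : ∀ g, t g ≤ t (g + 1) + θ := fun g => by
    have : τ - (((g + 1 : ℕ) : ℝ) - 2) * θ ≤ t (g + 1) := by rw [ht]; exact le_max_right _ _
    push_cast at this
    rw [ht g]
    exact max_le (by linarith [l3 (g + 1)]) (by linarith)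
  have l5 : t (n + 2) = σ := by
    rw [ht]
    refine max_eq_left ?_
    push_cast
    linarith
  refine ⟨ρ, n + 2, t, rfl, a1, q0, by linarith, by omega, l1 ▸ τ0, l1 ▸ r0, r1,
    fun g hg _ => l1 ▸ l2 g hg, hser, l1 ▸ hdd, l1 ▸ hdb, l1 ▸ B3.trans τ1,
    fun g hg _ v w hv w0 w1 => ?_, fun g hg _ => ?_, by rw [l5]; linarith, hst⟩
  · have u0 := l3 (g + 1)
    have u1 := l2 (g + 1) (by omega)
    have u2 := l2 g hg
    have u3 := hv.trans (l4 g)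
    generalize t (g + 1) = u at *
    refine Num.ser_gen a1 (by linarith) (by linarith) u3 (by linarith [(abs_le.1 hv).2]) w0 w1
      ?_ ?_ ?_ ?_ <;> rw [← he]
    · have k1 : e * (1 - ρ) ≤ u - e := by
        linarith [mul_le_mul_of_nonneg_right σ1 (sub_pos.2 ρ1).le]
      have k2 := mul_le_mul (show 1 - ρ ≤ 1 - u by linarith) k1
        (mul_nonneg e0.le (by linarith)) (by linarith)
      have k3 := mul_le_mul_of_nonneg_left (show u + 1 ≤ 2 by linarith) θ0.le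
      linarith
    · have k1 := mul_nonneg (show 0 ≤ u - σ by linarith)
        (show 0 ≤ u + σ + 2 * (1 - a) ^ 2 by linarith)
      have k2 : (σ ^ 2 + 2 * (1 - a) ^ 2 * σ - e) * ρ = σ * P := by
        rw [hP, ← hσ]
        ring
      have k3 : e * P ≤ σ ^ 2 + 2 * (1 - a) ^ 2 * σ - e := by
        refine le_of_mul_le_mul_right ?_ ρ0
        rw [k2]
        linarith [mul_le_mul_of_nonneg_right σ1 r2.le, mul_pos (mul_pos e0 r2) (sub_pos.2 ρ1)]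
      have k4 := mul_le_mul_of_nonneg_left (show 2 * a - 1 - u ≤ 1 by linarith) θ0.le
      linarith
    · have k1 := mul_le_mul_of_nonneg_left (show u + (2 * a - 1) ≤ 2 by linarith) θ0.le
      rcases le_total u (2 * (1 - a) ^ 2) with k2 | k2
      · have := mul_nonneg (show 0 ≤ u by linarith) (sub_nonneg.2 k2)
        linarith
      · have := mul_nonneg (show 0 ≤ ρ - u by linarith)
          (show 0 ≤ ρ + u - 2 * (1 - a) ^ 2 by linarith)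
        linarith
    · linarith [mul_nonneg θ0.le (σ0.le.trans u0),
        mul_nonneg (σ0.le.trans u0) (show 0 ≤ u + e by linarith)]
  · have u0 := l3 (g + 1)
    have k1 := mul_le_mul_of_nonneg_right (l4 g) (show 0 ≤ 2 * a - 1 by linarith)
    have k2 := mul_le_mul_of_nonneg_left (σ1.trans u0) (show 0 ≤ 2 - 2 * a by linarith)
    have k3 := mul_le_mul_of_nonneg_left (show 2 * a - 1 ≤ 1 by linarith) θ0.le
    linarith

end Pool.Agent.P.MP_e0c037_lc.AR
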