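import Pool.Agent.P.MP_e0c037_lc.AR.Base
import Pool.Agent.P.MP_e0c037_lc.SG.CL

/-! Two triads with dependent rest: the cographic case. -/

namespace Pool.Agent.P.MP_e0c037_lc.AR

open Finset SG BD

namespace QuadD

variable {n : ℕ} {L : List (ℕ × ℕ)} {U : Finset (Fin n)} {E : Finset ℕ}

/-- In a triple of rank two every end of an edge lies on another edge of the triple. -/
theorem shared (t3 : T3 U (Ad n L E)) (tc : Tc (comps n L) E) (h4 : 4 ≤ E.card) {i j l : ℕ}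
    (hi : i ∈ E) (hj : j ∈ E) (hl : l ∈ E) (hjl : j ≠ l)
    (h : comps n L {i, j, l} + 2 = comps n L ∅) {p q : Fin n} (e : Ends L i p q) :
    (∃ z, Ends L j p z) ∨ ∃ z, Ends L l p z := by
  by_contra hn
  have a1 := fresh (S := {j, l}) e (t3.ne ⟨i, hi, e⟩) fun a ha z hz => by
    rcases mem_insert.1 ha with rfl | ha
    · exact hn (Or.inl ⟨z, hz⟩)
    · rw [mem_singleton.1 ha] at hz
      exact hn (Or.inr ⟨z, hz⟩)
  have a2 := (tc_pair (isK_comps n L) tc h4 hj hl hjl).1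
  omega

/-- A triple of rank two is a triangle. -/
theorem triangle (t3 : T3 U (Ad n L E))
    (sim : ∀ i ∈ E, ∀ j ∈ E, ∀ x y : Fin n, Ends L i x y → Ends L j x y → i = j)
    (tc : Tc (comps n L) E) (h4 : 4 ≤ E.card) {e x y : ℕ} (he : e ∈ E) (hx : x ∈ E) (hy : y ∈ E)
    (ex : e ≠ x) (ey : e ≠ y) (xy : x ≠ y) (h : comps n L {e, x, y} + 2 = comps n L ∅)
    {u v : Fin n} (hu : Ends L e u v) :
    ∃ c, c ≠ u ∧ c ≠ v ∧ ∀ i, i = x ∨ i = y → Ends L i c u ∨ Ends L i c v := by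
  have main : ∀ x ∈ E, ∀ y ∈ E, e ≠ x → e ≠ y → x ≠ y →
      comps n L {e, x, y} + 2 = comps n L ∅ → ∀ c, Ends L x u c →
      ∃ c, c ≠ u ∧ c ≠ v ∧ ∀ i, i = x ∨ i = y → Ends L i c u ∨ Ends L i c v := by
    intro x hx y hy ex ey xy h c hc
    have h' : comps n L {x, e, y} + 2 = comps n L ∅ := by rw [Finset.insert_comm]; exact h
    have cu : c ≠ u := (t3.ne ⟨x, hx, hc⟩).symm
    have cv : c ≠ v := fun hh => ex (sim e he x hx u v hu (hh ▸ hc))
    have uv : u ≠ v := t3.ne ⟨e, he, hu⟩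
    have y1 : ∃ z, Ends L y c z := by
      rcases shared t3 tc h4 hx he hy ey h' hc.symm with ⟨z, hz⟩ | hz
      · rcases Ends_same hz hu with ⟨a, -⟩ | ⟨a, -⟩
        exacts [absurd a cu, absurd a cv]
      · exact hz
    have y2 : ∃ z, Ends L y v z := by
      rcases shared t3 tc h4 he hx hy xy h hu.symm with ⟨z, hz⟩ | hz
      · rcases Ends_same hz hc with ⟨a, -⟩ | ⟨a, -⟩
        exacts [absurd a uv.symm, absurd a cv.symm]
      · exact hz
    obtain ⟨z, hz⟩ := y1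
    obtain ⟨t, ht⟩ := y2
    have zv : z = v := by
      rcases Ends_same hz ht with ⟨a, -⟩ | ⟨-, a⟩
      exacts [absurd a cv, a]
    refine ⟨c, cu, cv, ?_⟩
    rintro i (rfl | rfl)
    · exact Or.inl hc.symm
    · exact Or.inr (zv ▸ hz)
  rcases shared t3 tc h4 he hx hy xy h hu with ⟨c, hc⟩ | ⟨c, hc⟩
  · exact main x hx y hy ex ey xy h c hc
  · obtain ⟨c, a, b, d⟩ := main y hy x hx ey ex xy.symm (by rw [pair_comm y x]; exact h) c hc
    exact ⟨c, a, b, fun i hi => d i hi.symm⟩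

/-- A simple graph on four vertices has at most six edges. -/
theorem six_of_four (hL : Valid (n, L)) (hE : E ⊆ range L.length) (t3 : T3 U (Ad n L E))
    (sim : ∀ i ∈ E, ∀ j ∈ E, ∀ x y : Fin n, Ends L i x y → Ends L j x y → i = j)
    (h : U.card ≤ 4) : E.card ≤ 6 := by
  have a1 : E.card ≤ (powersetCard 2 U).card := by
    refine card_le_card_of_forall_subsingleton
      (fun i p => ∃ x y : Fin n, Ends L i x y ∧ p = {x, y}) ?_ ?_
    · intro i hi
      obtain ⟨x, y, e⟩ := exists_ends hL (mem_range.1 (hE hi))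
      exact ⟨{x, y}, mem_powersetCard.2 ⟨insert_subset (t3.mem x y ⟨i, hi, e⟩)
        (singleton_subset_iff.2 (t3.mem y x ⟨i, hi, e.symm⟩)), card_pair (t3.ne ⟨i, hi, e⟩)⟩,
        x, y, e, rfl⟩
    · rintro p - i ⟨hi, x, y, ei, rfl⟩ j ⟨hj, z, t, ej, hp⟩
      have hxy := t3.ne ⟨i, hi, ei⟩
      have hx : x ∈ ({z, t} : Finset (Fin n)) := hp ▸ mem_insert_self _ _
      have hy : y ∈ ({z, t} : Finset (Fin n)) :=
        hp ▸ mem_insert_of_mem (mem_singleton_self _)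
      simp only [mem_insert, mem_singleton] at hx hy
      rcases hx with rfl | rfl <;> rcases hy with rfl | rfl
      · exact absurd rfl hxy
      · exact sim i hi j hj _ _ ei ej
      · exact sim i hi j hj _ _ ei ej.symm
      · exact absurd rfl hxy
  rw [card_powersetCard] at a1
  have a2 := Nat.choose_le_choose 2 h
  have a3 : Nat.choose 4 2 = 6 := rfl
  omega

/-- The statement on vertices. -/
theorem core {V : Type} {U W : Finset V} {adj : V → V → Prop} {u v c1 c2 : V} (h : T3 U adj)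
    (huv : adj u v) (hW : W ⊆ U) (hu : u ∉ W) (hv : v ∉ W) (ne : W.Nonempty)
    (a1 : c1 ≠ u) (a2 : c1 ≠ v) (a3 : c2 ≠ u) (a4 : c2 ≠ v)
    (lv : ∀ x ∈ W, ∀ y, y ∉ W → adj x y → (x = c1 ∨ x = c2) ∧ (y = u ∨ y = v)) : U.card ≤ 4 := by
  classical
  have cut := h.cut W hW u v ne hu hv fun w hw p hp => by
    by_cases hp' : p ∈ W
    · exact Or.inl hp'
    · exact Or.inr (lv w hw p hp' hp).2
  have cut2 := h.cut {u, v} (insert_subset (h.mem u v huv) (singleton_subset_iff.2 (h.mem' huv)))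
    c1 c2 ⟨u, mem_insert_self _ _⟩ (by simp [a1, a2]) (by simp [a3, a4]) fun w hw p hp => by
      have wW : w ∉ W := by
        rcases mem_insert.1 hw with rfl | hw
        · exact hu
        · rw [mem_singleton.1 hw]; exact hv
      rcases cut p (h.mem' hp) with hp' | hp'
      · exact Or.inr (lv p hp' w wW (h.symm _ _ hp)).1
      · exact Or.inl (by simpa using hp')
  have hs : U ⊆ {u, v, c1, c2} := fun p hp => by
    have := cut2 p hp
    simp only [mem_insert, mem_singleton] at this ⊢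
    tauto
  exact (card_le_card hs).trans card_le_four

theorem five {e x y z w : ℕ} (h : ({e, x, y, z, w} : Finset ℕ).card = 5) :
    e ≠ x ∧ e ≠ y ∧ e ≠ z ∧ e ≠ w ∧ x ≠ y ∧ z ≠ w ∧ ({x, y, z, w} : Finset ℕ).card = 4 := by
  have a0 := card_le_four (a := x) (b := y) (c := z) (d := w)
  have he : e ∉ ({x, y, z, w} : Finset ℕ) := fun hh => by
    rw [insert_eq_of_mem hh] at h
    omega
  rw [card_insert_of_notMem he] at h
  have hx : x ∉ ({y, z, w} : Finset ℕ) := fun hh => by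
    rw [insert_eq_of_mem hh] at h
    have := card_le_three (a := y) (b := z) (c := w)
    omega
  have hz : z ≠ w := fun hh => by
    subst hh
    rw [pair_eq_singleton] at h
    have := card_le_three (a := x) (b := y) (c := z)
    omega
  simp only [mem_insert, mem_singleton, not_or] at he hx
  exact ⟨he.1, he.2.1, he.2.2.1, he.2.2.2, hx.1, hz, by omega⟩

end QuadD

open QuadD in
theorem p_QuadD (h1 : SG.S_T3) (h2 : SG.S_Cmp) : S_QuadD := by
  classical
  rintro k E ⟨-, n, L, c, c', hL, hE, hk⟩ tk e x y z w hs h5 t1 t2 dep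
  have h4 : 4 ≤ E.card := by have := card_le_card hs; omega
  have tc := CLaux.tc_du tk hk
  obtain ⟨U, t3, -, sim⟩ := h1 n L E hL hE tc h4
  obtain ⟨ex, ey, ez, ew, xy, zw, c4⟩ := five h5
  have he : e ∈ E := hs (by simp)
  have hx : x ∈ E := hs (by simp)
  have hy : y ∈ E := hs (by simp)
  have hz : z ∈ E := hs (by simp)
  have hw : w ∈ E := hs (by simp)
  have tri : ∀ x ∈ E, ∀ y ∈ E, e ≠ x → e ≠ y → x ≠ y → k (E \ {e, x, y}) = k E + 1 →
      comps n L {e, x, y} + 2 = comps n L ∅ := by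
    intro x hx y hy ex ey xy t
    have sb : ({e, x, y} : Finset ℕ) ⊆ E :=
      insert_subset he (insert_subset hx (singleton_subset_iff.2 hy))
    have c3 : ({e, x, y} : Finset ℕ).card = 3 := card_eq_three.2 ⟨e, x, y, ex, ey, xy, rfl⟩
    have a1 := hk (E \ {e, x, y}) sdiff_subset
    have a2 := hk E Subset.rfl
    have a3 := card_sdiff_add_card_eq_card sb
    rw [Finset.sdiff_sdiff_eq_self sb] at a1
    rw [Finset.sdiff_self] at a2
    omega
  obtain ⟨u, v, hu⟩ := exists_ends hL (mem_range.1 (hE he))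
  obtain ⟨c1, b1, b2, b3⟩ :=
    triangle t3 sim tc h4 he hx hy ex ey xy (tri x hx y hy ex ey xy t1) hu
  obtain ⟨c2, d1, d2, d3⟩ :=
    triangle t3 sim tc h4 he hz hw ez ew zw (tri z hz w hw ez ew zw t2) hu
  have sD : ({x, y, z, w} : Finset ℕ) ⊆ E := (subset_insert _ _).trans hs
  have lt : comps n L E < comps n L (E \ {x, y, z, w}) := by
    have a1 := hk _ sD
    have a2 := hk ∅ (empty_subset _)
    rw [sdiff_empty, card_empty] at a2
    omega
  have hD : ∀ i ∈ ({x, y, z, w} : Finset ℕ), ∃ a b, (a = c1 ∨ a = c2) ∧ (b = u ∨ b = v) ∧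
      Ends L i a b := by
    intro i hi
    simp only [mem_insert, mem_singleton] at hi
    rcases or_assoc.2 hi with hi | hi
    · exact (b3 i hi).elim (fun h => ⟨c1, u, Or.inl rfl, Or.inl rfl, h⟩)
        fun h => ⟨c1, v, Or.inl rfl, Or.inr rfl, h⟩
    · exact (d3 i hi).elim (fun h => ⟨c2, u, Or.inr rfl, Or.inl rfl, h⟩)
        fun h => ⟨c2, v, Or.inr rfl, Or.inr rfl, h⟩
  have eD : e ∉ ({x, y, z, w} : Finset ℕ) := by simp [ex, ey, ez, ew]
  generalize ({x, y, z, w} : Finset ℕ) = D at sD lt hD eD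
  have eF : e ∈ E \ D := mem_sdiff.2 ⟨he, eD⟩
  obtain ⟨C, cl, p, hp, q, hq, hpq⟩ :=
    h2.2.2 n L (E \ D) D (by rw [sdiff_union_of_subset sD]; exact lt)
  have hpq' : Ad n L E p q := let ⟨i, hi, hh⟩ := hpq; ⟨i, sD hi, hh⟩
  obtain ⟨W, hW, uW, vW, ne, lv⟩ : ∃ W ⊆ U, u ∉ W ∧ v ∉ W ∧ W.Nonempty ∧
      ∀ x ∈ W, ∀ y, y ∉ W → Ad n L E x y → ¬ Ad n L (E \ D) x y := by
    by_cases uC : u ∈ C
    · have vC : v ∈ C := cl u uC v ⟨e, eF, hu⟩
      refine ⟨U \ C, sdiff_subset, fun hh => (mem_sdiff.1 hh).2 uC, fun hh => (mem_sdiff.1 hh).2 vC,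
        ⟨q, mem_sdiff.2 ⟨t3.mem' hpq', hq⟩⟩, fun a ha b hb hE' hF' => ?_⟩
      have : b ∈ C := by
        by_contra hh
        exact hb (mem_sdiff.2 ⟨t3.mem' hE', hh⟩)
      exact (mem_sdiff.1 ha).2 (cl b this a hF'.symm)
    · have vC : v ∉ C := fun hh => uC (cl v hh u ⟨e, eF, hu.symm⟩)
      refine ⟨U ∩ C, inter_subset_left, fun hh => uC (mem_inter.1 hh).2,
        fun hh => vC (mem_inter.1 hh).2, ⟨p, mem_inter.2 ⟨t3.mem _ _ hpq', hp⟩⟩,
        fun a ha b hb hE' hF' => ?_⟩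
      exact hb (mem_inter.2 ⟨t3.mem' hE', cl a (mem_inter.1 ha).2 b hF'⟩)
  refine six_of_four hL hE t3 sim
    (core t3 ⟨e, he, hu⟩ hW uW vW ne b1 b2 d1 d2 fun a ha b hb hab => ?_)
  obtain ⟨i, hi, hh⟩ := id hab
  have iD : i ∈ D := by
    by_contra hn
    exact lv a ha b hb hab ⟨i, mem_sdiff.2 ⟨hi, hn⟩, hh⟩
  obtain ⟨a', b', ha', hb', e'⟩ := hD i iD
  rcases Ends_same hh e' with ⟨rfl, rfl⟩ | ⟨rfl, rfl⟩
  · exact ⟨ha', hb'⟩
  · rcases hb' with rfl | rfl
    exacts [absurd ha uW, absurd ha vW]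

end Pool.Agent.P.MP_e0c037_lc.AR
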