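import Pool.Agent.P.MP_e0c037_lc.AR.Base

/-! All series pairs of the second type are merged. -/

namespace Pool.Agent.P.MP_e0c037_lc.AR

open Finset SG BD

namespace SerAll

variable {s : Sta} {x y : ℕ} {D : Finset ℕ}

theorem blk_sub (w : s.WF) (h : Blk s D) : D ⊆ s.E := by
  rcases h with ⟨d, hd, rfl⟩ | ⟨a, ha, b, hb, -, -, rfl⟩
  · exact singleton_subset_iff.2 (w.sa hd)
  · exact insert_subset (w.sb ha) (singleton_subset_iff.2 (w.sb hb))

/-- A block of the merged state is the new element or an old block avoiding both elements. -/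
theorem blk (w : s.WF) (hx : x ∈ s.B) (hy : y ∈ s.B) (h : Blk (s.ser x y) D) :
    D = {x} ∨ (Blk s D ∧ x ∉ D ∧ y ∉ D) := by
  rcases h with ⟨b, hb, rfl⟩ | ⟨a, ha, b, hb, hab, p, rfl⟩
  · rcases mem_insert.1 hb with rfl | hb
    · exact Or.inl rfl
    · refine Or.inr ⟨Or.inl ⟨b, hb, rfl⟩, ?_, ?_⟩
      · rw [mem_singleton]; rintro rfl; exact disjoint_left.1 w.dj hb hx
      · rw [mem_singleton]; rintro rfl; exact disjoint_left.1 w.dj hb hy
  · obtain ⟨a1, a2⟩ := mem_erase.1 ha
    obtain ⟨a3, a4⟩ := mem_erase.1 a2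
    obtain ⟨b1, b2⟩ := mem_erase.1 hb
    obtain ⟨b3, b4⟩ := mem_erase.1 b2
    refine Or.inr ⟨Or.inr ⟨a, a4, b, b4, hab, ser_of_con (w.sb hy) a3 b3 p, rfl⟩, ?_, ?_⟩
    · simp only [mem_insert, mem_singleton, not_or]; exact ⟨a1.symm, b1.symm⟩
    · simp only [mem_insert, mem_singleton, not_or]; exact ⟨a3.symm, b3.symm⟩

/-- The new element together with an old block. -/
theorem one (hq : Qs s) (hx : x ∈ s.B) (hy : y ∈ s.B) (hxy : x ≠ y) (p : Ser s.k s.E x y)
    (h : Blk s D) (h1 : x ∉ D) (h2 : y ∉ D) :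
    s.k (insert y ({x} ∪ D)) + 2 + D.card = s.k ∅ := by
  have h3 : Disjoint ({x, y} : Finset ℕ) D :=
    disjoint_insert_left.2 ⟨h1, disjoint_singleton_left.2 h2⟩
  have h4 := hq {x, y} D (Or.inr ⟨x, hx, y, hy, hxy, p, rfl⟩) h h3
  rw [card_pair hxy] at h4
  rw [← h4]
  congr 3
  ext z
  simp only [mem_union, mem_insert, mem_singleton]
  tauto

/-- A series merge keeps the block property. -/
theorem qs (w : s.WF) (hq : Qs s) (hx : x ∈ s.B) (hy : y ∈ s.B) (hxy : x ≠ y)
    (p : Ser s.k s.E x y) : Qs (s.ser x y) := by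
  intro D1 D2 b1 b2 hd
  change s.k (insert y (D1 ∪ D2)) + D1.card + D2.card = s.k (insert y ∅)
  obtain ⟨-, p2⟩ := p.facts w.isK (w.sb hx) (w.sb hy) hxy
  have h0 := p2 ∅ (empty_subset _)
  rcases blk w hx hy b1 with rfl | ⟨c1, c2, c3⟩
  · rcases blk w hx hy b2 with rfl | ⟨d1, d2, d3⟩
    · exact absurd (mem_singleton_self x) (disjoint_singleton_left.1 hd)
    · have := one hq hx hy hxy p d1 d2 d3
      rw [card_singleton]
      omega
  · rcases blk w hx hy b2 with rfl | ⟨d1, d2, d3⟩
    · have := one hq hx hy hxy p c1 c2 c3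
      rw [card_singleton, union_comm]
      omega
    · have e : D1 ∪ D2 ⊆ (s.E.erase y).erase x := by
        intro z hz
        refine mem_erase.2 ⟨?_, mem_erase.2 ⟨?_, union_subset (blk_sub w c1) (blk_sub w d1) hz⟩⟩
        · rintro rfl; exact (mem_union.1 hz).elim c2 d2
        · rintro rfl; exact (mem_union.1 hz).elim c3 d3
      have h1 := p2 _ e
      have h2 := hq D1 D2 c1 d1 hd
      omega

theorem red (hq : Qs s) : Red s.k s.A := by
  intro a ha b hb hab c
  have h := hq {a} {b} (Or.inl ⟨a, ha, rfl⟩) (Or.inl ⟨b, hb, rfl⟩) (disjoint_singleton.2 hab)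
  have e : ({a} : Finset ℕ) ∪ {b} = {a, b} := by
    ext z
    simp only [mem_union, mem_insert, mem_singleton]
  rw [e, card_singleton, card_singleton] at h
  have := c.2.2
  omega

theorem main (n : ℕ) : ∀ s : Sta, s.B.card = n → s.WF → Conn s.k s.E →
    (s.k s.E + 3 ≤ s.k ∅ ∨ (s.k s.E + 2 ≤ s.k ∅ ∧ s.A.Nonempty)) → Qs s →
    ∃ t m, Good s t m 0 := by
  induction n using Nat.strong_induction_on with
  | _ n ih =>
    intro s h w hc hr hq
    by_cases hs : RedS s.k s.E s.B
    · exact ⟨s, 0, .refl s, hc, ⟨red hq, hs⟩, by rcases hr with h | h <;> omega, rfl⟩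
    · unfold RedS at hs
      push Not at hs
      obtain ⟨x, hx, y, hy, hxy, p⟩ := hs
      have h1 : (s.ser x y).B.card < n := by
        have := card_erase_lt_of_mem hy
        have := card_erase_le (s := s.B.erase y) (a := x)
        change ((s.B.erase y).erase x).card < n
        omega
      have r3 : s.k s.E + 3 ≤ s.k ∅ := by
        rcases hr with h | ⟨-, d, hd⟩
        · exact h
        · have b1 : Blk s {d} := Or.inl ⟨d, hd, rfl⟩
          have b2 : Blk s {x, y} := Or.inr ⟨x, hx, y, hy, hxy, p, rfl⟩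
          have hdj : Disjoint ({d} : Finset ℕ) {x, y} := by
            rw [disjoint_singleton_left, mem_insert, mem_singleton]
            rintro (rfl | rfl)
            · exact disjoint_left.1 w.dj hd hx
            · exact disjoint_left.1 w.dj hd hy
          have h2 := hq _ _ b1 b2 hdj
          have h3 := w.isK.anti (union_subset (blk_sub w b1) (blk_sub w b2))
          rw [card_singleton, card_pair hxy] at h2
          omega
      have hsp : (s.ser x y).k (s.ser x y).E = s.k s.E := by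
        change s.k (insert y (s.E.erase y)) = s.k s.E
        rw [insert_erase (w.sb hy)]
      have h0 : s.k ∅ ≤ (s.ser x y).k ∅ + 1 := w.isK.ge ∅ y
      obtain ⟨t, m, gd⟩ := ih _ h1 (s.ser x y) rfl (w.ser hx hxy hy)
        (conn_ser w.isK hc (w.sb hx) (w.sb hy) hxy p.2.2)
        (Or.inr ⟨by omega, x, mem_insert_self _ _⟩) (qs w hq hx hy hxy p)
      exact ⟨t, m + 1, .ser hx hy hxy p gd.mr, gd.conn, gd.rd, gd.rk, gd.span.trans hsp⟩

end SerAll

theorem p_SerAll : S_SerAll := fun s w hc hr hq => SerAll.main _ s rfl w hc (Or.inl hr) hq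

end Pool.Agent.P.MP_e0c037_lc.AR
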