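import Pool.Agent.P.MP_e0c037_lc.AR.Base
import Pool.Agent.P.MP_e0c037_lc.BD.Shad

/-! A state that is reduced on both sides of a two-separation needs at most one cancellation. -/

namespace Pool.Agent.P.MP_e0c037_lc.AR

open Finset SG BD BD.Shad

namespace ShadP

variable {k : KF} {E X G : Finset ℕ} {x y a b f : ℕ} {s : Sta}

theorem noPar (w : s.WF) (hc : Conn s.k s.E) (hX : X ⊆ s.E) (hf : f ∈ s.E) (hfX : f ∉ X)
    (hfB : f ∉ s.B) (hl : s.k ∅ + s.k s.E ≤ s.k X + s.k (s.E \ X) + 1) (hr : s.k X + 2 ≤ s.k ∅)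
    (hh : Half s X) (hA : Red s.k s.A) : ∃ t n, Good s t n 0 := by
  have h := w.isK
  have h2 : 2 ≤ X.card := by have := h.rank_le X; omega
  by_cases h3 : ∃ a ∈ s.B, ∃ b ∈ s.B, a ∈ X ∧ b ∉ X ∧ Ser s.k s.E a b
  · obtain ⟨a, ha, b, hb, aX, bX, p⟩ := h3
    have hab : a ≠ b := fun e => bX (e ▸ aX)
    have e1 : (s.ser a b).k (s.ser a b).E = s.k s.E := congrArg s.k (insert_erase (w.sb hb))
    refine ⟨_, 0 + 1, .ser ha hb hab p (.refl _), conn_ser h hc (w.sb ha) (w.sb hb) hab p.2.2,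
      caseSer w hc hX h2 hf hfX hfB hl hh hA ha hb aX bX p, ?_, e1⟩
    have p2 := (cross h hX p aX (w.sb hb) bX).2
    have c2 := into hc hX (w.sb hb) hf hfX fun e => hfB (e ▸ hb)
    have c3 := h.anti (insert_subset (w.sb hb) hX)
    have c4 := h.ge ∅ b
    have e2 : (s.ser a b).k ∅ = s.k (insert b ∅) := rfl
    omega
  · have := h.anti hX
    exact ⟨s, 0, .refl _, hc, ⟨hA, redS_of hh.2.2.1 hh.2.2.2
      fun a ha b hb aX bX p => h3 ⟨a, ha, b, hb, aX, bX, p⟩⟩, by omega, rfl⟩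

/-- A side of a parallel connection is connected. -/
theorem side (h : IsK k) (hc : Conn k E) (hX : X ⊆ E) (hl : k ∅ + k E ≤ k X + k (E \ X) + 1)
    (xX : x ∈ X) (yR : y ∈ E \ X) (p : Par k x y) : Conn k X := by
  have key : ∀ Z ⊆ X, Z.Nonempty → x ∉ Z → k Z + k (X \ Z) < k ∅ + k X := by
    intro Z hZ h1 h2
    have d1 := hc Z (hZ.trans hX) h1 ⟨x, mem_sdiff.2 ⟨hX xX, h2⟩⟩
    have d2 := h.sup (X \ Z) (insert x (E \ X))
    have e1 : X \ Z ∪ insert x (E \ X) = E \ Z := by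
      ext z; simp only [mem_union, mem_insert, mem_sdiff]
      have := @hX z
      have := @hZ z
      grind
    have e2 : X \ Z ∩ insert x (E \ X) = {x} := by
      ext z; simp only [mem_inter, mem_insert, mem_sdiff, mem_singleton]
      grind
    rw [e1, e2, par_ins h p.symm yR] at d2
    have := p.1
    omega
  intro Z hZ h1 h2
  by_cases h3 : x ∈ Z
  · have := key (X \ Z) sdiff_subset h2 (by simp [h3])
    rw [Finset.sdiff_sdiff_eq_self hZ] at this
    omega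
  · exact key Z hZ h1 h3

/-- The pair is spanned as soon as one side is complete. -/
theorem back (h : IsK k) (p : Par k x y) (xX : x ∈ X) (yR : y ∈ E \ X)
    (h1 : k (X.erase x) = k X) (h2 : k ((E \ X).erase y) = k (E \ X)) (hx : x ∈ G) (hy : y ∈ G)
    (hG : X ⊆ G ∨ E \ X ⊆ G) : k ((G.erase y).erase x) = k G := by
  have yX := (mem_sdiff.1 yR).2
  have hxy : x ≠ y := fun e => yX (e ▸ xX)
  rcases hG with hG | hG
  · have := h.dim (X.erase x) ((G.erase y).erase x) x (erase_subset_erase _ fun z hz =>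
      mem_erase.2 ⟨fun e => yX (e ▸ hz), hG hz⟩) (by rw [insert_erase xX, h1])
    rw [← this, insert_erase (mem_erase.2 ⟨hxy, hx⟩), par_erase h p hx hxy]
  · have := h.dim ((E \ X).erase y) ((G.erase x).erase y) y (erase_subset_erase _ fun z hz =>
      mem_erase.2 ⟨fun e => (mem_sdiff.1 hz).2 (e ▸ xX), hG hz⟩) (by rw [insert_erase yR, h2])
    rw [erase_right_comm, ← this, insert_erase (mem_erase.2 ⟨hxy.symm, hy⟩),
      par_erase h p.symm hy hxy.symm]

theorem old (h : IsK k) (p : Par k x y) (hX : X ⊆ E) (xX : x ∈ X) (yR : y ∈ E \ X)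
    (h1 : k (X.erase x) = k X) (h2 : k ((E \ X).erase y) = k (E \ X)) (ax : x ≠ a) (ay : y ≠ a)
    (bx : x ≠ b) (yb : y ≠ b) (hab : (a ∉ X ∧ b ∉ X) ∨ (a ∈ X ∧ b ∈ X))
    (q : Ser k ((E.erase y).erase x) a b) : Ser k E a b := by
  obtain ⟨c1, c2, c3⟩ := q
  have xE := hX xX
  have yE := (mem_sdiff.1 yR).1
  have s2 : X ⊆ (E.erase b).erase a ∨ E \ X ⊆ (E.erase b).erase a := by
    refine hab.imp (fun g z hz => ?_) fun g z hz => ?_
    · exact mem_erase.2 ⟨fun e => g.1 (e ▸ hz), mem_erase.2 ⟨fun e => g.2 (e ▸ hz), hX hz⟩⟩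
    · have := mem_sdiff.1 hz
      exact mem_erase.2 ⟨fun e => this.2 (e ▸ g.1), mem_erase.2 ⟨fun e => this.2 (e ▸ g.2), this.1⟩⟩
  have sa : (E.erase b).erase a ⊆ E.erase a := erase_subset_erase _ (erase_subset _ _)
  have sb : (E.erase b).erase a ⊆ E.erase b := erase_subset _ _
  have e0 := back h p xX yR h1 h2 xE yE (Or.inl hX)
  have ea := back h p xX yR h1 h2 (mem_erase.2 ⟨ax, xE⟩) (mem_erase.2 ⟨ay, yE⟩)
    (s2.imp (·.trans sa) (·.trans sa))
  have eb := back h p xX yR h1 h2 (mem_erase.2 ⟨bx, xE⟩) (mem_erase.2 ⟨yb, yE⟩)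
    (s2.imp (·.trans sb) (·.trans sb))
  have ec := back h p xX yR h1 h2 (mem_erase.2 ⟨ax, mem_erase.2 ⟨bx, xE⟩⟩)
    (mem_erase.2 ⟨ay, mem_erase.2 ⟨yb, yE⟩⟩) s2
  rw [erase_right_comm (a := x), erase_right_comm (a := y), ea, e0] at c1
  rw [erase_right_comm (a := x), erase_right_comm (a := y), eb, e0] at c2
  rw [erase_right_comm (a := x), erase_right_comm (a := x), erase_right_comm (a := y),
    erase_right_comm (a := y), ec, e0] at c3
  exact ⟨c1, c2, c3⟩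

end ShadP

open ShadP in
theorem p_Shad (hS : SG.S_Sum) : S_Shad := by
  intro s X f w hc hX hf hfX hfA hfB hl hr hh
  have hl' : s.k ∅ + s.k s.E ≤ s.k X + s.k (s.E \ X) + 1 := by unfold lam at hl; omega
  by_cases h1 : ∃ x ∈ s.A, ∃ y ∈ s.A, x ∈ X ∧ y ∉ X ∧ Par s.k x y
  swap
  · obtain ⟨t, n, gd⟩ := noPar w hc hX hf hfX hfB hl' hr hh
      (red_of hh.1 hh.2.1 fun a ha b hb aX bX p => h1 ⟨a, ha, b, hb, aX, bX, p⟩)
    exact ⟨t, n, 0, zero_le_one, gd⟩
  obtain ⟨x, hx, y, hy, xX, yX, p⟩ := h1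
  have h := w.isK
  have h2 : 2 ≤ X.card := by have := h.rank_le X; omega
  have hxy : x ≠ y := fun e => yX (e ▸ xX)
  have fx : f ≠ x := fun e => hfA (e ▸ hx)
  have fy : f ≠ y := fun e => hfA (e ▸ hy)
  have yR : y ∈ s.E \ X := mem_sdiff.2 ⟨w.sa hy, yX⟩
  have c1 := out hc hX h2 xX
  have c2 := into hc hX (w.sa hy) hf hfX fy
  rw [par_ins h p.symm yR] at c1
  rw [par_ins h p xX] at c2
  have c3 := h.anti (erase_subset x X)
  have c4 := h.anti (erase_subset y (s.E \ X))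
  have k1 : s.k (X.erase x) = s.k X := by omega
  have k2 : s.k ((s.E \ X).erase y) = s.k (s.E \ X) := by omega
  have eX := Finset.sdiff_sdiff_eq_self hX
  obtain ⟨cn, -⟩ := hS s.k X (s.E \ X) x y h disjoint_sdiff xX yR p (side h hc hX hl' xX yR p)
    (side h hc sdiff_subset (by rw [eX]; omega) yR (by rwa [eX]) p.symm) h2
    (one_lt_card.2 ⟨f, mem_sdiff.2 ⟨hf, hfX⟩, y, yR, fy⟩) (by rwa [union_sdiff_of_subset hX])
  have e1 : X.erase x ∪ (s.E \ X).erase y = (s.E.erase y).erase x := by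
    ext z; simp only [mem_union, mem_erase, mem_sdiff]
    have := @hX z
    grind
  have e2 : (s.E.erase y).erase x \ X.erase x = (s.E \ X).erase y := by
    ext z; simp only [mem_erase, mem_sdiff]
    grind
  have e0 : s.k ((s.E.erase y).erase x) = s.k s.E :=
    back h p xX yR k1 k2 (hX xX) (w.sa hy) (Or.inl hX)
  rw [e1] at cn
  have hA : Red s.k ((s.A.erase y).erase x) :=
    (casePar w hc hX h2 hf hfX hfA hl' hh hx hy xX yX p).1
  have nx : ∀ a ∈ s.B, x ≠ a := fun a ha e => disjoint_left.1 w.dj hx (e ▸ ha)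
  have ny : ∀ a ∈ s.B, y ≠ a := fun a ha e => disjoint_left.1 w.dj hy (e ▸ ha)
  obtain ⟨t, n, gd⟩ := noPar (s := can s x y) (X := X.erase x) (f := f) (wf_can w hx hy) cn
    (subset_union_left.trans e1.subset) (mem_erase.2 ⟨fx, mem_erase.2 ⟨fy, hf⟩⟩)
    (fun g => hfX (mem_of_mem_erase g)) hfB (by simp only [can, e2]; omega)
    (by simp only [can]; omega) ⟨hA.mono inter_subset_left, hA.mono sdiff_subset,
      fun a ha b hb hab q => by
        obtain ⟨a1, a2⟩ := mem_inter.1 ha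
        obtain ⟨b1, b2⟩ := mem_inter.1 hb
        have a3 := mem_of_mem_erase a2
        have b3 := mem_of_mem_erase b2
        exact hh.2.2.1 a (mem_inter.2 ⟨a1, a3⟩) b (mem_inter.2 ⟨b1, b3⟩) hab (old h p hX xX yR k1 k2
          (nx a a1) (ny a a1) (nx b b1) (ny b b1) (Or.inr ⟨a3, b3⟩) q),
      fun a ha b hb hab q => by
        obtain ⟨a1, a2⟩ := mem_sdiff.1 ha
        obtain ⟨b1, b2⟩ := mem_sdiff.1 hb
        have a3 : a ∉ X := fun g => a2 (mem_erase.2 ⟨(nx a a1).symm, g⟩)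
        have b3 : b ∉ X := fun g => b2 (mem_erase.2 ⟨(nx b b1).symm, g⟩)
        exact hh.2.2.2 a (mem_sdiff.2 ⟨a1, a3⟩) b (mem_sdiff.2 ⟨b1, b3⟩) hab (old h p hX xX yR k1 k2
          (nx a a1) (ny a a1) (nx b b1) (ny b b1) (Or.inl ⟨a3, b3⟩) q)⟩ hA
  exact ⟨t, 0 + n, 0 + 1 + 0, le_rfl, gd.after (.can hx hy hxy p (.refl _)) e0⟩

end Pool.Agent.P.MP_e0c037_lc.AR
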