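import Pool.Agent.P.MP_e0c037_lc.AR.Base
import Pool.Agent.P.MP_e0c037_lc.SG.Contr

/-! Reduced sets are small compared with the rank. -/

namespace Pool.Agent.P.MP_e0c037_lc.AR

open Finset SG BD

namespace Size

theorem sz_of {C : KF → Finset ℕ → Prop} (hm : Mc C)
    (hb : ∀ k E, C k E → Conn k E → Red k E → 2 ≤ E.card → E.card ≤ psi (k ∅ - k E)) : Sz C := by
  intro k E A hC hc hA hr
  induction hn : E.card using Nat.strong_induction_on generalizing E with
  | _ n ih =>
    by_cases hE : Red k E
    · have h1 := card_le_card hA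
      by_cases h2 : 2 ≤ E.card
      · exact h1.trans (hb k E hC hc hE h2)
      · unfold psi
        omega
    · have key : ∀ x ∈ E, ∀ y ∈ E, x ≠ y → Par k x y → y ∉ A → A.card ≤ psi (k ∅ - k E) := by
        intro x hx y hy hxy p hyA
        have hk := hm.isK k E hC
        have := ih (E.erase y).card (hn ▸ card_erase_lt_of_mem hy) (E.erase y)
          (hm.del k E _ hC (erase_subset _ _)) (conn_par hk hc hx hy hxy p.2.2)
          (fun z hz => mem_erase.2 ⟨fun hh => hyA (hh ▸ hz), hA hz⟩) rfl
        rwa [par_erase hk p hx hxy] at this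
      unfold Red at hE
      push Not at hE
      obtain ⟨x, hx, y, hy, hxy, p⟩ := hE
      by_cases hyA : y ∈ A
      · exact key y hy x hx hxy.symm p.symm fun hxA => hr x hxA y hyA hxy p
      · exact key x hx y hy hxy p hyA

end Size

theorem p_Size (h : SG.S_Size) : S_Size := by
  have hm := SG.p_Mc SG.p_Con
  refine ⟨Size.sz_of hm.1 fun k E a b c d => ?_, Size.sz_of hm.2 fun k E a b c d => ?_⟩
  · have := h.1 k E a b c d
    unfold psi
    omega
  · have := h.2 k E a b c d
    unfold psi
    omega

end Pool.Agent.P.MP_e0c037_lc.AR
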