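import Pool.Agent.P.MP_e0c037_lc.AR.Base
import Pool.Agent.P.MP_e0c037_lc.SG.Step

/-! The moves from the class lemmas. -/

namespace Pool.Agent.P.MP_e0c037_lc.AR

open Finset SG BD

theorem p_Step (h1 : SG.S_Tor) (h2 : SG.S_Del) (h3 : SG.S_Lift) (h4 : S_Keep) (h5 : S_Lift)
    (h6 : S_Shad) : S_Step := by
  intro C X hM hL hA s f hC w hc hr hf hfA hfB h3E
  have hK := w.isK
  obtain ⟨Y, ⟨y1, y2, y3⟩, hmin⟩ := StepP.least
    (fun Y => Y ⊆ s.E.erase f ∧ 2 ≤ Y.card ∧ lam s.k s.E Y ≤ 1) ⟨s.E.erase f, Subset.rfl,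
      by rw [card_erase_of_mem hf]; omega, by
        obtain ⟨a, ha, haf⟩ := exists_mem_ne (by omega : 1 < s.E.card) f
        obtain ⟨s1, s2⟩ := hc.single hK hf ha haf.symm
        rw [← sdiff_singleton_eq_erase, lam_compl (by simpa)]
        unfold lam
        rw [sdiff_singleton_eq_erase]
        omega⟩
  have hY : Y ⊆ s.E := y1.trans (erase_subset _ _)
  have hfY : f ∉ Y := fun hh => notMem_erase f s.E (y1 hh)
  by_cases h3Y : 3 ≤ Y.card
  · have m : MinY s.k s.E Y := fun Z hZ hne hc2 => by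
      by_contra hn
      have := hmin Z ⟨hZ.trans y1, hc2, by omega⟩
      have := card_lt_card (ssubset_of_subset_of_ne hZ hne)
      omega
    have hfd : f ∈ s.E \ Y := mem_sdiff.2 ⟨hf, hfY⟩
    obtain ⟨k', c1, c2, c3⟩ := h1 C hM s.k s.E Y f hC hc hY hfd (card_pos.1 (by omega)) y3
    have hK' := hM.isK _ _ c1
    have tc : Tc k' (insert f Y) := StepP.tc_tor hY hfY c3 m c2
    have h4Y : 4 ≤ (insert f Y).card := by rw [card_insert_of_notMem hfY]; omega
    have ne : ∀ e ∈ Y, e ≠ f := fun e he hh => hfY (hh ▸ he)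
    by_cases hn : (s.B ∩ Y).Nonempty
    · have w' : Sta.WF ⟨k', insert f Y, s.A ∩ Y, s.B ∩ Y⟩ :=
        ⟨hK', inter_subset_right.trans (subset_insert _ _),
          inter_subset_right.trans (subset_insert _ _),
          w.dj.mono inter_subset_left inter_subset_left⟩
      obtain ⟨e, he, t', n, c, hc1, gd⟩ :=
        hA ⟨k', insert f Y, s.A ∩ Y, s.B ∩ Y⟩ f c1 w' tc h4Y (mem_insert_self _ _)
          (fun hh => hfY (mem_inter.1 hh).2) (fun hh => hfY (mem_inter.1 hh).2) hn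
      obtain ⟨heB, heY⟩ := mem_inter.1 he
      obtain ⟨t, mt, st, lt, ht, ct, sp, rk⟩ :=
        h5 s t' k' Y f e n c w hr hc hK' hY hfd c3 tc h3Y heY gd
      obtain ⟨f1, f2, f3⟩ := (mt.ns f).2 ⟨mem_erase.2 ⟨(ne e heY).symm, hf⟩,
        fun hh => hfA (mem_of_mem_erase hh), fun hh => hfB (mem_of_mem_erase hh)⟩
      obtain ⟨u, n', c', hc2, gu⟩ := h6 t (t'.E.erase f) f (mt.wf (w.del e)) ct st f1
        (notMem_erase _ _) f2 f3 lt rk ht
      exact Or.inr (Or.inl ⟨e, heB, u, n + n', c + c', by omega, Good.after mt sp gu⟩)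
    · have hB : ∀ x ∈ Y, x ∉ s.B := fun x hx hb => hn ⟨x, mem_inter.2 ⟨hb, hx⟩⟩
      have hT : ∀ x ∈ insert f s.B, x ∈ s.E \ Y ∧ x ∉ s.A := fun x hx => by
        rcases mem_insert.1 hx with rfl | hx
        · exact ⟨hfd, hfA⟩
        · exact ⟨mem_sdiff.2 ⟨w.sb hx, fun hh => hB x hh hx⟩, disjoint_right.1 w.dj hx⟩
      have rk : s.k Y + 3 ≤ s.k ∅ := by
        obtain ⟨a, ha⟩ : Y.Nonempty := card_pos.1 (by omega)
        have a1 := rank3 hL c1 tc h4Y
        have a2 := (c2.single hK' (mem_insert_self f Y) (mem_insert_of_mem ha) (ne a ha).symm).2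
        have a3 := (c3 Y Subset.rfl).1
        rw [erase_insert hfY] at a2
        omega
      have keep : ∀ S ⊆ s.A, ∀ e ∈ Y, (∃ E1, Ctr s.k s.E S e E1) →
          ∃ E1, Ctr s.k s.E S e E1 ∧ Kp s.k s.E (insert f s.B) e E1 :=
        fun S hS e he ⟨E1, hE⟩ => ⟨E1, hE, fun x hx y hy =>
          (h4 s.k s.E Y S e hK hc hY h3Y y3 m he rk (hS.trans w.sa) (hr.1.mono hS)).2 E1 hE x
            (hT x hx).1 y (hT y hy).1 (fun hh => (hT x hx).2 (hS hh))
            fun hh => (hT y hy).2 (hS hh)⟩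
      have lift : ∀ a b, a ∈ Y → (∃ H1, Ctr k' (insert f Y) ((s.A ∩ Y).erase b) a H1) →
          ∃ E1, Ctr s.k s.E (s.A.erase b) a E1 := fun a b ha ⟨H1, hH⟩ =>
        h3 s.k k' s.E Y (s.A.erase b) f a H1 hK hK' hc hY hfd h3Y y3 m c3
          ((erase_subset _ _).trans w.sa) (hr.1.mono (erase_subset _ _))
          (Or.inl fun h' => hfA (mem_of_mem_erase h')) ha (by rwa [erase_inter])
      have e1 : insert f Y \ {f} = Y := by rw [sdiff_singleton_eq_erase, erase_insert hfY]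
      rcases hL k' (insert f Y) (s.A ∩ Y) {f} c1 tc h4Y
        (inter_subset_right.trans (subset_insert _ _)) (by simp) (by simp) (by simp [hfY])
        (by simp) with h | ⟨⟨e, he, H1, hH⟩, hx⟩ | ⟨h, -⟩
      · obtain ⟨a, ha, b, hb, hab, p1, p2⟩ := h
        rw [mem_inter] at ha hb
        exact Or.inr (Or.inr (Or.inr ⟨a, ha.1, b, hb.1, hab, no_ser hK hY h3Y y3 m ha.2,
          no_ser hK hY h3Y y3 m hb.2, keep _ (erase_subset _ _) a ha.2 (lift a b ha.2 p1),
          keep _ (erase_subset _ _) b hb.2 (lift b a hb.2 p2)⟩))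
      · rw [e1] at he hx
        obtain ⟨x, x1, x2⟩ := not_subset.1 hx
        refine Or.inr (Or.inr (Or.inl ⟨e, hY he, ne e he, hB e he,
          h2 s.k s.E Y f e hK hc hY hfd h3Y y3 m he, fun a ha b hb hab p => hr.2 a ha b hb hab ?_,
          keep _ Subset.rfl e he
            (h3 s.k k' s.E Y s.A f e H1 hK hK' hc hY hfd h3Y y3 m c3 w.sa hr.1 (Or.inl hfA) he hH),
          x, hY x1, ne x x1, fun hh => x2 (mem_inter.2 ⟨hh, x1⟩), hB x x1⟩))
        exact (h4 s.k s.E Y s.A e hK hc hY h3Y y3 m he rk w.sa hr.1).1 a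
          (hT a (mem_insert_of_mem ha)).1 b (hT b (mem_insert_of_mem hb)).1 p
      · simp at h
  · obtain ⟨e, g, heg, rfl⟩ := card_eq_two.1 (show Y.card = 2 by omega)
    have he : e ∈ s.E := hY (by simp)
    have hg : g ∈ s.E := hY (by simp)
    have hef : e ≠ f := fun hh => hfY (by simp [hh])
    have hgf : g ≠ f := fun hh => hfY (by simp [hh])
    exact Or.inl ⟨e, he, g, hg, heg, hef, hgf,
      (StepP.pair hK hc he hg heg y3).imp_right (ser_of_conn hK hc he hg heg)⟩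

end Pool.Agent.P.MP_e0c037_lc.AR
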