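import Pool.Agent.P.MP_e0c037_lc.AR.Glue
import Pool.Agent.P.MP_e0c037_lc.AR.Hard
import Pool.Agent.P.MP_e0c037_lc.AR.Num
import Pool.Agent.P.MP_e0c037_lc.AR.Keep
import Pool.Agent.P.MP_e0c037_lc.AR.Lift
import Pool.Agent.P.MP_e0c037_lc.AR.Shad
import Pool.Agent.P.MP_e0c037_lc.AR.Step
import Pool.Agent.P.MP_e0c037_lc.AR.SerAll
import Pool.Agent.P.MP_e0c037_lc.AR.Claw
import Pool.Agent.P.MP_e0c037_lc.AR.Dich
import Pool.Agent.P.MP_e0c037_lc.AR.QuadG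
import Pool.Agent.P.MP_e0c037_lc.AR.QuadD
import Pool.Agent.P.MP_e0c037_lc.AR.ClaimP
import Pool.Agent.P.MP_e0c037_lc.AR.Size
import Pool.Agent.P.MP_e0c037_lc.AR.Bnd
import Pool.Agent.P.MP_e0c037_lc.AR.Main
import Pool.Agent.P.MP_e0c037_lc.AR.Norm
import Pool.Agent.P.MP_e0c037_lc.AR.Algo
import Pool.Agent.P.MP_e0c037_lc.WP.Final

/-! The classification with the two arcs. -/

namespace Pool.Agent.P.MP_e0c037_lc.AR

theorem easyAt_iff {q v : ℝ} : EasyAt q v ↔ WP.EasyAt q v ∨ ∃ a, Arc a q v ∧ 1 < a ^ 4 + a := by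
  simp only [EasyAt, WP.EasyAt, or_assoc]
  rfl

theorem easy_arc {a q v : ℝ} (h0 : Arc a q v) (h : 1 < a ^ 4 + a) : SG.Easy q v := by
  obtain ⟨a0, a1, rfl, hv⟩ := h0
  obtain ⟨e1, e2⟩ := easy_of p_Num
    (p_Step SG.p_Tor SG.p_Del (SG.p_Lift SG.p_Sum) p_Keep p_Lift (p_Shad SG.p_Sum)) p_SerAll p_Claw
    p_Dich (p_QuadG (SG.p_T3 SG.p_Cmp) SG.p_Cmp SG.p_Dc) (p_QuadD (SG.p_T3 SG.p_Cmp) SG.p_Cmp)
    p_ClaimP (p_Size (SG.p_Size SG.p_Cmp)) p_Bnd p_Main (p_Algo p_Norm SG.p_Parts) a0 a1 h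
  rcases hv with rfl | rfl
  exacts [e2, e1]

theorem easy {q v : ℝ} (h : EasyAt q v) : WP.InP q v := by
  rcases easyAt_iff.1 h with h | ⟨a, h0, h⟩
  exacts [WP.easy h, (easy_arc h0 h).tm]

theorem hard {q v : ℝ} (he : ¬ EasyAt q v) (hl : ¬ LeftAt q v) : WP.Hard q v := by
  by_cases h : WP.LeftAt q v
  · rcases h with h | h | ⟨q0, q1, h⟩
    · exact absurd (Or.inl h) hl
    · exact absurd (Or.inr (Or.inl h)) hl
    obtain ⟨a, ha⟩ : ∃ a, Arc a q v := by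
      rcases h with ⟨h1, h2⟩ | ⟨h1, h2⟩
      · exact ⟨-1 - v, by linarith, by nlinarith, by linarith, Or.inl (by ring)⟩
      · exact ⟨1 + v / 2, by linarith, by nlinarith, by linarith, Or.inr (by ring)⟩
    rcases lt_trichotomy (a ^ 4 + a) 1 with c | c | c
    · exact hard_arc ha q1 c fun i hi => hl (Or.inr (Or.inr ⟨a, ha, q1, Or.inr ⟨i, hi⟩⟩))
    · exact absurd (Or.inr (Or.inr ⟨a, ha, q1, Or.inl c⟩)) hl
    · exact absurd (easyAt_iff.2 (Or.inr ⟨a, ha, c⟩)) he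
  · exact WP.hard (fun h' => he (easyAt_iff.2 (Or.inl h'))) h

end Pool.Agent.P.MP_e0c037_lc.AR
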