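import Pool.Agent.P.MP_e0c037_lc.AR.Base
import Pool.Agent.P.MP_e0c037_lc.SG.Final
import Pool.Agent.P.MP_e0c037_lc.WP.R1

/-! The parts put together. -/

namespace Pool.Agent.P.MP_e0c037_lc.AR

open Finset Pool.Agent.Lib.helper21 SG BD

theorem mc : SG.S_Mc := p_Mc p_Con

theorem scl : SG.S_CL :=
  SG.p_CL p_GA (p_Reg p_Dc) p_GD (p_T3 p_Cmp) (p_GCtr p_Con (p_C2 p_Cmp))
    (p_DCtr p_Con p_Cmp (p_C2 p_Cmp) p_Dc)

theorem seg {q : ℝ} (q0 : 0 < q) (q1 : q < 1) : Seg Gr q ∧ Seg Du q := by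
  obtain ⟨B, J, t, hS⟩ := p_Sys q q0 q1
  have hSt := SG.p_Step p_Tor p_Del (SG.p_Lift p_Sum)
  have main := fun C X (m : Mc C) (c : SG.CL C X) => SG.p_Main C X q B J t m (hSt C X m c).2 hS
    (SG.p_ClaimP C q B J t m (hSt C X m c).1 hS)
    (p_BoundR C q B J t m (hSt C X m c).1 hS (SG.p_ClaimP C q B J t m (hSt C X m c).1 hS))
  exact ⟨main Gr XG mc.1 scl.1 (pos_XG p_KnSeq p_KnZ q0 q1),
    main Du XD mc.2 scl.2 ⟨14, fun k E x h => by unfold XD at x; omega⟩⟩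

theorem easy_of (h1 : S_Num) (h2 : S_Step) (h3 : S_SerAll) (h4 : S_Claw) (h5 : S_Dich)
    (h6 : S_QuadG) (h7 : S_QuadD) (h8 : S_ClaimP) (h9 : S_Size) (h10 : S_Bnd) (h11 : S_Main)
    (h12 : S_Algo) {a : ℝ} (a0 : 0 < a) (a1 : a < 1) (h : 1 < a ^ 4 + a) :
    Easy (2 * (1 - a ^ 2)) (2 * a - 2) ∧ Easy (2 * (1 - a ^ 2)) (-1 - a) := by
  obtain ⟨ρ, J, t, y⟩ := h1 a a0 a1 h
  obtain ⟨⟨κ, o1⟩, ⟨κ', o2⟩, d1, -⟩ := p_Dual
  obtain ⟨s1, s2⟩ := seg y.q0 y.q1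
  have main := fun C X (m : Mc C) (c : SG.CL C X) (hQ : ∀ k E, C k E → Tc k E → Quad k E)
      (z : Sz C) (sg : Seg C (2 * (1 - a ^ 2))) =>
    have st := h2 C X m c (cl_of h3 h4 h5 c hQ)
    have cp := h8 C _ a ρ J t m st y
    h11 C _ a ρ J t m st y cp (h10 C _ a ρ J t m st y cp z) z sg
  constructor
  · obtain ⟨f, pf, hf⟩ := h12 Gr κ _ _ a mc.1 o1
      (fun G hG => ⟨isK_comps _ _, G.1, G.2, 0, hG, Subset.rfl, fun _ _ => rfl⟩) rfl y.q0 a1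
      (main Gr XG mc.1 scl.1 h6 h9.1 s1)
    exact ⟨f, pf, fun G hG => by rw [hf G hG]; simp [dichromatic, Zk]⟩
  · obtain ⟨f, pf, hf⟩ := h12 Du κ' _ _ a mc.2 o2 d1 rfl y.q0 a1
      (main Du XD mc.2 scl.2 h7 h9.2 s2)
    refine ⟨fun G => (-1) ^ G.2.length * f G, by fun_prop, fun G hG => ?_⟩
    have e1 : 2 * (1 - a ^ 2) / (-1 - a) = 2 * a - 2 := by
      rw [div_eq_iff (by linarith)]; ring
    have e2 : (-1 - a) / (2 * (1 - a ^ 2)) < 0 := div_neg_of_neg_of_pos (by linarith) y.q0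
    dsimp only
    rw [WP.p_Dual2 G _ _ y.q0.ne' (by linarith), e1, sign_mul, hf G hG, SignType.coe_mul]
    congr 1
    rcases Nat.even_or_odd G.2.length with h | h
    · rw [h.neg_one_pow, sign_pos (h.pow_pos e2.ne)]; rfl
    · rw [h.neg_one_pow, sign_neg (h.pow_neg e2)]; rfl

end Pool.Agent.P.MP_e0c037_lc.AR
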