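import Pool.Agent.P.MP_e0c037_lc.AR.Base
import Pool.Agent.P.MP_e0c037_lc.SG.CL
import Pool.Agent.P.MP_e0c037_lc.BD.G3

/-! Two triads through one edge of a three-connected graph. -/

namespace Pool.Agent.P.MP_e0c037_lc.AR

open Finset SG BD

namespace QuadG

variable {n : ℕ} {L : List (ℕ × ℕ)} {E : Finset ℕ} {U : Finset (Fin n)}

/-- The edges of `E` leaving `W` lie in `D`. -/
def Cut (L : List (ℕ × ℕ)) (E : Finset ℕ) (W : Finset (Fin n)) (D : Finset ℕ) : Prop :=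
  ∀ j ∈ E, ∀ p q, Ends L j p q → p ∈ W → q ∉ W → j ∈ D

theorem Cut.compl {W : Finset (Fin n)} {D : Finset ℕ} (h : T3 U (Ad n L E)) (c : Cut L E W D) :
    Cut L E (U \ W) D := fun j hj p q a hp hq =>
  c j hj q p a.symm (by_contra fun e => hq (mem_sdiff.2 ⟨h.mem' ⟨j, hj, a⟩, e⟩)) (mem_sdiff.1 hp).2

theorem Cut.three {W : Finset (Fin n)} {D : Finset ℕ} (h4 : S_Dc) (h : T3 U (Ad n L E))
    (c : Cut L E W D) (hW : W ⊆ U) (h1 : W.Nonempty) (h2 : W ≠ U) : 3 ≤ D.card :=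
  ((h4 _ U _ h).2.2.1 W hW h1 h2).trans (DCtr.dc_le c)

/-- Every edge of a cut of size three crosses it. -/
theorem Cut.cross {W : Finset (Fin n)} {D : Finset ℕ} (h4 : S_Dc) (h : T3 U (Ad n L E))
    (c : Cut L E W D) (hW : W ⊆ U) (h1 : W.Nonempty) (h2 : W ≠ U) (h3 : D.card ≤ 3) {x : ℕ}
    (hx : x ∈ D) : ∃ p q, Ends L x p q ∧ p ∈ W ∧ q ∉ W := by
  by_contra hn
  have c' : Cut L E W (D.erase x) := fun j hj p q a hp hq =>
    mem_erase.2 ⟨fun e => hn ⟨p, q, e ▸ a, hp, hq⟩, c j hj p q a hp hq⟩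
  have := c'.three h4 h hW h1 h2
  have := card_erase_add_one hx
  omega

/-- A triad is a cut. -/
theorem cut (h2 : S_Cmp) (h4 : S_Dc) (h : T3 U (Ad n L E)) {e x y : ℕ} {u v : Fin n}
    (hD : {e, x, y} ⊆ E) (huv : Ends L e u v) (hlt : comps n L E < comps n L (E \ {e, x, y})) :
    ∃ W ⊆ U, u ∈ W ∧ v ∉ W ∧ Cut L E W {e, x, y} := by
  obtain ⟨B, h5, w, hw, t, ht, i, hi, h6⟩ := h2.2.2 n L (E \ {e, x, y}) {e, x, y}
    (by rwa [sdiff_union_of_subset hD])
  have hm : ∀ j ∈ E, ∀ p q, Ends L j p q → p ∈ U := fun j hj p q e => h.mem p q ⟨j, hj, e⟩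
  have he : e ∈ E := hD (mem_insert_self _ _)
  have h7 : Cut L E (B ∩ U) {e, x, y} :=
    fun j hj p q h7 hp hq => by_contra fun h8 => hq (mem_inter.2
      ⟨h5 p (mem_inter.1 hp).1 q ⟨j, mem_sdiff.2 ⟨hj, h8⟩, h7⟩, hm j hj _ _ h7.symm⟩)
  obtain ⟨p, q, a, hp, hq⟩ := h7.cross h4 h inter_subset_right
    ⟨w, mem_inter.2 ⟨hw, hm i (hD hi) _ _ h6⟩⟩
    (fun e => ht (mem_inter.1 (e.symm ▸ hm i (hD hi) _ _ h6.symm : t ∈ B ∩ U)).1) card_le_three
    (mem_insert_self e _)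
  rcases Ends_same a huv with ⟨rfl, rfl⟩ | ⟨rfl, rfl⟩
  · exact ⟨_, inter_subset_right, hp, hq, h7⟩
  · exact ⟨U \ (B ∩ U), sdiff_subset, mem_sdiff.2 ⟨hm e he _ _ huv, hq⟩,
      fun e => (mem_sdiff.1 e).2 hp, h7.compl h⟩

/-- Four independent edges leaving two disjoint sets. -/
theorem indep {x y z w : ℕ} {a a' b b' c c' d d' : Fin n} {W1 W2 : Finset (Fin n)}
    (hx : Ends L x a a') (hy : Ends L y b b') (hz : Ends L z c c') (hw : Ends L w d d')
    (a1 : a ∈ W1) (a2 : a' ∉ W1) (b1 : b ∈ W1) (b2 : b' ∉ W1) (c1 : c ∉ W1) (c2 : c' ∉ W1)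
    (d1 : d ∉ W1) (d2 : d' ∉ W1) (c3 : c ∈ W2) (c4 : c' ∉ W2) (d3 : d ∈ W2) (d4 : d' ∉ W2)
    (hab : a ≠ b) (hcd : c ≠ d ∨ c' ≠ d') : comps n L {x, y, z, w} + 4 = comps n L ∅ := by
  have s1 := fresh (S := ∅) hw (fun e => d4 (e ▸ d3)) (by simp)
  have s2 : comps n L (insert z (insert w ∅)) + 1 = comps n L (insert w ∅) := by
    rcases hcd with hcd | hcd
    · refine fresh hz (fun e => c4 (e ▸ c3)) fun j hj t ht => ?_
      rw [insert_empty_eq, mem_singleton] at hj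
      rcases (hj ▸ hw : Ends L j d d').eq ht with e | e
      · exact hcd e
      · exact d4 (e ▸ c3)
    · refine fresh hz.symm (fun e => c4 (e.symm ▸ c3)) fun j hj t ht => ?_
      rw [insert_empty_eq, mem_singleton] at hj
      rcases (hj ▸ hw : Ends L j d d').eq ht with e | e
      · exact c4 (e.symm ▸ d3)
      · exact hcd e
  have s3 := fresh (S := insert z (insert w ∅)) hy (fun e => b2 (e ▸ b1)) fun j hj t ht => by
    rw [insert_empty_eq, mem_insert, mem_singleton] at hj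
    rcases hj with hj | hj
    · rcases (hj ▸ hz : Ends L j c c').eq ht with e | e
      · exact c1 (e ▸ b1)
      · exact c2 (e ▸ b1)
    · rcases (hj ▸ hw : Ends L j d d').eq ht with e | e
      · exact d1 (e ▸ b1)
      · exact d2 (e ▸ b1)
  have s4 := fresh (S := insert y (insert z (insert w ∅))) hx (fun e => a2 (e ▸ a1))
    fun j hj t ht => by
      rw [insert_empty_eq, mem_insert, mem_insert, mem_singleton] at hj
      rcases hj with hj | hj | hj
      · rcases (hj ▸ hy : Ends L j b b').eq ht with e | e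
        · exact hab e
        · exact b2 (e ▸ a1)
      · rcases (hj ▸ hz : Ends L j c c').eq ht with e | e
        · exact c1 (e ▸ a1)
        · exact c2 (e ▸ a1)
      · rcases (hj ▸ hw : Ends L j d d').eq ht with e | e
        · exact d1 (e ▸ a1)
        · exact d2 (e ▸ a1)
  rw [insert_empty_eq] at s1 s2 s3 s4
  omega

/-- A cut of size three with two edges at one inner vertex is a star. -/
theorem star {W : Finset (Fin n)} {D : Finset ℕ} (h4 : S_Dc) (h : T3 U (Ad n L E))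
    (c : Cut L E W D) (hW : W ⊆ U) (h2 : W ≠ U) (h3 : D.card ≤ 3) {a a' b' : Fin n} (ha : a ∈ W)
    (h5 : a' ∉ W) (h6 : b' ∉ W) (h7 : Ad n L E a a') (h8 : Ad n L E a b') (h9 : a' ≠ b') :
    ∀ u ∈ W, u = a := by
  intro u hu
  by_contra hn
  exact h9 ((h4 _ U _ h).2.2.2.2 W hW (one_lt_card.2 ⟨u, hu, a, ha, hn⟩) h2
    ((DCtr.dc_le c).trans h3) a ha a' b' h5 h6 h7 h8)

/-- The case of disjoint sides. -/
theorem core (h4 : S_Dc) (h : T3 U (Ad n L E)) (hL : Valid (n, L)) (hE : E ⊆ range L.length)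
    (hs : CLaux.Simp n L E) {e x y z w : ℕ} {u v : Fin n} {W1 W2 : Finset (Fin n)}
    (hD : ({e, x, y, z, w} : Finset ℕ) ⊆ E) (h5 : ({e, x, y, z, w} : Finset ℕ).card = 5)
    (hxy : x ≠ y) (hzw : z ≠ w) (hz' : z ∉ ({e, x, y} : Finset ℕ))
    (hw' : w ∉ ({e, x, y} : Finset ℕ)) (hx' : x ∉ ({e, z, w} : Finset ℕ))
    (hy' : y ∉ ({e, z, w} : Finset ℕ))
    (huv : Ends L e u v) (w1 : W1 ⊆ U) (w2 : W2 ⊆ U) (hu : u ∈ W1) (hv : v ∈ W2)
    (dj : ∀ p ∈ W1, p ∉ W2) (k1 : Cut L E W1 {e, x, y}) (k2 : Cut L E W2 {e, z, w})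
    (dep : comps n L ∅ < comps n L {x, y, z, w} + 4) : E.card ≤ 6 := by
  have he : e ∈ E := hD (by simp)
  have hx : x ∈ E := hD (by simp)
  have hy : y ∈ E := hD (by simp)
  have hz : z ∈ E := hD (by simp)
  have hw : w ∈ E := hD (by simp)
  have n1 : W1 ≠ U := fun hh => dj v (hh ▸ w2 hv) hv
  have n2 : W2 ≠ U := fun hh => dj u hu (hh ▸ w1 hu)
  obtain ⟨a, a', ex, a1, a2⟩ := k1.cross h4 h w1 ⟨u, hu⟩ n1 card_le_three (x := x) (by simp)
  obtain ⟨b, b', ey, b1, b2⟩ := k1.cross h4 h w1 ⟨u, hu⟩ n1 card_le_three (x := y) (by simp)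
  obtain ⟨c, c', ez, c1, c2⟩ := k2.cross h4 h w2 ⟨v, hv⟩ n2 card_le_three (x := z) (by simp)
  obtain ⟨d, d', ew, d1, d2⟩ := k2.cross h4 h w2 ⟨v, hv⟩ n2 card_le_three (x := w) (by simp)
  have a3 : a ∉ W2 := dj a a1
  have b3 : b ∉ W2 := dj b b1
  have c3 : c ∉ W1 := fun hh => dj c hh c1
  have d3 : d ∉ W1 := fun hh => dj d hh d1
  have a4 : a' ∉ W2 := fun hh => hx' (k2 x hx a' a ex.symm hh a3)
  have b4 : b' ∉ W2 := fun hh => hy' (k2 y hy b' b ey.symm hh b3)
  have c4 : c' ∉ W1 := fun hh => hz' (k1 z hz c' c ez.symm hh c3)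
  have d4 : d' ∉ W1 := fun hh => hw' (k1 w hw d' d ew.symm hh d3)
  have o1 : a ≠ b ∨ a' ≠ b' := by
    by_contra hn
    rw [not_or, not_not, not_not] at hn
    exact hxy (hs x hx y hy a a' ex (hn.1 ▸ hn.2 ▸ ey))
  have o2 : c ≠ d ∨ c' ≠ d' := by
    by_contra hn
    rw [not_or, not_not, not_not] at hn
    exact hzw (hs z hz w hw c c' ez (hn.1 ▸ hn.2 ▸ ew))
  have hab : a = b := by
    by_contra hn
    have := indep ex ey ez ew a1 a2 b1 b2 c3 c4 d3 d4 c1 c2 d1 d2 hn o2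
    omega
  have hcd : c = d := by
    by_contra hn
    have := indep ez ew ex ey c1 c2 d1 d2 a3 a4 b3 b4 a1 a2 b1 b2 hn o1
    rw [show ({z, w, x, y} : Finset ℕ) = {x, y, z, w} by
      ext j; simp only [mem_insert, mem_singleton]; omega] at this
    omega
  subst hab hcd
  have p1 : a' ≠ b' := o1.resolve_left (not_not.2 rfl)
  have p2 : c' ≠ d' := o2.resolve_left (not_not.2 rfl)
  have s1 := star h4 h k1 w1 n1 card_le_three a1 a2 b2 ⟨x, hx, ex⟩ ⟨y, hy, ey⟩ p1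
  have s2 := star h4 h k2 w2 n2 card_le_three c1 c2 d2 ⟨z, hz, ez⟩ ⟨w, hw, ew⟩ p2
  obtain rfl := s1 u hu
  obtain rfl := s2 v hv
  have q1 : a' ≠ u := fun hh => a2 (hh ▸ hu)
  have q2 : b' ≠ u := fun hh => b2 (hh ▸ hu)
  have q3 : a' ≠ v := fun hh => a4 (hh ▸ hv)
  have q4 : b' ≠ v := fun hh => b4 (hh ▸ hv)
  have q5 : c' ≠ v := fun hh => c2 (hh ▸ hv)
  have q6 : d' ≠ v := fun hh => d2 (hh ▸ hv)
  have q7 : c' ≠ u := fun hh => c4 (hh ▸ hu)
  have q8 : d' ≠ u := fun hh => d4 (hh ▸ hu)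
  have q9 : u ≠ v := fun hh => a3 (hh ▸ hv)
  have un : ({x, y} ∪ {z, w} : Finset ℕ) = {x, y, z, w} := by
    ext j; simp only [mem_union, mem_insert, mem_singleton]; omega
  have r1 : a' = c' ∨ a' = d' := by
    by_contra hn
    rw [not_or] at hn
    have := G3.four ex ey ez ew p1 q1 q2 q3 p2 q5 q6 q7 q8 q9 hn.1 hn.2
    rw [un] at this
    omega
  have r2 : b' = c' ∨ b' = d' := by
    by_contra hn
    rw [not_or] at hn
    have := G3.four ey ex ez ew p1.symm q2 q1 q4 p2 q5 q6 q7 q8 q9 hn.1 hn.2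
    rw [pair_comm y x, un] at this
    omega
  have eu : ∀ j ∈ E, ∀ t, Ends L j u t → j ∈ ({e, x, y} : Finset ℕ) := fun j hj t ht =>
    k1 j hj u t ht hu fun hh => h.ne ⟨j, hj, ht⟩ (s1 t hh).symm
  have ev : ∀ j ∈ E, ∀ t, Ends L j v t → j ∈ ({e, z, w} : Finset ℕ) := fun j hj t ht =>
    k2 j hj v t ht hv fun hh => h.ne ⟨j, hj, ht⟩ (s2 t hh).symm
  have all := h.cut {u, v} (insert_subset (w1 hu) (singleton_subset_iff.2 (w2 hv))) a' b'
    (insert_nonempty _ _) (by simp [q1, q3]) (by simp [q2, q4]) (by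
      rintro p hp t ⟨j, hj, ht⟩
      rw [mem_insert, mem_singleton] at hp ⊢
      rcases hp with rfl | rfl
      · have := eu j hj t ht
        simp only [mem_insert, mem_singleton] at this
        rcases this with rfl | rfl | rfl
        · rcases huv.eq ht.symm with hh | hh <;> simp [hh]
        · rcases ex.eq ht.symm with hh | hh <;> simp [hh]
        · rcases ey.eq ht.symm with hh | hh <;> simp [hh]
      · have := ev j hj t ht
        simp only [mem_insert, mem_singleton] at this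
        rcases this with rfl | rfl | rfl
        · rcases huv.eq ht.symm with hh | hh <;> simp [hh]
        · rcases ez.eq ht.symm with hh | hh <;> grind
        · rcases ew.eq ht.symm with hh | hh <;> grind)
  have rest : ∀ j ∈ E \ {e, x, y, z, w}, Ends L j a' b' := by
    intro j hj
    obtain ⟨hj, hn⟩ := mem_sdiff.1 hj
    have out : ∀ p q, Ends L j p q → p = a' ∨ p = b' := fun p q hpq => by
      rcases all p (h.mem p q ⟨j, hj, hpq⟩) with hh | hh
      · exfalso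
        rw [mem_insert, mem_singleton] at hh
        rcases hh with rfl | rfl
        · have := eu j hj q hpq
          simp only [mem_insert, mem_singleton] at this hn
          omega
        · have := ev j hj q hpq
          simp only [mem_insert, mem_singleton] at this hn
          omega
      · exact hh
    obtain ⟨p, q, hpq⟩ := exists_ends hL (mem_range.1 (hE hj))
    have hne := h.ne ⟨j, hj, hpq⟩
    rcases out p q hpq with rfl | rfl <;> rcases out q _ hpq.symm with rfl | rfl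
    · exact absurd rfl hne
    · exact hpq
    · exact hpq.symm
    · exact absurd rfl hne
  have one : (E \ {e, x, y, z, w}).card ≤ 1 := card_le_one.2 fun i hi j hj =>
    hs i (mem_sdiff.1 hi).1 j (mem_sdiff.1 hj).1 a' b' (rest i hi) (rest j hj)
  have := card_sdiff_add_card_eq_card hD
  omega

theorem five {e x y z w : ℕ} (h : ({e, x, y, z, w} : Finset ℕ).card = 5) :
    e ≠ x ∧ e ≠ y ∧ e ≠ z ∧ e ≠ w ∧ x ≠ y ∧ x ≠ z ∧ x ≠ w ∧ y ≠ z ∧ y ≠ w ∧ z ≠ w := by
  have h1 : [e, x, y, z, w].Nodup := by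
    have h2 : ([e, x, y, z, w] : List ℕ).toFinset.card = [e, x, y, z, w].length := by
      simpa using h
    rw [List.card_toFinset] at h2
    exact List.dedup_eq_self.1 ((List.dedup_sublist _).eq_of_length h2)
  simp only [List.nodup_cons, List.mem_cons, List.not_mem_nil, or_false, not_or] at h1
  omega

end QuadG

open QuadG in
theorem p_QuadG (h1 : SG.S_T3) (h2 : SG.S_Cmp) (h3 : SG.S_Dc) : S_QuadG := by
  rintro k E ⟨-, n, L, c, hL, hE, hk⟩ tc e x y z w hD h5 t1 t2 dep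
  have h4 : 4 ≤ E.card := by have := card_le_card hD; omega
  obtain ⟨U, hU, -, hs⟩ := h1 n L E hL hE (CLaux.tc_gr tc hk) h4
  obtain ⟨n1, n2, n3, n4, n5, n6, n7, n8, n9, n10⟩ := five h5
  have D1 : ({e, x, y} : Finset ℕ) ⊆ E := fun j hj => hD (by
    simp only [mem_insert, mem_singleton] at hj ⊢; omega)
  have D2 : ({e, z, w} : Finset ℕ) ⊆ E := fun j hj => hD (by
    simp only [mem_insert, mem_singleton] at hj ⊢; omega)
  have D3 : ({x, y, z, w} : Finset ℕ) ⊆ E := (subset_insert _ _).trans hD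
  have he : e ∈ E := hD (mem_insert_self _ _)
  obtain ⟨u, v, huv⟩ := exists_ends hL (mem_range.1 (hE he))
  have kE := hk E Subset.rfl
  obtain ⟨W1, w1, u1, v1, k1⟩ := cut h2 h3 hU D1 huv (by
    have := hk (E \ {e, x, y}) sdiff_subset; omega)
  obtain ⟨W2, w2, v2, u2, k2⟩ := cut h2 h3 hU D2 huv.symm (by
    have := hk (E \ {e, z, w}) sdiff_subset; omega)
  have dep' : comps n L ∅ < comps n L {x, y, z, w} + 4 := by
    have := hk _ D3
    have := hk ∅ (empty_subset _)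
    omega
  have uU : u ∈ U := w1 u1
  have vU : v ∈ U := w2 v2
  have key : ∀ (u v : Fin n) (W1 W2 : Finset (Fin n)), Ends L e u v → W1 ⊆ U → W2 ⊆ U → u ∈ W1 →
      v ∈ W2 → (∀ p ∈ W1, p ∉ W2) → Cut L E W1 {e, x, y} → Cut L E W2 {e, z, w} → E.card ≤ 6 :=
    fun u v W1 W2 huv w1 w2 hu hv dj k1 k2 =>
      core h3 hU hL hE hs hD h5 n5 n10 (by simp [n3.symm, n6.symm, n8.symm])
        (by simp [n4.symm, n7.symm, n9.symm]) (by simp [n1.symm, n6, n7]) (by simp [n2.symm, n8, n9])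
        huv w1 w2 hu hv dj k1 k2 dep'
  by_cases hP : ∀ p ∈ W1, p ∉ W2
  · exact key u v W1 W2 huv w1 w2 u1 v2 hP k1 k2
  by_cases hQ : ∀ p ∈ U \ W1, p ∉ U \ W2
  · exact key v u (U \ W1) (U \ W2) huv.symm sdiff_subset sdiff_subset (mem_sdiff.2 ⟨vU, v1⟩)
      (mem_sdiff.2 ⟨uU, u2⟩) hQ (k1.compl hU) (k2.compl hU)
  exfalso
  classical
  -- both corners are nonempty; their cuts are disjoint subsets of `{x, y, z, w}`
  have corner : ∀ (u v : Fin n) (W1 W2 : Finset (Fin n)), Ends L e u v → v ∉ W1 → u ∉ W2 →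
      Cut L E W1 {e, x, y} → Cut L E W2 {e, z, w} → Cut L E (W1 ∩ W2) {x, y, z, w} := by
    intro u v W1 W2 huv hv hu k1 k2 j hj p q a hp hq
    obtain ⟨p1, p2⟩ := mem_inter.1 hp
    have hje : j ≠ e := fun hh => by
      rcases huv.eq (hh ▸ a) with rfl | rfl
      · exact hu p2
      · exact hv p1
    by_cases hq1 : q ∈ W1
    · have := k2 j hj p q a p2 fun hh => hq (mem_inter.2 ⟨hq1, hh⟩)
      simp only [mem_insert, mem_singleton] at this ⊢
      omega
    · have := k1 j hj p q a p1 hq1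
      simp only [mem_insert, mem_singleton] at this ⊢
      omega
  have cP := corner u v W1 W2 huv v1 u2 k1 k2
  have cQ := corner v u (U \ W1) (U \ W2) huv.symm (fun hh => (mem_sdiff.1 hh).2 u1)
    (fun hh => (mem_sdiff.1 hh).2 v2) (k1.compl hU) (k2.compl hU)
  let P : ℕ → Prop := fun j => ∃ p q, Ends L j p q ∧ p ∈ W1 ∩ W2
  have cP' : Cut L E (W1 ∩ W2) (({x, y, z, w} : Finset ℕ).filter P) := fun j hj p q a hp hq =>
    mem_filter.2 ⟨cP j hj p q a hp hq, p, q, a, hp⟩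
  have cQ' : Cut L E ((U \ W1) ∩ (U \ W2)) (({x, y, z, w} : Finset ℕ).filter fun j => ¬ P j) := by
    intro j hj p q a hp hq
    refine mem_filter.2 ⟨cQ j hj p q a hp hq, ?_⟩
    rintro ⟨p', q', a', hp'⟩
    simp only [mem_inter, mem_sdiff] at hp hp'
    rcases a.eq a' with rfl | rfl
    · exact hp.1.2 hp'.1
    · have b1 := k1 j hj _ p a.symm hp'.1 hp.1.2
      have b2 := k2 j hj _ p a.symm hp'.2 hp.2.2
      have hje : j ≠ e := fun hh => by
        rcases huv.eq (hh ▸ a) with rfl | rfl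
        · exact hp.1.2 u1
        · exact hp.2.2 v2
      simp only [mem_insert, mem_singleton] at b1 b2
      omega
  push Not at hP hQ
  obtain ⟨p, p1, p2⟩ := hP
  obtain ⟨q, q1, q2⟩ := hQ
  have a1 := cP'.three h3 hU (inter_subset_left.trans w1) ⟨p, mem_inter.2 ⟨p1, p2⟩⟩
    fun hh => v1 (mem_inter.1 (hh.symm ▸ vU : v ∈ W1 ∩ W2)).1
  have a2 := cQ'.three h3 hU (inter_subset_left.trans sdiff_subset) ⟨q, mem_inter.2 ⟨q1, q2⟩⟩
    fun hh => (mem_sdiff.1 (mem_inter.1 (hh.symm ▸ uU : u ∈ (U \ W1) ∩ (U \ W2))).1).2 u1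
  have a3 := card_filter_add_card_filter_not (s := ({x, y, z, w} : Finset ℕ)) P
  have a4 : ({x, y, z, w} : Finset ℕ).card ≤ 4 := card_le_four
  omega

end Pool.Agent.P.MP_e0c037_lc.AR
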