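import Pool.Agent.P.MP_e0c037_lc.Defs

/-! The sets of points used in the statement of the classification, arcs included. -/

namespace Pool.Agent.P.MP_e0c037_lc.AR

/-- No multigraph has a negative flow polynomial at `q`. -/
def FlowNonneg (q : ℝ) : Prop :=
  ∀ (n : ℕ) (L : List (ℕ × ℕ)), (∀ e ∈ L, e.1 < n ∧ e.2 < n) →
    0 ≤ (-1) ^ L.length * dichromatic n L q (-q)

/-- Every bridgeless multigraph has a positive flow polynomial at `q`. -/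
def FlowPos (q : ℝ) : Prop :=
  ∀ (n : ℕ) (L : List (ℕ × ℕ)), (∀ e ∈ L, e.1 < n ∧ e.2 < n) →
    (∀ i < L.length,
      comps n L ((Finset.range L.length).erase i) = comps n L (Finset.range L.length)) →
    0 < (-1) ^ L.length * dichromatic n L q (-q)

/-- The orbit that decides the exceptional points of the two arcs. -/
noncomputable def orb (a : ℝ) : ℕ → ℝ
  | 0 => (a ^ 2 + a - 1) / (a ^ 2 - a + 1)
  | i + 1 => ((2 * a - 1) * orb a i + 1 - 2 * a ^ 2) / (2 * a ^ 2 - 2 * a + 1 - orb a i)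

/-- The point with parameter `a` on one of the two arcs. -/
def Arc (a q v : ℝ) : Prop :=
  0 < a ∧ a < 1 ∧ q = 2 * (1 - a ^ 2) ∧ (v = -1 - a ∨ v = 2 * a - 2)

/-- The points at which the sign problem is in polynomial time. -/
def EasyAt (q v : ℝ) : Prop :=
  (q ≤ 0 ∧ ((-2 ≤ v ∧ v ≤ 0) ∨ -q / 2 ≤ v)) ∨ (0 ≤ q ∧ 0 ≤ v) ∨ q = 0 ∨ q = 1 ∨
  (∃ r : ℝ, 1 / 3 ≤ r ∧ r < 1 ∧ q = (1 + r) ^ 2 * (1 - r) ∧ -1 - r ≤ v ∧ v ≤ r ^ 2 - 1) ∨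
  (0 < q ∧ q < 1 ∧ (v = -2 ∨ v = -q / 2)) ∨
  ((∃ k : ℕ, q = k) ∧ (v < -q ∨ -1 < v)) ∨
  (q = 2 ∧ (v = -1 ∨ v = -2)) ∨ (q = 4 ∧ v = -2) ∨
  (Real.exp 33488 ≤ q ∧ v ≤ -q) ∨
  (4 + 2 * √2 ≤ q ∧ v < -q ∧ FlowNonneg q) ∨
  ((q = 5 ∨ q = 6 ∨ 4 + 2 * √2 ≤ q) ∧ v = -q ∧ FlowPos q) ∨
  ∃ a, Arc a q v ∧ 1 < a ^ 4 + a

/-- The points at which no hardness is claimed. -/
def LeftAt (q v : ℝ) : Prop :=
  (∃ k : ℕ, 3 ≤ k ∧ q = k ∧ v = -1) ∨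
  (v = -q ∧ (q = 3 ∨ q = 4 ∨ q = 5 ∨ q = 6 ∨
    (4 + 2 * √2 ≤ q ∧ q < Real.exp 33488 ∧ FlowNonneg q))) ∨
  ∃ a, Arc a q v ∧ q < 1 ∧ (a ^ 4 + a = 1 ∨ ∃ i, orb a i = 2 * a - 1)

end Pool.Agent.P.MP_e0c037_lc.AR
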